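import Pool.Agent.Lib.MP_d88725_gt.Defs

set_option autoImplicit false
set_option linter.unusedVariables false

namespace Pool.Agent.Lib.MP_d88725_gt

variable {V : Type*} {e : ℝ} {c : Co V} {p : V}

/-- the unsmoothed defining function of the polyhedral solid -/
noncomputable def LL0 (c : Co V) (p : V) : ℝ :=
  max (max (max (max (max (G1 0 c p) (G2 0 c p)) (G3 0 c p))
      (max (max (G4 0 c p) (G5 0 c p)) (G6 0 c p))) (max (TP 0 c p) (TM 0 c p)))
    (min (max (min (A0 0 c p) (A5 0 c p)) (min (A3 0 c p) (A4 0 c p)))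
      (max (min (A6 0 c p) (A1 0 c p)) (min (A7 0 c p) (A2 0 c p))))

lemma mx_approx (he : 0 < e) {a b a' b' d1 d2 d : ℝ} (ha : |a - a'| ≤ d1) (hb : |b - b'| ≤ d2)
    (h1 : d1 + e ≤ d) (h2 : d2 + e ≤ d) : |mx e a b - max a' b'| ≤ d := by
  have k1 := le_mx_left he a b
  have k2 := le_mx_right he a b
  have k3 := le_max_left a' b'
  have k4 := le_max_right a' b'
  have ha' := abs_le.1 ha
  have hb' := abs_le.1 hb
  rw [abs_le]
  constructor
  · rcases le_total a' b' with h | h
    · rw [max_eq_right h]; linarith [hb'.1]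
    · rw [max_eq_left h]; linarith [ha'.1]
  · rcases mx_cases he a b with h | h
    · linarith [ha'.2]
    · linarith [hb'.2]

lemma mn_approx (he : 0 < e) {a b a' b' d1 d2 d : ℝ} (ha : |a - a'| ≤ d1) (hb : |b - b'| ≤ d2)
    (h1 : d1 + e ≤ d) (h2 : d2 + e ≤ d) : |mn e a b - min a' b'| ≤ d := by
  have h := mx_approx he (a := -a) (b := -b) (a' := -a') (b' := -b') (d1 := d1) (d2 := d2) (d := d)
    (by rw [← abs_neg]; simpa [sub_eq_add_neg, add_comm] using ha)
    (by rw [← abs_neg]; simpa [sub_eq_add_neg, add_comm] using hb) h1 h2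
  rw [max_neg_neg] at h
  unfold mn
  rw [← abs_neg]
  simpa [sub_eq_add_neg, add_comm] using h

lemma lf_approx (he : 0 < e) {c1 c2 c3 k k' : ℝ} (h1 : k - k' ≤ 200 * e) (h2 : k' - k ≤ 200 * e) :
    |lf c1 c2 c3 k c p - lf c1 c2 c3 k' c p| ≤ 200 * e := by
  unfold lf; rw [abs_le]; constructor <;> linarith

lemma LL_approx (he : 0 < e) (c : Co V) (p : V) : |LL e c p - LL0 c p| ≤ 205 * e := by
  have l : ∀ {c1 c2 c3 k k' : ℝ}, k - k' ≤ 200 * e → k' - k ≤ 200 * e →
      |lf c1 c2 c3 k c p - lf c1 c2 c3 k' c p| ≤ 200 * e := fun h1 h2 => lf_approx he h1 h2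
  refine mx_approx he (d1 := 204 * e) (d2 := 203 * e) ?_ ?_ (by linarith) (by linarith)
  · refine mx_approx he (d1 := 203 * e) (d2 := 201 * e) ?_ ?_ (by linarith) (by linarith)
    · refine mx_approx he (d1 := 202 * e) (d2 := 202 * e) ?_ ?_ (by linarith) (by linarith)
      · refine mx_approx he (d1 := 201 * e) ?_ (l (by linarith) (by linarith)) (by linarith)
          (by linarith)
        exact mx_approx he (l (by linarith) (by linarith)) (l (by linarith) (by linarith))
          (by linarith) (by linarith)
      · refine mx_approx he (d1 := 201 * e) ?_ (l (by linarith) (by linarith)) (by linarith)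
          (by linarith)
        exact mx_approx he (l (by linarith) (by linarith)) (l (by linarith) (by linarith))
          (by linarith) (by linarith)
    · exact mx_approx he (l (by linarith) (by linarith)) (l (by linarith) (by linarith))
        (by linarith) (by linarith)
  · refine mn_approx he (d1 := 202 * e) (d2 := 202 * e) ?_ ?_ (by linarith) (by linarith)
    · refine mx_approx he (d1 := 201 * e) (d2 := 201 * e) ?_ ?_ (by linarith) (by linarith)
      · exact mn_approx he (l (by linarith) (by linarith)) (l (by linarith) (by linarith))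
          (by linarith) (by linarith)
      · exact mn_approx he (l (by linarith) (by linarith)) (l (by linarith) (by linarith))
          (by linarith) (by linarith)
    · refine mx_approx he (d1 := 201 * e) (d2 := 201 * e) ?_ ?_ (by linarith) (by linarith)
      · exact mn_approx he (l (by linarith) (by linarith)) (l (by linarith) (by linarith))
          (by linarith) (by linarith)
      · exact mn_approx he (l (by linarith) (by linarith)) (l (by linarith) (by linarith))
          (by linarith) (by linarith)

lemma GP_congr {V' : Type*} {c' : Co V'} {p' : V'} {R : V → ℝ} {R' : V' → ℝ}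
    (hX : c.X p = c'.X p') (hY : c.Y p = c'.Y p') (hZ : c.Z p = c'.Z p') (hR : R p = R' p') :
    GP e c R p = GP e c' R' p' := by
  show GP e co0 (fun _ => R p) (c.X p, c.Y p, c.Z p) =
    GP e co0 (fun _ => R' p') (c'.X p', c'.Y p', c'.Z p')
  rw [hX, hY, hZ, hR]

end Pool.Agent.Lib.MP_d88725_gt
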