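import Pool.Agent.Lib.MP_d88725_gt.Support

set_option autoImplicit false
set_option linter.unusedVariables false

namespace Pool.Agent.Lib.MP_d88725_gt

open Set Filter Topology

/-- three coordinate functions -/
structure Co (V : Type*) where
  X : V → ℝ
  Y : V → ℝ
  Z : V → ℝ

variable {V : Type*}

/-- the mirror image under the half turn about the first axis -/
def Co.mir (c : Co V) : Co V := ⟨c.X, fun p => -c.Y p, fun p => -c.Z p⟩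

/-- the standard coordinates on triples -/
def co0 : Co (ℝ × ℝ × ℝ) := ⟨fun p => p.1, fun p => p.2.1, fun p => p.2.2⟩

/-- an affine function of the coordinates -/
def lf (c1 c2 c3 c0 : ℝ) (c : Co V) : V → ℝ :=
  fun p => c1 * c.X p + c2 * c.Y p + c3 * c.Z p + c0

/-- affine leaf -/
def A0 (e : ℝ) (c : Co V) : V → ℝ := lf 2 3 5 (2) c

/-- affine leaf -/
def A1 (e : ℝ) (c : Co V) : V → ℝ := lf (-2) (-5) 5 (6 - 200 * e) c

/-- affine leaf -/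
def A2 (e : ℝ) (c : Co V) : V → ℝ := lf (-2) 1 7 (-2 + 60 * e) c

/-- affine leaf -/
def A3 (e : ℝ) (c : Co V) : V → ℝ := lf 2 3 1 (2 + 10 * e) c

/-- affine leaf -/
def A4 (e : ℝ) (c : Co V) : V → ℝ := lf (-2) (-1) (-7) (-2 + 60 * e) c

/-- affine leaf -/
def A5 (e : ℝ) (c : Co V) : V → ℝ := lf (-2) 5 (-5) (6 - 200 * e) c

/-- affine leaf -/
def A6 (e : ℝ) (c : Co V) : V → ℝ := lf 2 (-3) (-5) (2) c

/-- affine leaf -/
def A7 (e : ℝ) (c : Co V) : V → ℝ := lf 2 (-3) (-1) (2 + 10 * e) c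

/-- affine leaf -/
def G1 (e : ℝ) (c : Co V) : V → ℝ := lf 2 (-5) 11 (-12) c

/-- affine leaf -/
def G2 (e : ℝ) (c : Co V) : V → ℝ := lf 2 1 (-3) (-8) c

/-- affine leaf -/
def G3 (e : ℝ) (c : Co V) : V → ℝ := lf (-2) 3 3 (-4) c

/-- affine leaf -/
def G4 (e : ℝ) (c : Co V) : V → ℝ := lf 2 5 (-11) (-12) c

/-- affine leaf -/
def G5 (e : ℝ) (c : Co V) : V → ℝ := lf 2 (-1) 3 (-8) c

/-- affine leaf -/
def G6 (e : ℝ) (c : Co V) : V → ℝ := lf (-2) (-3) (-3) (-4) c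

/-- affine leaf -/
def TP (e : ℝ) (c : Co V) : V → ℝ := lf 0 0 1 (-1 + 25 * e) c

/-- affine leaf -/
def TM (e : ℝ) (c : Co V) : V → ℝ := lf 0 0 (-1) (-1 + 25 * e) c

/-- affine leaf -/
def LA (e : ℝ) (c : Co V) : V → ℝ := lf 1 0 0 (1 + 50 * e) c

/-- affine leaf -/
def KP (e : ℝ) (c : Co V) : V → ℝ := lf 0 50 0 (0) c

/-- affine leaf -/
def KM (e : ℝ) (c : Co V) : V → ℝ := lf 0 (-50) 0 (0) c

/-- affine leaf -/
def OO (e : ℝ) (c : Co V) : V → ℝ := lf 0 0 0 (0) c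

/-- tree node -/
noncomputable def M05 (e : ℝ) (c : Co V) : V → ℝ := MN e (A0 e c) (A5 e c)

/-- tree node -/
noncomputable def M34 (e : ℝ) (c : Co V) : V → ℝ := MN e (A3 e c) (A4 e c)

/-- tree node -/
noncomputable def M61 (e : ℝ) (c : Co V) : V → ℝ := MN e (A6 e c) (A1 e c)

/-- tree node -/
noncomputable def M72 (e : ℝ) (c : Co V) : V → ℝ := MN e (A7 e c) (A2 e c)

/-- tree node -/
noncomputable def L1 (e : ℝ) (c : Co V) : V → ℝ := MX e (M05 e c) (M34 e c)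

/-- tree node -/
noncomputable def L2 (e : ℝ) (c : Co V) : V → ℝ := MX e (M61 e c) (M72 e c)

/-- tree node -/
noncomputable def LI (e : ℝ) (c : Co V) : V → ℝ := MN e (L1 e c) (L2 e c)

/-- tree node -/
noncomputable def H12 (e : ℝ) (c : Co V) : V → ℝ := MX e (G1 e c) (G2 e c)

/-- tree node -/
noncomputable def H123 (e : ℝ) (c : Co V) : V → ℝ := MX e (H12 e c) (G3 e c)

/-- tree node -/
noncomputable def H45 (e : ℝ) (c : Co V) : V → ℝ := MX e (G4 e c) (G5 e c)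

/-- tree node -/
noncomputable def H456 (e : ℝ) (c : Co V) : V → ℝ := MX e (H45 e c) (G6 e c)

/-- tree node -/
noncomputable def LH (e : ℝ) (c : Co V) : V → ℝ := MX e (H123 e c) (H456 e c)

/-- tree node -/
noncomputable def LT (e : ℝ) (c : Co V) : V → ℝ := MX e (TP e c) (TM e c)

/-- tree node -/
noncomputable def LB (e : ℝ) (c : Co V) : V → ℝ := MX e (LH e c) (LT e c)

/-- tree node -/
noncomputable def LL (e : ℝ) (c : Co V) : V → ℝ := MX e (LB e c) (LI e c)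

/-- tree node -/
noncomputable def NP (e : ℝ) (c : Co V) : V → ℝ := MN e (LA e c) (KP e c)

/-- tree node -/
noncomputable def NM (e : ℝ) (c : Co V) : V → ℝ := MN e (LA e c) (KM e c)

/-- tree node -/
noncomputable def CP (e : ℝ) (c : Co V) : V → ℝ := MX e (OO e c) (NP e c)

/-- tree node -/
noncomputable def CM (e : ℝ) (c : Co V) : V → ℝ := MX e (OO e c) (NM e c)

/-- the viewpoint switch -/
noncomputable def GH (e : ℝ) (c : Co V) : V → ℝ := fun p => CP e c p - CM e c p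

/-- first outer leaf -/
def E1 (c : Co V) (R : V → ℝ) : V → ℝ := fun p => c.Z p - 400 * R p

/-- second outer leaf -/
noncomputable def E2 (e : ℝ) (c : Co V) : V → ℝ :=
  fun p => GH e c p - 3 * c.Z p + 2500 * TP e c p - 50000 * e

/-- outer leaves combined -/
noncomputable def E12 (e : ℝ) (c : Co V) (R : V → ℝ) : V → ℝ := MX e (E1 c R) (E2 e c)

/-- outer branch -/
noncomputable def B1 (e : ℝ) (c : Co V) (R : V → ℝ) : V → ℝ :=
  fun p => E12 e c R p - 6 * LH e c p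

/-- inner branch -/
noncomputable def B2 (e : ℝ) (c : Co V) : V → ℝ :=
  fun p => GH e c p - 3 * c.Z p + 20000 * LI e c p

/-- numerator of the meridian parameter -/
noncomputable def GP (e : ℝ) (c : Co V) (R : V → ℝ) : V → ℝ := MX e (B1 e c R) (B2 e c)

section Congr

variable {V' : Type*} {e : ℝ} {c : Co V} {c' : Co V'} {p : V} {p' : V'}

lemma LL_congr (hX : c.X p = c'.X p') (hY : c.Y p = c'.Y p') (hZ : c.Z p = c'.Z p') :
    LL e c p = LL e c' p' := by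
  show LL e co0 (c.X p, c.Y p, c.Z p) = LL e co0 (c'.X p', c'.Y p', c'.Z p')
  rw [hX, hY, hZ]

lemma LH_congr (hX : c.X p = c'.X p') (hY : c.Y p = c'.Y p') (hZ : c.Z p = c'.Z p') :
    LH e c p = LH e c' p' := by
  show LH e co0 (c.X p, c.Y p, c.Z p) = LH e co0 (c'.X p', c'.Y p', c'.Z p')
  rw [hX, hY, hZ]

lemma LI_congr (hX : c.X p = c'.X p') (hY : c.Y p = c'.Y p') (hZ : c.Z p = c'.Z p') :
    LI e c p = LI e c' p' := by
  show LI e co0 (c.X p, c.Y p, c.Z p) = LI e co0 (c'.X p', c'.Y p', c'.Z p')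
  rw [hX, hY, hZ]

lemma GH_congr (hX : c.X p = c'.X p') (hY : c.Y p = c'.Y p') (hZ : c.Z p = c'.Z p') :
    GH e c p = GH e c' p' := by
  show GH e co0 (c.X p, c.Y p, c.Z p) = GH e co0 (c'.X p', c'.Y p', c'.Z p')
  rw [hX, hY, hZ]

lemma LB_congr (hX : c.X p = c'.X p') (hY : c.Y p = c'.Y p') (hZ : c.Z p = c'.Z p') :
    LB e c p = LB e c' p' := by
  show LB e co0 (c.X p, c.Y p, c.Z p) = LB e co0 (c'.X p', c'.Y p', c'.Z p')
  rw [hX, hY, hZ]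

end Congr

section Mirror

variable {e : ℝ} {c : Co V}

lemma A0_mir : A0 e c.mir = A6 e c := by
  funext p; simp only [A0, A6, lf, Co.mir]; ring

lemma A6_mir : A6 e c.mir = A0 e c := by
  funext p; simp only [A6, A0, lf, Co.mir]; ring

lemma A1_mir : A1 e c.mir = A5 e c := by
  funext p; simp only [A1, A5, lf, Co.mir]; ring

lemma A5_mir : A5 e c.mir = A1 e c := by
  funext p; simp only [A5, A1, lf, Co.mir]; ring

lemma A2_mir : A2 e c.mir = A4 e c := by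
  funext p; simp only [A2, A4, lf, Co.mir]; ring

lemma A4_mir : A4 e c.mir = A2 e c := by
  funext p; simp only [A4, A2, lf, Co.mir]; ring

lemma A3_mir : A3 e c.mir = A7 e c := by
  funext p; simp only [A3, A7, lf, Co.mir]; ring

lemma A7_mir : A7 e c.mir = A3 e c := by
  funext p; simp only [A7, A3, lf, Co.mir]; ring

lemma G1_mir : G1 e c.mir = G4 e c := by
  funext p; simp only [G1, G4, lf, Co.mir]; ring

lemma G4_mir : G4 e c.mir = G1 e c := by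
  funext p; simp only [G4, G1, lf, Co.mir]; ring

lemma G2_mir : G2 e c.mir = G5 e c := by
  funext p; simp only [G2, G5, lf, Co.mir]; ring

lemma G5_mir : G5 e c.mir = G2 e c := by
  funext p; simp only [G5, G2, lf, Co.mir]; ring

lemma G3_mir : G3 e c.mir = G6 e c := by
  funext p; simp only [G3, G6, lf, Co.mir]; ring

lemma G6_mir : G6 e c.mir = G3 e c := by
  funext p; simp only [G6, G3, lf, Co.mir]; ring

lemma TP_mir : TP e c.mir = TM e c := by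
  funext p; simp only [TP, TM, lf, Co.mir]; ring

lemma TM_mir : TM e c.mir = TP e c := by
  funext p; simp only [TM, TP, lf, Co.mir]; ring

lemma LA_mir : LA e c.mir = LA e c := by
  funext p; simp only [LA, LA, lf, Co.mir]; ring

lemma KP_mir : KP e c.mir = KM e c := by
  funext p; simp only [KP, KM, lf, Co.mir]; ring

lemma KM_mir : KM e c.mir = KP e c := by
  funext p; simp only [KM, KP, lf, Co.mir]; ring

lemma OO_mir : OO e c.mir = OO e c := by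
  funext p; simp only [OO, OO, lf, Co.mir]; ring

lemma LI_mir (he : 0 < e) : LI e c.mir = LI e c := by
  funext p
  simp only [LI, L1, L2, M05, M34, M61, M72, A0_mir, A1_mir, A2_mir, A3_mir, A4_mir, A5_mir,
    A6_mir, A7_mir]
  exact mn_comm he _ _

lemma LH_mir (he : 0 < e) : LH e c.mir = LH e c := by
  funext p
  simp only [LH, H123, H456, H12, H45, G1_mir, G2_mir, G3_mir, G4_mir, G5_mir, G6_mir]
  exact mx_comm he _ _

lemma LT_mir (he : 0 < e) : LT e c.mir = LT e c := by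
  funext p
  simp only [LT, TP_mir, TM_mir]
  exact mx_comm he _ _

lemma LL_mir (he : 0 < e) : LL e c.mir = LL e c := by
  simp only [LL, LB, LI_mir he, LH_mir he, LT_mir he]

lemma GH_mir (p : V) : GH e c.mir p = -GH e c p := by
  simp only [GH, CP, CM, NP, NM, LA_mir, KP_mir, KM_mir, OO_mir]; ring

end Mirror

section Smooth

variable [NormedAddCommGroup V] [NormedSpace ℝ V]

/-- the coordinates are smooth -/
def Co.Sm (c : Co V) : Prop :=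
  ContDiff ℝ (⊤ : ℕ∞) c.X ∧ ContDiff ℝ (⊤ : ℕ∞) c.Y ∧ ContDiff ℝ (⊤ : ℕ∞) c.Z

variable {e : ℝ} {c : Co V} {R : V → ℝ}

lemma lf_cd (h : c.Sm) (c1 c2 c3 c0 : ℝ) : ContDiff ℝ (⊤ : ℕ∞) (lf c1 c2 c3 c0 c) :=
  (((contDiff_const.mul h.1).add (contDiff_const.mul h.2.1)).add
    (contDiff_const.mul h.2.2)).add contDiff_const

lemma A0_cd (h : c.Sm) : ContDiff ℝ (⊤ : ℕ∞) (A0 e c) := lf_cd h _ _ _ _

lemma A1_cd (h : c.Sm) : ContDiff ℝ (⊤ : ℕ∞) (A1 e c) := lf_cd h _ _ _ _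

lemma A2_cd (h : c.Sm) : ContDiff ℝ (⊤ : ℕ∞) (A2 e c) := lf_cd h _ _ _ _

lemma A3_cd (h : c.Sm) : ContDiff ℝ (⊤ : ℕ∞) (A3 e c) := lf_cd h _ _ _ _

lemma A4_cd (h : c.Sm) : ContDiff ℝ (⊤ : ℕ∞) (A4 e c) := lf_cd h _ _ _ _

lemma A5_cd (h : c.Sm) : ContDiff ℝ (⊤ : ℕ∞) (A5 e c) := lf_cd h _ _ _ _

lemma A6_cd (h : c.Sm) : ContDiff ℝ (⊤ : ℕ∞) (A6 e c) := lf_cd h _ _ _ _

lemma A7_cd (h : c.Sm) : ContDiff ℝ (⊤ : ℕ∞) (A7 e c) := lf_cd h _ _ _ _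

lemma G1_cd (h : c.Sm) : ContDiff ℝ (⊤ : ℕ∞) (G1 e c) := lf_cd h _ _ _ _

lemma G2_cd (h : c.Sm) : ContDiff ℝ (⊤ : ℕ∞) (G2 e c) := lf_cd h _ _ _ _

lemma G3_cd (h : c.Sm) : ContDiff ℝ (⊤ : ℕ∞) (G3 e c) := lf_cd h _ _ _ _

lemma G4_cd (h : c.Sm) : ContDiff ℝ (⊤ : ℕ∞) (G4 e c) := lf_cd h _ _ _ _

lemma G5_cd (h : c.Sm) : ContDiff ℝ (⊤ : ℕ∞) (G5 e c) := lf_cd h _ _ _ _

lemma G6_cd (h : c.Sm) : ContDiff ℝ (⊤ : ℕ∞) (G6 e c) := lf_cd h _ _ _ _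

lemma TP_cd (h : c.Sm) : ContDiff ℝ (⊤ : ℕ∞) (TP e c) := lf_cd h _ _ _ _

lemma TM_cd (h : c.Sm) : ContDiff ℝ (⊤ : ℕ∞) (TM e c) := lf_cd h _ _ _ _

lemma LA_cd (h : c.Sm) : ContDiff ℝ (⊤ : ℕ∞) (LA e c) := lf_cd h _ _ _ _

lemma KP_cd (h : c.Sm) : ContDiff ℝ (⊤ : ℕ∞) (KP e c) := lf_cd h _ _ _ _

lemma KM_cd (h : c.Sm) : ContDiff ℝ (⊤ : ℕ∞) (KM e c) := lf_cd h _ _ _ _

lemma OO_cd (h : c.Sm) : ContDiff ℝ (⊤ : ℕ∞) (OO e c) := lf_cd h _ _ _ _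

lemma M05_cd (h : c.Sm) : ContDiff ℝ (⊤ : ℕ∞) (M05 e c) := MN_contDiff (A0_cd h) (A5_cd h)

lemma M34_cd (h : c.Sm) : ContDiff ℝ (⊤ : ℕ∞) (M34 e c) := MN_contDiff (A3_cd h) (A4_cd h)

lemma M61_cd (h : c.Sm) : ContDiff ℝ (⊤ : ℕ∞) (M61 e c) := MN_contDiff (A6_cd h) (A1_cd h)

lemma M72_cd (h : c.Sm) : ContDiff ℝ (⊤ : ℕ∞) (M72 e c) := MN_contDiff (A7_cd h) (A2_cd h)

lemma L1_cd (h : c.Sm) : ContDiff ℝ (⊤ : ℕ∞) (L1 e c) := MX_contDiff (M05_cd h) (M34_cd h)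

lemma L2_cd (h : c.Sm) : ContDiff ℝ (⊤ : ℕ∞) (L2 e c) := MX_contDiff (M61_cd h) (M72_cd h)

lemma LI_cd (h : c.Sm) : ContDiff ℝ (⊤ : ℕ∞) (LI e c) := MN_contDiff (L1_cd h) (L2_cd h)

lemma H12_cd (h : c.Sm) : ContDiff ℝ (⊤ : ℕ∞) (H12 e c) := MX_contDiff (G1_cd h) (G2_cd h)

lemma H123_cd (h : c.Sm) : ContDiff ℝ (⊤ : ℕ∞) (H123 e c) := MX_contDiff (H12_cd h) (G3_cd h)

lemma H45_cd (h : c.Sm) : ContDiff ℝ (⊤ : ℕ∞) (H45 e c) := MX_contDiff (G4_cd h) (G5_cd h)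

lemma H456_cd (h : c.Sm) : ContDiff ℝ (⊤ : ℕ∞) (H456 e c) := MX_contDiff (H45_cd h) (G6_cd h)

lemma LH_cd (h : c.Sm) : ContDiff ℝ (⊤ : ℕ∞) (LH e c) := MX_contDiff (H123_cd h) (H456_cd h)

lemma LT_cd (h : c.Sm) : ContDiff ℝ (⊤ : ℕ∞) (LT e c) := MX_contDiff (TP_cd h) (TM_cd h)

lemma LB_cd (h : c.Sm) : ContDiff ℝ (⊤ : ℕ∞) (LB e c) := MX_contDiff (LH_cd h) (LT_cd h)

lemma LL_cd (h : c.Sm) : ContDiff ℝ (⊤ : ℕ∞) (LL e c) := MX_contDiff (LB_cd h) (LI_cd h)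

lemma NP_cd (h : c.Sm) : ContDiff ℝ (⊤ : ℕ∞) (NP e c) := MN_contDiff (LA_cd h) (KP_cd h)

lemma NM_cd (h : c.Sm) : ContDiff ℝ (⊤ : ℕ∞) (NM e c) := MN_contDiff (LA_cd h) (KM_cd h)

lemma CP_cd (h : c.Sm) : ContDiff ℝ (⊤ : ℕ∞) (CP e c) := MX_contDiff (OO_cd h) (NP_cd h)

lemma CM_cd (h : c.Sm) : ContDiff ℝ (⊤ : ℕ∞) (CM e c) := MX_contDiff (OO_cd h) (NM_cd h)

lemma GH_cd (h : c.Sm) : ContDiff ℝ (⊤ : ℕ∞) (GH e c) := (CP_cd h).sub (CM_cd h)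

lemma E1_cd (h : c.Sm) (hR : ContDiff ℝ (⊤ : ℕ∞) R) : ContDiff ℝ (⊤ : ℕ∞) (E1 c R) :=
  h.2.2.sub (contDiff_const.mul hR)

lemma E2_cd (h : c.Sm) : ContDiff ℝ (⊤ : ℕ∞) (E2 e c) :=
  (((GH_cd h).sub (contDiff_const.mul h.2.2)).add (contDiff_const.mul (TP_cd h))).sub contDiff_const

lemma E12_cd (h : c.Sm) (hR : ContDiff ℝ (⊤ : ℕ∞) R) : ContDiff ℝ (⊤ : ℕ∞) (E12 e c R) :=
  MX_contDiff (E1_cd h hR) (E2_cd h)

lemma B1_cd (h : c.Sm) (hR : ContDiff ℝ (⊤ : ℕ∞) R) : ContDiff ℝ (⊤ : ℕ∞) (B1 e c R) :=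
  (E12_cd h hR).sub (contDiff_const.mul (LH_cd h))

lemma B2_cd (h : c.Sm) : ContDiff ℝ (⊤ : ℕ∞) (B2 e c) :=
  ((GH_cd h).sub (contDiff_const.mul h.2.2)).add (contDiff_const.mul (LI_cd h))

lemma GP_cd (h : c.Sm) (hR : ContDiff ℝ (⊤ : ℕ∞) R) : ContDiff ℝ (⊤ : ℕ∞) (GP e c R) :=
  MX_contDiff (B1_cd h hR) (B2_cd h)

end Smooth

section Ineq

variable {e : ℝ} {c : Co V} {p : V}

lemma M05_spec (he : 0 < e) (c : Co V) (p : V) : M05 e c p ≤ A0 e c p ∧ M05 e c p ≤ A5 e c p ∧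
    (A0 e c p - e ≤ M05 e c p ∨ A5 e c p - e ≤ M05 e c p) :=
  ⟨mn_le_left he _ _, mn_le_right he _ _, mn_cases he _ _⟩

lemma M34_spec (he : 0 < e) (c : Co V) (p : V) : M34 e c p ≤ A3 e c p ∧ M34 e c p ≤ A4 e c p ∧
    (A3 e c p - e ≤ M34 e c p ∨ A4 e c p - e ≤ M34 e c p) :=
  ⟨mn_le_left he _ _, mn_le_right he _ _, mn_cases he _ _⟩

lemma M61_spec (he : 0 < e) (c : Co V) (p : V) : M61 e c p ≤ A6 e c p ∧ M61 e c p ≤ A1 e c p ∧
    (A6 e c p - e ≤ M61 e c p ∨ A1 e c p - e ≤ M61 e c p) :=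
  ⟨mn_le_left he _ _, mn_le_right he _ _, mn_cases he _ _⟩

lemma M72_spec (he : 0 < e) (c : Co V) (p : V) : M72 e c p ≤ A7 e c p ∧ M72 e c p ≤ A2 e c p ∧
    (A7 e c p - e ≤ M72 e c p ∨ A2 e c p - e ≤ M72 e c p) :=
  ⟨mn_le_left he _ _, mn_le_right he _ _, mn_cases he _ _⟩

lemma L1_spec (he : 0 < e) (c : Co V) (p : V) : M05 e c p ≤ L1 e c p ∧ M34 e c p ≤ L1 e c p ∧
    (L1 e c p ≤ M05 e c p + e ∨ L1 e c p ≤ M34 e c p + e) :=
  ⟨le_mx_left he _ _, le_mx_right he _ _, mx_cases he _ _⟩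

lemma L2_spec (he : 0 < e) (c : Co V) (p : V) : M61 e c p ≤ L2 e c p ∧ M72 e c p ≤ L2 e c p ∧
    (L2 e c p ≤ M61 e c p + e ∨ L2 e c p ≤ M72 e c p + e) :=
  ⟨le_mx_left he _ _, le_mx_right he _ _, mx_cases he _ _⟩

lemma LI_spec (he : 0 < e) (c : Co V) (p : V) : LI e c p ≤ L1 e c p ∧ LI e c p ≤ L2 e c p ∧
    (L1 e c p - e ≤ LI e c p ∨ L2 e c p - e ≤ LI e c p) :=
  ⟨mn_le_left he _ _, mn_le_right he _ _, mn_cases he _ _⟩

lemma H12_spec (he : 0 < e) (c : Co V) (p : V) : G1 e c p ≤ H12 e c p ∧ G2 e c p ≤ H12 e c p ∧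
    (H12 e c p ≤ G1 e c p + e ∨ H12 e c p ≤ G2 e c p + e) :=
  ⟨le_mx_left he _ _, le_mx_right he _ _, mx_cases he _ _⟩

lemma H123_spec (he : 0 < e) (c : Co V) (p : V) : H12 e c p ≤ H123 e c p ∧ G3 e c p ≤ H123 e c p ∧
    (H123 e c p ≤ H12 e c p + e ∨ H123 e c p ≤ G3 e c p + e) :=
  ⟨le_mx_left he _ _, le_mx_right he _ _, mx_cases he _ _⟩

lemma H45_spec (he : 0 < e) (c : Co V) (p : V) : G4 e c p ≤ H45 e c p ∧ G5 e c p ≤ H45 e c p ∧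
    (H45 e c p ≤ G4 e c p + e ∨ H45 e c p ≤ G5 e c p + e) :=
  ⟨le_mx_left he _ _, le_mx_right he _ _, mx_cases he _ _⟩

lemma H456_spec (he : 0 < e) (c : Co V) (p : V) : H45 e c p ≤ H456 e c p ∧ G6 e c p ≤ H456 e c p ∧
    (H456 e c p ≤ H45 e c p + e ∨ H456 e c p ≤ G6 e c p + e) :=
  ⟨le_mx_left he _ _, le_mx_right he _ _, mx_cases he _ _⟩

lemma LH_spec (he : 0 < e) (c : Co V) (p : V) : H123 e c p ≤ LH e c p ∧ H456 e c p ≤ LH e c p ∧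
    (LH e c p ≤ H123 e c p + e ∨ LH e c p ≤ H456 e c p + e) :=
  ⟨le_mx_left he _ _, le_mx_right he _ _, mx_cases he _ _⟩

lemma LT_spec (he : 0 < e) (c : Co V) (p : V) : TP e c p ≤ LT e c p ∧ TM e c p ≤ LT e c p ∧
    (LT e c p ≤ TP e c p + e ∨ LT e c p ≤ TM e c p + e) :=
  ⟨le_mx_left he _ _, le_mx_right he _ _, mx_cases he _ _⟩

lemma LB_spec (he : 0 < e) (c : Co V) (p : V) : LH e c p ≤ LB e c p ∧ LT e c p ≤ LB e c p ∧
    (LB e c p ≤ LH e c p + e ∨ LB e c p ≤ LT e c p + e) :=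
  ⟨le_mx_left he _ _, le_mx_right he _ _, mx_cases he _ _⟩

lemma LL_spec (he : 0 < e) (c : Co V) (p : V) : LB e c p ≤ LL e c p ∧ LI e c p ≤ LL e c p ∧
    (LL e c p ≤ LB e c p + e ∨ LL e c p ≤ LI e c p + e) :=
  ⟨le_mx_left he _ _, le_mx_right he _ _, mx_cases he _ _⟩

lemma NP_spec (he : 0 < e) (c : Co V) (p : V) : NP e c p ≤ LA e c p ∧ NP e c p ≤ KP e c p ∧
    (LA e c p - e ≤ NP e c p ∨ KP e c p - e ≤ NP e c p) :=
  ⟨mn_le_left he _ _, mn_le_right he _ _, mn_cases he _ _⟩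

lemma NM_spec (he : 0 < e) (c : Co V) (p : V) : NM e c p ≤ LA e c p ∧ NM e c p ≤ KM e c p ∧
    (LA e c p - e ≤ NM e c p ∨ KM e c p - e ≤ NM e c p) :=
  ⟨mn_le_left he _ _, mn_le_right he _ _, mn_cases he _ _⟩

lemma CP_spec (he : 0 < e) (c : Co V) (p : V) : OO e c p ≤ CP e c p ∧ NP e c p ≤ CP e c p ∧
    (CP e c p ≤ OO e c p + e ∨ CP e c p ≤ NP e c p + e) :=
  ⟨le_mx_left he _ _, le_mx_right he _ _, mx_cases he _ _⟩

lemma CM_spec (he : 0 < e) (c : Co V) (p : V) : OO e c p ≤ CM e c p ∧ NM e c p ≤ CM e c p ∧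
    (CM e c p ≤ OO e c p + e ∨ CM e c p ≤ NM e c p + e) :=
  ⟨le_mx_left he _ _, le_mx_right he _ _, mx_cases he _ _⟩

/-- the point lies in the truncated hull -/
def InB (e : ℝ) (c : Co V) (p : V) : Prop :=
  G1 e c p ≤ 0 ∧ G2 e c p ≤ 0 ∧ G3 e c p ≤ 0 ∧ G4 e c p ≤ 0 ∧ G5 e c p ≤ 0 ∧ G6 e c p ≤ 0 ∧
    TP e c p ≤ 0 ∧ TM e c p ≤ 0

lemma LH_ge (he : 0 < e) (c : Co V) (p : V) : G1 e c p ≤ LH e c p ∧ G2 e c p ≤ LH e c p ∧
    G3 e c p ≤ LH e c p ∧ G4 e c p ≤ LH e c p ∧ G5 e c p ≤ LH e c p ∧ G6 e c p ≤ LH e c p := by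
  obtain ⟨h1, h2, -⟩ := LH_spec he c p
  obtain ⟨h3, h4, -⟩ := H123_spec he c p
  obtain ⟨h5, h6, -⟩ := H456_spec he c p
  obtain ⟨h7, h8, -⟩ := H12_spec he c p
  obtain ⟨h9, h10, -⟩ := H45_spec he c p
  refine ⟨?_, ?_, ?_, ?_, ?_, ?_⟩ <;> linarith

lemma LH_le (he : 0 < e) (c : Co V) (p : V) : LH e c p ≤ G1 e c p + 3 * e ∨
    LH e c p ≤ G2 e c p + 3 * e ∨ LH e c p ≤ G3 e c p + 3 * e ∨ LH e c p ≤ G4 e c p + 3 * e ∨
    LH e c p ≤ G5 e c p + 3 * e ∨ LH e c p ≤ G6 e c p + 3 * e := by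
  obtain ⟨-, -, h1 | h1⟩ := LH_spec he c p
  · obtain ⟨-, -, h2 | h2⟩ := H123_spec he c p
    · obtain ⟨-, -, h3 | h3⟩ := H12_spec he c p
      · left; linarith
      · right; left; linarith
    · right; right; left; linarith
  · obtain ⟨-, -, h2 | h2⟩ := H456_spec he c p
    · obtain ⟨-, -, h3 | h3⟩ := H45_spec he c p
      · right; right; right; left; linarith
      · right; right; right; right; left; linarith
    · right; right; right; right; right; linarith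

lemma inB_of_LB (he : 0 < e) (h : LB e c p ≤ 0) : InB e c p := by
  obtain ⟨h1, h2, -⟩ := LB_spec he c p
  obtain ⟨h3, h4, -⟩ := LT_spec he c p
  obtain ⟨g1, g2, g3, g4, g5, g6⟩ := LH_ge he c p
  refine ⟨?_, ?_, ?_, ?_, ?_, ?_, ?_, ?_⟩ <;> linarith

lemma inB_of_LL (he : 0 < e) (h : LL e c p = 0) : InB e c p :=
  inB_of_LB he (h ▸ (LL_spec he c p).1)

/-- lower profile of the first inner sheet -/
def Ge1 (e : ℝ) (c : Co V) (p : V) (s : ℝ) : Prop :=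
  (s ≤ A0 e c p ∧ s ≤ A5 e c p) ∨ (s ≤ A3 e c p ∧ s ≤ A4 e c p)

/-- lower profile of the second inner sheet -/
def Ge2 (e : ℝ) (c : Co V) (p : V) (s : ℝ) : Prop :=
  (s ≤ A6 e c p ∧ s ≤ A1 e c p) ∨ (s ≤ A7 e c p ∧ s ≤ A2 e c p)

/-- upper profile of the first inner sheet -/
def Le1 (e : ℝ) (c : Co V) (p : V) (s : ℝ) : Prop :=
  (A0 e c p ≤ s ∨ A5 e c p ≤ s) ∧ (A3 e c p ≤ s ∨ A4 e c p ≤ s)

/-- upper profile of the second inner sheet -/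
def Le2 (e : ℝ) (c : Co V) (p : V) (s : ℝ) : Prop :=
  (A6 e c p ≤ s ∨ A1 e c p ≤ s) ∧ (A7 e c p ≤ s ∨ A2 e c p ≤ s)

lemma ge1_of (he : 0 < e) {s : ℝ} (h : s + e ≤ L1 e c p) : Ge1 e c p s := by
  obtain ⟨-, -, h1 | h1⟩ := L1_spec he c p
  · obtain ⟨h2, h3, -⟩ := M05_spec he c p
    left; constructor <;> linarith
  · obtain ⟨h2, h3, -⟩ := M34_spec he c p
    right; constructor <;> linarith

lemma le1_of (he : 0 < e) {s : ℝ} (h : L1 e c p + e ≤ s) : Le1 e c p s := by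
  obtain ⟨h1, h2, -⟩ := L1_spec he c p
  constructor
  · obtain ⟨-, -, h3 | h3⟩ := M05_spec he c p
    · left; linarith
    · right; linarith
  · obtain ⟨-, -, h3 | h3⟩ := M34_spec he c p
    · left; linarith
    · right; linarith

lemma ge2_of (he : 0 < e) {s : ℝ} (h : s + e ≤ L2 e c p) : Ge2 e c p s := by
  obtain ⟨-, -, h1 | h1⟩ := L2_spec he c p
  · obtain ⟨h2, h3, -⟩ := M61_spec he c p
    left; constructor <;> linarith
  · obtain ⟨h2, h3, -⟩ := M72_spec he c p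
    right; constructor <;> linarith

lemma le2_of (he : 0 < e) {s : ℝ} (h : L2 e c p + e ≤ s) : Le2 e c p s := by
  obtain ⟨h1, h2, -⟩ := L2_spec he c p
  constructor
  · obtain ⟨-, -, h3 | h3⟩ := M61_spec he c p
    · left; linarith
    · right; linarith
  · obtain ⟨-, -, h3 | h3⟩ := M72_spec he c p
    · left; linarith
    · right; linarith

end Ineq

end Pool.Agent.Lib.MP_d88725_gt
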