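import Pool.Agent.Lib.MP_d88725_gt.Poly

set_option autoImplicit false
set_option linter.unusedVariables false

namespace Pool.Agent.Lib.MP_d88725_gt

open Set

/-- value of an integer affine functional at a vertex -/
def evz (n : ℤ × ℤ × ℤ × ℤ) (i : Fin 7) : ℤ :=
  n.1 * vc i 0 + n.2.1 * vc i 1 + n.2.2.1 * vc i 2 + n.2.2.2

/-- the same functional on points -/
def evr (n : ℤ × ℤ × ℤ × ℤ) (x : E3) : ℝ :=
  n.1 * x 0 + n.2.1 * x 1 + n.2.2.1 * x 2 + n.2.2.2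

lemma evr_vv (n : ℤ × ℤ × ℤ × ℤ) (i : Fin 7) : evr n (vv i) = evz n i := by
  simp [evr, evz, vv]

lemma evr_eq (n : ℤ × ℤ × ℤ × ℤ) (x : E3) : evr n x = lin3 n.1 n.2.1 n.2.2.1 x + n.2.2.2 := rfl

lemma evr_sum {ι : Type*} (n : ℤ × ℤ × ℤ × ℤ) (s : Finset ι) (w : ι → ℝ) (z : ι → E3) :
    ∑ i ∈ s, w i * evr n (z i) =
      lin3 n.1 n.2.1 n.2.2.1 (∑ i ∈ s, w i • z i) + (∑ i ∈ s, w i) * n.2.2.2 := by
  simp only [evr_eq, map_sum, map_smul, smul_eq_mul, mul_add, Finset.sum_add_distrib,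
    Finset.sum_mul]

lemma hull_weights {σ : Finset (Fin 7)} {x : E3} (h : x ∈ convexHull ℝ (vv '' (σ : Set (Fin 7)))) :
    ∃ w : Fin 7 → ℝ, (∀ i, 0 ≤ w i) ∧ ∑ i ∈ σ, w i = 1 ∧ ∑ i ∈ σ, w i • vv i = x := by
  refine convexHull_min (t := {x : E3 | ∃ w : Fin 7 → ℝ, (∀ i, 0 ≤ w i) ∧ ∑ i ∈ σ, w i = 1 ∧
    ∑ i ∈ σ, w i • vv i = x}) ?_ ?_ h
  · rintro _ ⟨i, hi, rfl⟩
    have hi' : i ∈ σ := hi
    refine ⟨Pi.single i 1, fun j => ?_, ?_, ?_⟩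
    · by_cases k : j = i <;> simp [k]
    · simp [Finset.sum_pi_single', hi']
    · rw [Finset.sum_eq_single i (fun j _ k => by simp [k]) (fun k => absurd hi' k)]; simp
  · rintro x ⟨w, h1, h2, h3⟩ y ⟨u, k1, k2, k3⟩ a b ha hb hab
    refine ⟨fun i => a * w i + b * u i, fun i => add_nonneg (mul_nonneg ha (h1 i))
      (mul_nonneg hb (k1 i)), ?_, ?_⟩
    · rw [Finset.sum_add_distrib, ← Finset.mul_sum, ← Finset.mul_sum, h2, k2]; linarith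
    · rw [← h3, ← k3, Finset.smul_sum, Finset.smul_sum, ← Finset.sum_add_distrib]
      refine Finset.sum_congr rfl fun i _ => ?_
      rw [add_smul, mul_smul, mul_smul]

lemma sep_hull {σ τ : Finset (Fin 7)} (n : ℤ × ℤ × ℤ × ℤ) (h1 : ∀ i ∈ σ, 0 ≤ evz n i)
    (h2 : ∀ i ∈ τ, evz n i ≤ 0) (h3 : ∀ i ∈ σ, i ∉ τ → 0 < evz n i) :
    convexHull ℝ (vv '' (σ : Set (Fin 7))) ∩ convexHull ℝ (vv '' (τ : Set (Fin 7))) =
      convexHull ℝ (vv '' ((σ ∩ τ : Finset (Fin 7)) : Set (Fin 7))) := by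
  apply Subset.antisymm
  · rintro x ⟨hx, hy⟩
    obtain ⟨w, w0, w1, w2⟩ := hull_weights hx
    obtain ⟨u, u0, u1, u2⟩ := hull_weights hy
    have e1 := evr_sum n σ w vv
    have e2 := evr_sum n τ u vv
    rw [w1, w2] at e1
    rw [u1, u2] at e2
    have t1 : ∀ i ∈ σ, 0 ≤ w i * evr n (vv i) := fun i hi =>
      mul_nonneg (w0 i) (by rw [evr_vv]; exact_mod_cast h1 i hi)
    have t2 : ∑ i ∈ τ, u i * evr n (vv i) ≤ 0 := Finset.sum_nonpos fun i hi =>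
      mul_nonpos_of_nonneg_of_nonpos (u0 i) (by rw [evr_vv]; exact_mod_cast h2 i hi)
    have t3 : ∑ i ∈ σ, w i * evr n (vv i) = 0 :=
      le_antisymm (by linarith) (Finset.sum_nonneg t1)
    have t4 : ∀ i ∈ σ, i ∉ σ ∩ τ → w i = 0 := by
      intro i hi k
      have k1 := (Finset.sum_eq_zero_iff_of_nonneg t1).1 t3 i hi
      have k2 : 0 < evr n (vv i) := by
        rw [evr_vv]; exact_mod_cast h3 i hi fun k' => k (Finset.mem_inter.2 ⟨hi, k'⟩)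
      exact (mul_eq_zero.1 k1).resolve_right k2.ne'
    rw [← w2, ← Finset.sum_subset (Finset.inter_subset_left (s₂ := τ))
      (fun i hi k => by rw [t4 i hi k, zero_smul])]
    refine (convex_convexHull ℝ _).sum_mem (fun i _ => w0 i) ?_
      fun i hi => subset_convexHull _ _ ⟨i, hi, rfl⟩
    rw [Finset.sum_subset (Finset.inter_subset_left (s₂ := τ)) t4, w1]
  · exact subset_inter
      (convexHull_mono (image_mono (Finset.coe_subset.2 Finset.inter_subset_left)))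
      (convexHull_mono (image_mono (Finset.coe_subset.2 Finset.inter_subset_right)))

lemma indep_of {σ : Finset (Fin 7)} (n : Fin 7 → ℤ × ℤ × ℤ × ℤ)
    (h1 : ∀ i ∈ σ, evz (n i) i ≠ 0) (h2 : ∀ i ∈ σ, ∀ j ∈ σ, j ≠ i → evz (n i) j = 0) :
    AffineIndependent ℝ (fun k : (σ : Set (Fin 7)) => vv k) := by
  rw [affineIndependent_iff]
  intro s w hw hs i hi
  have e1 := evr_sum (n i) s w (fun k : (σ : Set (Fin 7)) => vv k)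
  rw [hw, hs, map_zero, zero_mul, add_zero, Finset.sum_eq_single i
    (fun j _ k => by
      rw [evr_vv, h2 i i.2 j j.2 fun k' => k (Subtype.ext k')]; simp)
    (fun k => absurd hi k), evr_vv] at e1
  exact (mul_eq_zero.1 e1).resolve_right (by exact_mod_cast h1 i i.2)

/-- separating functionals for pairs of faces -/
def sepc : Fin 14 → Fin 14 → ℤ × ℤ × ℤ × ℤ :=
  ![
    ![(0, 0, 0, 0), (-2, 5, -11, 12), (-4, -2, -5, 5), (-2, -5, 4, 5), (2, -13, 5, 2), (2, -3, -3, 4), (6, 5, 15, 6), (2, 1, 7, 2), (-2, 4, -5, 5), (-6, 5, -15, 24), (-2, -5, 4, 5), (2, -13, 5, 2), (2, -3, -1, 2), (2, 3, 3, 4)],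
    ![(2, -2, 5, -3), (0, 0, 0, 0), (-3, -4, 12, 12), (0, -1, 1, 0), (0, -1, 1, 0), (2, -3, -2, 3), (2, -5, 25, 2), (2, -5, 25, 2), (2, -5, 5, -6), (-6, -8, 13, 13), (0, -1, 2, 1), (0, -1, 1, 0), (2, -3, -1, 2), (3, 4, 5, 5)],
    ![(5, -3, 9, -9), (0, 1, -2, 1), (0, 0, 0, 0), (1, 0, 0, -3), (4, -2, -5, -5), (3, -4, -4, 4), (2, 3, 0, 1), (4, 2, 5, -5), (1, 0, 0, -3), (-3, 4, -12, 12), (6, -8, 13, -13), (5, 3, -9, -9), (4, -5, -5, 4), (2, 3, 0, 1)],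
    ![(2, 13, -5, 2), (-2, 6, -13, 13), (-2, -1, 3, 8), (0, 0, 0, 0), (2, -1, -7, 2), (2, -3, -3, 4), (2, 3, 0, 1), (2, 13, -5, 2), (-1, 3, -3, 3), (-2, 1, -3, 8), (-2, -5, 11, 12), (2, -3, -5, 2), (6, -5, -15, 6), (2, 3, 0, 1)],
    ![(1, 2, 2, 1), (-2, 5, -4, 5), (-3, -4, 12, 12), (-6, 5, 15, -2), (0, 0, 0, 0), (2, -3, -3, 4), (4, 5, 5, 4), (1, 2, 2, 1), (-2, 5, -4, 5), (-4, 2, 5, 5), (-2, -6, 13, 13), (-2, 3, 5, -2), (2, -3, -1, 2), (2, 3, 3, 4)],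
    ![(-1, 2, 1, -1), (-2, 5, 1, 0), (-4, 3, 3, 4), (-2, 3, 5, -2), (-4, 5, 5, -4), (0, 0, 0, 0), (-2, 3, 5, -2), (-2, 3, 3, -2), (-2, 5, 1, 0), (-4, 3, 3, 4), (-1, -2, 5, 5), (-2, 3, 5, -2), (-2, 3, 1, -2), (1, 2, 2, 2)],
    ![(-2, -3, -5, -2), (-1, 2, -5, 5), (-3, -2, -3, 3), (-3, -7, 6, 7), (2, 3, -19, 2), (2, -3, -3, 4), (0, 0, 0, 0), (-2, -1, -7, -2), (-6, -5, -15, -2), (-1, -1, 0, 1), (-3, -7, 6, 7), (2, -3, -5, 2), (2, 3, -19, 2), (2, 3, 3, 4)],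
    ![(-2, -3, -5, -2), (-2, 6, -13, 13), (-4, -2, -5, 5), (-2, -5, 4, 5), (1, -2, -2, 1), (2, -3, -3, 4), (2, 3, 1, 2), (0, 0, 0, 0), (-6, -5, -15, -2), (-3, 4, -12, 12), (-2, -5, 4, 5), (1, -2, -2, 1), (4, -5, -5, 4), (2, 3, 3, 4)],
    ![(2, 3, 5, 2), (-2, 5, -11, 12), (-2, -1, 3, 8), (-1, -3, 3, 3), (2, -13, 5, 2), (2, -3, -2, 3), (6, 5, 15, 6), (2, 1, 7, 2), (0, 0, 0, 0), (-2, 1, -3, 8), (-2, -6, 13, 13), (2, -13, 5, 2), (2, -3, -1, 2), (2, 3, 3, 4)],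
    ![(5, -3, 9, -9), (6, 8, -13, -13), (-3, -4, 12, 12), (1, 0, 0, -3), (4, -2, -5, -5), (2, -3, -2, 3), (4, 5, 5, 4), (4, 2, 5, -5), (1, 0, 0, -3), (0, 0, 0, 0), (0, -1, 2, 1), (5, 3, -9, -9), (2, -3, -1, 2), (3, 4, 4, 4)],
    ![(0, 1, -1, 0), (0, 1, -2, 1), (-6, 8, -13, 13), (2, 5, -5, -6), (2, 5, -25, 2), (3, -4, -5, 5), (2, 3, 0, 1), (0, 1, -1, 0), (0, 1, -1, 0), (-3, 4, -12, 12), (0, 0, 0, 0), (2, 2, -5, -3), (2, 5, -25, 2), (2, 3, 0, 1)],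
    ![(2, 13, -5, 2), (-2, 5, -4, 5), (-6, -5, 15, 24), (-2, -4, 5, 5), (2, -1, -7, 2), (2, -3, -3, 4), (2, 3, 1, 2), (2, 13, -5, 2), (-2, 5, -4, 5), (-4, 2, 5, 5), (-2, -5, 11, 12), (0, 0, 0, 0), (6, -5, -15, 6), (2, 3, 3, 4)],
    ![(2, 3, 5, 2), (-3, 7, -6, 7), (-1, 1, 0, 1), (-6, 5, 15, -2), (-2, 1, 7, -2), (2, -3, -3, 4), (2, -3, 19, 2), (2, -3, 19, 2), (-3, 7, -6, 7), (-3, 2, 3, 3), (-1, -2, 5, 5), (-2, 3, 5, -2), (0, 0, 0, 0), (2, 3, 3, 4)],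
    ![(-2, -3, -5, -2), (-1, 2, -5, 5), (-4, -3, -3, 4), (-2, -5, 4, 5), (-2, -3, -3, -2), (1, -2, -2, 2), (-2, -3, -1, -2), (-4, -5, -5, -4), (-2, -3, -5, -2), (-4, -3, -3, 4), (-2, -5, 4, 5), (-1, -2, -1, -1), (-2, -3, -5, -2), (0, 0, 0, 0)]]

/-- barycentric functionals of the faces -/
def indc : Fin 14 → Fin 7 → ℤ × ℤ × ℤ × ℤ :=
  ![
    ![(-2, -1, -5, 0), (2, 1, 7, 2), (0, 0, 0, 0), (1, 1, 2, 1), (0, 0, 0, 0), (0, 0, 0, 0), (0, 0, 0, 0)],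
    ![(0, 0, 0, 0), (-2, 1, -3, 8), (0, 0, -1, 1), (0, 0, 0, 0), (2, -3, 9, -8), (0, 0, 0, 0), (0, 0, 0, 0)],
    ![(0, 0, 0, 0), (0, 0, 0, 0), (2, -1, 1, -6), (-2, 1, -3, 8), (0, 0, 0, 0), (2, 1, -1, -6), (0, 0, 0, 0)],
    ![(0, 0, 0, 0), (0, 0, 0, 0), (0, 0, 0, 0), (2, 3, -5, -4), (0, 0, 1, 1), (0, 0, 0, 0), (-2, -1, 1, 6)],
    ![(-2, 1, 5, 0), (0, 0, 0, 0), (0, 0, 0, 0), (0, 0, 0, 0), (1, -1, -2, 1), (-2, 3, 5, -2), (0, 0, 0, 0)],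
    ![(0, 0, 0, 0), (-1, 1, 2, -1), (0, 0, 0, 0), (0, 0, 0, 0), (0, 0, 0, 0), (0, 1, 1, 0), (-2, 3, 1, -2)],
    ![(2, 3, 3, 4), (0, 0, 0, 0), (0, -1, -1, 0), (0, 0, 0, 0), (0, 0, 0, 0), (0, 0, 0, 0), (-1, -1, -2, -1)],
    ![(-2, -1, -5, 0), (0, 0, 0, 0), (-2, -3, -5, -2), (1, 1, 2, 1), (0, 0, 0, 0), (0, 0, 0, 0), (0, 0, 0, 0)],
    ![(0, 0, 0, 0), (-2, 1, -1, 6), (0, 0, 0, 0), (0, 0, -1, 1), (2, -3, 5, -4), (0, 0, 0, 0), (0, 0, 0, 0)],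
    ![(0, 0, 0, 0), (0, 0, 0, 0), (2, -1, 1, -6), (0, 0, 0, 0), (-2, -1, 3, 8), (2, 1, -1, -6), (0, 0, 0, 0)],
    ![(0, 0, 0, 0), (0, 0, 0, 0), (0, 0, 0, 0), (2, 3, -9, -8), (0, 0, 0, 0), (0, 0, 1, 1), (-2, -1, 3, 8)],
    ![(-2, 1, 5, 0), (0, 0, 0, 0), (0, 0, 0, 0), (0, 0, 0, 0), (1, -1, -2, 1), (0, 0, 0, 0), (2, -1, -7, 2)],
    ![(2, -3, -3, 4), (-1, 1, 2, -1), (0, 0, 0, 0), (0, 0, 0, 0), (0, 0, 0, 0), (0, 1, 1, 0), (0, 0, 0, 0)],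
    ![(0, 0, 0, 0), (-2, -3, -1, -2), (0, -1, -1, 0), (0, 0, 0, 0), (0, 0, 0, 0), (0, 0, 0, 0), (-1, -1, -2, -1)]]

lemma sepc_ok : ∀ k l : Fin 14, (∀ i ∈ fc k, 0 ≤ evz (sepc k l) i) ∧
    (∀ i ∈ fc l, evz (sepc k l) i ≤ 0) ∧ ∀ i ∈ fc k, i ∉ fc l → 0 < evz (sepc k l) i := by
  decide +kernel

lemma indc_ok : ∀ k : Fin 14, (∀ i ∈ fc k, evz (indc k i) i ≠ 0) ∧
    ∀ i ∈ fc k, ∀ j ∈ fc k, j ≠ i → evz (indc k i) j = 0 := by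
  decide +kernel

lemma faces_eq : range (fun i : Fin 7 => ({i, i + 1, i + 3} : Finset (Fin 7))) ∪
    range (fun i : Fin 7 => ({i, i + 2, i + 3} : Finset (Fin 7))) = range fc := by
  have h1 : ∀ i : Fin 7, ∃ k, fc k = {i, i + 1, i + 3} := by decide +kernel
  have h2 : ∀ i : Fin 7, ∃ k, fc k = {i, i + 2, i + 3} := by decide +kernel
  have h3 : ∀ k, (∃ i : Fin 7, {i, i + 1, i + 3} = fc k) ∨ ∃ i : Fin 7, {i, i + 2, i + 3} = fc k := by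
    decide +kernel
  ext σ
  constructor
  · rintro (⟨i, rfl⟩ | ⟨i, rfl⟩)
    · exact h1 i
    · exact h2 i
  · rintro ⟨k, rfl⟩
    exact h3 k

theorem faces_indep (k : Fin 14) : AffineIndependent ℝ (fun i : (fc k : Set (Fin 7)) => vv i) :=
  indep_of (indc k) (indc_ok k).1 (indc_ok k).2

theorem faces_inter (k l : Fin 14) :
    convexHull ℝ (vv '' (fc k : Set (Fin 7))) ∩ convexHull ℝ (vv '' (fc l : Set (Fin 7))) =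
      convexHull ℝ (vv '' ((fc k ∩ fc l : Finset (Fin 7)) : Set (Fin 7))) :=
  sep_hull (sepc k l) (sepc_ok k l).1 (sepc_ok k l).2.1 (sepc_ok k l).2.2

end Pool.Agent.Lib.MP_d88725_gt
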