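import Pool.Agent.Lib.MP_d88725_gt.Defs

set_option autoImplicit false
set_option linter.unusedVariables false
set_option linter.unusedSimpArgs false

namespace Pool.Agent.Lib.MP_d88725_gt

variable {V : Type*} {e : ℝ} {c : Co V} {p : V}

lemma F1 (he : 0 < e) (he0 : e ≤ 1 / 10000000) (hB : InB e c p)
    (h0 : Ge1 e c p (-3 * e))
    (h1 : Ge2 e c p (-3 * e))
    (h2 : -8 * e ≤ G1 e c p ∨ -8 * e ≤ G2 e c p ∨ -8 * e ≤ G3 e c p ∨ -8 * e ≤ G4 e c p ∨ -8 * e ≤ G5 e c p ∨ -8 * e ≤ G6 e c p) :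
    False := by
  simp only [InB, Ge1, Ge2, Le1, Le2, A0, A1, A2, A3, A4, A5, A6, A7, G1, G2, G3, G4, G5, G6, TP, TM, LA, KP, KM, lf] at *
  obtain ⟨g1, g2, g3, g4, g5, g6, g7, g8⟩ := hB
  rcases h0 with ⟨k1, k2⟩ | ⟨k3, k4⟩ <;> rcases h1 with ⟨k5, k6⟩ | ⟨k7, k8⟩ <;> rcases h2 with k9 | k10 | k11 | k12 | k13 | k14 <;> linarith

lemma G5_6 (he : 0 < e) (he0 : e ≤ 1 / 10000000) (hB : InB e c p)
    (h0 : -5 * e ≤ TP e c p)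
    (h1 : -6 * e ≤ A6 e c p)
    (h2 : -6 * e ≤ A1 e c p)
    (h3 : Ge1 e c p (-5 * e))
    (h4 : A7 e c p ≤ 3 * e ∨ A2 e c p ≤ 3 * e) :
    False := by
  simp only [InB, Ge1, Ge2, Le1, Le2, A0, A1, A2, A3, A4, A5, A6, A7, G1, G2, G3, G4, G5, G6, TP, TM, LA, KP, KM, lf] at *
  obtain ⟨g1, g2, g3, g4, g5, g6, g7, g8⟩ := hB
  rcases h3 with ⟨k1, k2⟩ | ⟨k3, k4⟩ <;> rcases h4 with k5 | k6 <;> linarith

lemma G5_4 (he : 0 < e) (he0 : e ≤ 1 / 10000000) (hB : InB e c p)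
    (h0 : -5 * e ≤ TP e c p)
    (h1 : -6 * e ≤ A4 e c p) :
    False := by
  simp only [InB, Ge1, Ge2, Le1, Le2, A0, A1, A2, A3, A4, A5, A6, A7, G1, G2, G3, G4, G5, G6, TP, TM, LA, KP, KM, lf] at *
  obtain ⟨g1, g2, g3, g4, g5, g6, g7, g8⟩ := hB
  linarith

lemma G5_0 (he : 0 < e) (he0 : e ≤ 1 / 10000000) (hB : InB e c p)
    (h0 : -5 * e ≤ TM e c p)
    (h1 : -6 * e ≤ A0 e c p)
    (h2 : -6 * e ≤ A5 e c p)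
    (h3 : Ge2 e c p (-5 * e))
    (h4 : A3 e c p ≤ 3 * e ∨ A4 e c p ≤ 3 * e) :
    False := by
  simp only [InB, Ge1, Ge2, Le1, Le2, A0, A1, A2, A3, A4, A5, A6, A7, G1, G2, G3, G4, G5, G6, TP, TM, LA, KP, KM, lf] at *
  obtain ⟨g1, g2, g3, g4, g5, g6, g7, g8⟩ := hB
  rcases h3 with ⟨k1, k2⟩ | ⟨k3, k4⟩ <;> rcases h4 with k5 | k6 <;> linarith

lemma G5_2 (he : 0 < e) (he0 : e ≤ 1 / 10000000) (hB : InB e c p)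
    (h0 : -5 * e ≤ TM e c p)
    (h1 : -6 * e ≤ A2 e c p) :
    False := by
  simp only [InB, Ge1, Ge2, Le1, Le2, A0, A1, A2, A3, A4, A5, A6, A7, G1, G2, G3, G4, G5, G6, TP, TM, LA, KP, KM, lf] at *
  obtain ⟨g1, g2, g3, g4, g5, g6, g7, g8⟩ := hB
  linarith

lemma F3 (he : 0 < e) (he0 : e ≤ 1 / 10000000) (hB : InB e c p)
    (h0 : -4 * e ≤ A0 e c p)
    (h1 : -4 * e ≤ A1 e c p)
    (h2 : -4 * e ≤ A2 e c p)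
    (h3 : -4 * e ≤ A3 e c p)
    (h4 : -4 * e ≤ A4 e c p)
    (h5 : -4 * e ≤ A5 e c p)
    (h6 : -4 * e ≤ A6 e c p)
    (h7 : -4 * e ≤ A7 e c p)
    (h8 : Le1 e c p (3 * e))
    (h9 : Le2 e c p (3 * e)) :
    False := by
  simp only [InB, Ge1, Ge2, Le1, Le2, A0, A1, A2, A3, A4, A5, A6, A7, G1, G2, G3, G4, G5, G6, TP, TM, LA, KP, KM, lf] at *
  obtain ⟨g1, g2, g3, g4, g5, g6, g7, g8⟩ := hB
  rcases h8 with ⟨k1 | k2, k3 | k4⟩ <;> rcases h9 with ⟨k5 | k6, k7 | k8⟩ <;> linarith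

lemma F4a05 (he : 0 < e) (he0 : e ≤ 1 / 10000000) (hB : InB e c p)
    (h0 : -4 * e ≤ A0 e c p)
    (h1 : A0 e c p ≤ 4 * e)
    (h2 : -4 * e ≤ A5 e c p)
    (h3 : A5 e c p ≤ 4 * e)
    (h4 : A3 e c p ≤ 3 * e ∨ A4 e c p ≤ 3 * e)
    (h5 : Ge2 e c p (-3 * e))
    (h6 : Le2 e c p (3 * e)) :
    False := by
  simp only [InB, Ge1, Ge2, Le1, Le2, A0, A1, A2, A3, A4, A5, A6, A7, G1, G2, G3, G4, G5, G6, TP, TM, LA, KP, KM, lf] at *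
  obtain ⟨g1, g2, g3, g4, g5, g6, g7, g8⟩ := hB
  rcases h4 with k1 | k2 <;> rcases h5 with ⟨k3, k4⟩ | ⟨k5, k6⟩ <;> rcases h6 with ⟨k7 | k8, k9 | k10⟩ <;> linarith

lemma F4a34 (he : 0 < e) (he0 : e ≤ 1 / 10000000) (hB : InB e c p)
    (h0 : -4 * e ≤ A3 e c p)
    (h1 : A3 e c p ≤ 4 * e)
    (h2 : -4 * e ≤ A4 e c p)
    (h3 : A4 e c p ≤ 4 * e)
    (h4 : A0 e c p ≤ 3 * e ∨ A5 e c p ≤ 3 * e)
    (h5 : Ge2 e c p (-3 * e))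
    (h6 : Le2 e c p (3 * e)) :
    False := by
  simp only [InB, Ge1, Ge2, Le1, Le2, A0, A1, A2, A3, A4, A5, A6, A7, G1, G2, G3, G4, G5, G6, TP, TM, LA, KP, KM, lf] at *
  obtain ⟨g1, g2, g3, g4, g5, g6, g7, g8⟩ := hB
  rcases h4 with k1 | k2 <;> rcases h5 with ⟨k3, k4⟩ | ⟨k5, k6⟩ <;> rcases h6 with ⟨k7 | k8, k9 | k10⟩ <;> linarith

lemma F4a61 (he : 0 < e) (he0 : e ≤ 1 / 10000000) (hB : InB e c p)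
    (h0 : -4 * e ≤ A6 e c p)
    (h1 : A6 e c p ≤ 4 * e)
    (h2 : -4 * e ≤ A1 e c p)
    (h3 : A1 e c p ≤ 4 * e)
    (h4 : A7 e c p ≤ 3 * e ∨ A2 e c p ≤ 3 * e)
    (h5 : Ge1 e c p (-3 * e))
    (h6 : Le1 e c p (3 * e)) :
    False := by
  simp only [InB, Ge1, Ge2, Le1, Le2, A0, A1, A2, A3, A4, A5, A6, A7, G1, G2, G3, G4, G5, G6, TP, TM, LA, KP, KM, lf] at *
  obtain ⟨g1, g2, g3, g4, g5, g6, g7, g8⟩ := hB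
  rcases h4 with k1 | k2 <;> rcases h5 with ⟨k3, k4⟩ | ⟨k5, k6⟩ <;> rcases h6 with ⟨k7 | k8, k9 | k10⟩ <;> linarith

lemma F4a72 (he : 0 < e) (he0 : e ≤ 1 / 10000000) (hB : InB e c p)
    (h0 : -4 * e ≤ A7 e c p)
    (h1 : A7 e c p ≤ 4 * e)
    (h2 : -4 * e ≤ A2 e c p)
    (h3 : A2 e c p ≤ 4 * e)
    (h4 : A6 e c p ≤ 3 * e ∨ A1 e c p ≤ 3 * e)
    (h5 : Ge1 e c p (-3 * e))
    (h6 : Le1 e c p (3 * e)) :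
    False := by
  simp only [InB, Ge1, Ge2, Le1, Le2, A0, A1, A2, A3, A4, A5, A6, A7, G1, G2, G3, G4, G5, G6, TP, TM, LA, KP, KM, lf] at *
  obtain ⟨g1, g2, g3, g4, g5, g6, g7, g8⟩ := hB
  rcases h4 with k1 | k2 <;> rcases h5 with ⟨k3, k4⟩ | ⟨k5, k6⟩ <;> rcases h6 with ⟨k7 | k8, k9 | k10⟩ <;> linarith

lemma F4b1 (he : 0 < e) (he0 : e ≤ 1 / 10000000) (hB : InB e c p)
    (h0 : -4 * e ≤ A0 e c p)
    (h1 : A0 e c p ≤ 4 * e)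
    (h2 : -4 * e ≤ A5 e c p)
    (h3 : A5 e c p ≤ 4 * e)
    (h4 : -4 * e ≤ A3 e c p)
    (h5 : A3 e c p ≤ 4 * e)
    (h6 : -4 * e ≤ A4 e c p)
    (h7 : A4 e c p ≤ 4 * e) :
    False := by
  simp only [InB, Ge1, Ge2, Le1, Le2, A0, A1, A2, A3, A4, A5, A6, A7, G1, G2, G3, G4, G5, G6, TP, TM, LA, KP, KM, lf] at *
  obtain ⟨g1, g2, g3, g4, g5, g6, g7, g8⟩ := hB
  linarith

lemma F4b2 (he : 0 < e) (he0 : e ≤ 1 / 10000000) (hB : InB e c p)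
    (h0 : -4 * e ≤ A6 e c p)
    (h1 : A6 e c p ≤ 4 * e)
    (h2 : -4 * e ≤ A1 e c p)
    (h3 : A1 e c p ≤ 4 * e)
    (h4 : -4 * e ≤ A7 e c p)
    (h5 : A7 e c p ≤ 4 * e)
    (h6 : -4 * e ≤ A2 e c p)
    (h7 : A2 e c p ≤ 4 * e) :
    False := by
  simp only [InB, Ge1, Ge2, Le1, Le2, A0, A1, A2, A3, A4, A5, A6, A7, G1, G2, G3, G4, G5, G6, TP, TM, LA, KP, KM, lf] at *
  obtain ⟨g1, g2, g3, g4, g5, g6, g7, g8⟩ := hB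
  linarith

lemma G3f (he : 0 < e) (he0 : e ≤ 1 / 10000000) (hB : InB e c p)
    (h0 : -4 * e ≤ A2 e c p)
    (h1 : A2 e c p ≤ 4 * e)
    (h2 : -4 * e ≤ A7 e c p)
    (h3 : A6 e c p ≤ 3 * e ∨ A1 e c p ≤ 3 * e) :
    2 * e < LA e c p ∧ LA e c p + e < KP e c p := by
  simp only [InB, Ge1, Ge2, Le1, Le2, A0, A1, A2, A3, A4, A5, A6, A7, G1, G2, G3, G4, G5, G6, TP, TM, LA, KP, KM, lf] at *
  obtain ⟨g1, g2, g3, g4, g5, g6, g7, g8⟩ := hB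
  rcases h3 with k1 | k2 <;> constructor <;> linarith

lemma G4f (he : 0 < e) (he0 : e ≤ 1 / 10000000) (hB : InB e c p)
    (h0 : -4 * e ≤ A4 e c p)
    (h1 : A4 e c p ≤ 4 * e)
    (h2 : -4 * e ≤ A3 e c p)
    (h3 : A0 e c p ≤ 3 * e ∨ A5 e c p ≤ 3 * e) :
    2 * e < LA e c p ∧ LA e c p + e < KM e c p := by
  simp only [InB, Ge1, Ge2, Le1, Le2, A0, A1, A2, A3, A4, A5, A6, A7, G1, G2, G3, G4, G5, G6, TP, TM, LA, KP, KM, lf] at *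
  obtain ⟨g1, g2, g3, g4, g5, g6, g7, g8⟩ := hB
  rcases h3 with k1 | k2 <;> constructor <;> linarith

lemma G0 (he : 0 < e) (he0 : e ≤ 1 / 10000000) (hB : InB e c p)
    (h0 : -(1 / 8) ≤ c.X p)
    (h1 : c.X p ≤ 1 / 8)
    (h2 : -(1 / 8) ≤ c.Y p)
    (h3 : c.Y p ≤ 1 / 8)
    (h4 : Le1 e c p (3 * e) ∨ Le2 e c p (3 * e)) :
    False := by
  simp only [InB, Ge1, Ge2, Le1, Le2, A0, A1, A2, A3, A4, A5, A6, A7, G1, G2, G3, G4, G5, G6, TP, TM, LA, KP, KM, lf] at *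
  obtain ⟨g1, g2, g3, g4, g5, g6, g7, g8⟩ := hB
  rcases h4 with ⟨k1 | k2, k3 | k4⟩ | ⟨k5 | k6, k7 | k8⟩ <;> linarith

lemma G1a {H : ℝ} (he : 0 < e) (he0 : e ≤ 1 / 10000000) (hB : InB e c p)
    (h0 : G1 e c p ≤ H)
    (h1 : G2 e c p ≤ H)
    (h2 : G3 e c p ≤ H)
    (h3 : G4 e c p ≤ H)
    (h4 : G5 e c p ≤ H)
    (h5 : G6 e c p ≤ H)
    (h6 : -(1 / 10) ≤ c.Z p)
    (h7 : Ge1 e c p (-3 * e))
    (h8 : Ge2 e c p (-3 * e))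
    (h9 : Le1 e c p (2 * e) ∨ Le2 e c p (2 * e)) :
    2500 * TP e c p - 6 * H + (40002 - 50000) * e < 0 := by
  simp only [InB, Ge1, Ge2, Le1, Le2, A0, A1, A2, A3, A4, A5, A6, A7, G1, G2, G3, G4, G5, G6, TP, TM, LA, KP, KM, lf] at *
  obtain ⟨g1, g2, g3, g4, g5, g6, g7, g8⟩ := hB
  rcases h7 with ⟨k1, k2⟩ | ⟨k3, k4⟩ <;> rcases h8 with ⟨k5, k6⟩ | ⟨k7, k8⟩ <;> rcases h9 with ⟨k9 | k10, k11 | k12⟩ | ⟨k13 | k14, k15 | k16⟩ <;> linarith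

lemma G2f (he : 0 < e) (he0 : e ≤ 1 / 10000000) (hB : InB e c p)
    (h0 : -(1 / 10) ≤ c.Z p)
    (h1 : -7 * e ≤ G1 e c p ∨ -7 * e ≤ G2 e c p ∨ -7 * e ≤ G3 e c p ∨ -7 * e ≤ G4 e c p ∨ -7 * e ≤ G5 e c p ∨ -7 * e ≤ G6 e c p)
    (h2 : Ge1 e c p ((2500 * TP e c p - 70001 * e) / 20000))
    (h3 : Ge2 e c p ((2500 * TP e c p - 70001 * e) / 20000)) :
    False := by
  simp only [InB, Ge1, Ge2, Le1, Le2, A0, A1, A2, A3, A4, A5, A6, A7, G1, G2, G3, G4, G5, G6, TP, TM, LA, KP, KM, lf] at *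
  obtain ⟨g1, g2, g3, g4, g5, g6, g7, g8⟩ := hB
  rcases h1 with k1 | k2 | k3 | k4 | k5 | k6 <;> rcases h2 with ⟨k7, k8⟩ | ⟨k9, k10⟩ <;> rcases h3 with ⟨k11, k12⟩ | ⟨k13, k14⟩ <;> linarith

lemma box (he : 0 < e) (he0 : e ≤ 1 / 10000000) (hB : InB e c p) :
    -2 ≤ c.X p ∧ c.X p ≤ 4 ∧ -3 ≤ c.Y p ∧ c.Y p ≤ 3 ∧ -1 ≤ c.Z p ∧ c.Z p ≤ 1 := by
  simp only [InB, Ge1, Ge2, Le1, Le2, A0, A1, A2, A3, A4, A5, A6, A7, G1, G2, G3, G4, G5, G6, TP, TM, LA, KP, KM, lf] at *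
  obtain ⟨g1, g2, g3, g4, g5, g6, g7, g8⟩ := hB
  refine ⟨?_, ?_, ?_, ?_, ?_, ?_⟩ <;> linarith

lemma Hlow {H : ℝ} (he : 0 < e) (he0 : e ≤ 1 / 10000000) (hB : InB e c p)
    (h0 : G2 e c p ≤ H)
    (h1 : G3 e c p ≤ H)
    (h2 : G5 e c p ≤ H)
    (h3 : G6 e c p ≤ H) :
    -6 ≤ H := by
  simp only [InB, Ge1, Ge2, Le1, Le2, A0, A1, A2, A3, A4, A5, A6, A7, G1, G2, G3, G4, G5, G6, TP, TM, LA, KP, KM, lf] at *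
  obtain ⟨g1, g2, g3, g4, g5, g6, g7, g8⟩ := hB
  linarith

end Pool.Agent.Lib.MP_d88725_gt
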