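import Mathlib

set_option autoImplicit false

namespace Pool.Agent.Lib.MP_d88725_gt

/-- The geometric realization of the 7-vertex triangulation of the torus, in barycentric
coordinates: its triangles are `{i, i+1, i+3}` and `{i, i+2, i+3}` modulo 7. -/
def K7 : Set (Fin 7 → ℝ) :=
  {w | (∀ j, 0 ≤ w j) ∧ ∑ j, w j = 1 ∧
    ∃ i : Fin 7, Function.support w ⊆ {i, i + 1, i + 3} ∨ Function.support w ⊆ {i, i + 2, i + 3}}

/-- The positions of the seven vertices. -/
def vtx : Fin 7 → EuclideanSpace ℝ (Fin 3) :=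
  ![WithLp.toLp 2 ![-1, 0, 0], WithLp.toLp 2 ![-2, -1, 1], WithLp.toLp 2 ![4, -3, -1],
    WithLp.toLp 2 ![3, -1, -1], WithLp.toLp 2 ![3, 1, 1], WithLp.toLp 2 ![4, 3, 1],
    WithLp.toLp 2 ![-2, 1, -1]]

/-- The simplexwise linear map determined by the vertex positions. -/
noncomputable def plMap (w : Fin 7 → ℝ) : EuclideanSpace ℝ (Fin 3) := ∑ j, w j • vtx j

end Pool.Agent.Lib.MP_d88725_gt
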