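import Pool.Agent.Lib.MP_d88725_gt.Main
import Pool.Agent.Lib.MP_d88725_gt.FbDefs

set_option autoImplicit false
set_option linter.unusedVariables false

namespace Pool.Agent.Lib.MP_d88725_gt

open Set Filter Topology Real Function

theorem main_emb : ∃ g : T2 → E3, Continuous g ∧ Injective g ∧ (∀ x, x ∈ range g ↔ PP x) ∧
    ∀ ε : ℝ, 0 < ε → ∃ f : T2 → E3,
      ContDiff ℝ (⊤ : ℕ∞) (fun p : ℝ × ℝ => f (p.1, p.2)) ∧
      (∀ p : ℝ × ℝ, Injective (fderiv ℝ (fun q : ℝ × ℝ => f (q.1, q.2)) p)) ∧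
      Injective f ∧ (∀ (ℓ : E3 →L[ℝ] ℝ) (c : ℝ), IsPreconnected {x | c < ℓ (f x)}) ∧
      ∀ x, dist (f x) (g x) < ε := by
  obtain ⟨C, N, hN, h⟩ := torus
  set ee : ℕ → ℝ := fun n => 1 / 10000000 * (1 / ((n : ℝ) + 1)) with hee
  have e0 : ∀ n, 0 < ee n := fun n => by positivity
  have e1 : ∀ n, ee n ≤ 1 / 10000000 := fun n => by
    have : 1 / ((n : ℝ) + 1) ≤ 1 := by
      rw [div_le_one (by positivity)]; linarith [Nat.cast_nonneg (α := ℝ) n]
    simp only [hee]; linarith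
  have et : Tendsto ee atTop (𝓝 0) := by
    have := tendsto_one_div_add_atTop_nhds_zero_nat.const_mul (1 / 10000000 : ℝ)
    rwa [mul_zero] at this
  choose f f1 f2 f3 f4 f5 f6 f7 using fun n => h (ee n) (e0 n) (e1 n)
  obtain ⟨g, φ, hφ, gc, hg⟩ := limit_exists f C f4 fun n θ =>
    norm_le_six (e0 n) (e1 n) (inB_of_LL (e0 n) ((f5 n _).1 ⟨θ, rfl⟩))
  have et' : Tendsto (fun n => 205 * ee (φ n)) atTop (𝓝 0) := by
    simpa using (et.comp hφ.tendsto_atTop).const_mul 205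
  have pt : ∀ θ, Tendsto (fun n => f (φ n) θ) atTop (𝓝 (g θ)) := fun θ => hg.tendsto_at θ
  refine ⟨g, gc, inj_of (fun a b => ?_) (fun a b b' hab => ?_), fun x => ⟨?_, fun hx => ?_⟩,
    fun ε hε => ?_⟩
  · have : IsClosed {x : E3 | x 0 * sin (2 * π * a) = x 1 * cos (2 * π * a) ∧
        1 / 8 ≤ x 0 * cos (2 * π * a) + x 1 * sin (2 * π * a)} := by
      have c1 : IsClosed {x : E3 | x 0 * sin (2 * π * a) = x 1 * cos (2 * π * a)} :=
        isClosed_eq (by fun_prop) (by fun_prop)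
      have c2 : IsClosed {x : E3 | 1 / 8 ≤ x 0 * cos (2 * π * a) + x 1 * sin (2 * π * a)} :=
        isClosed_le (by fun_prop) (by fun_prop)
      exact c1.inter c2
    exact this.mem_of_tendsto (pt (a, b)) (Eventually.of_forall fun n => f6 (φ n) a b)
  · have h1 : Tendsto (fun n => dist (f (φ n) (a, b)) (f (φ n) (a, b'))) atTop (𝓝 0) := by
      have := (pt (a, b)).dist (pt (a, b'))
      rwa [hab, dist_self] at this
    have h2 : Tendsto (fun n => N * dist (f (φ n) (a, b)) (f (φ n) (a, b'))) atTop (𝓝 0) := by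
      simpa using h1.const_mul N
    refine dist_le_zero.1 (ge_of_tendsto h2 ?_)
    filter_upwards [h1.eventually (gt_mem_nhds (show (0 : ℝ) < 1 / 10 by norm_num))] with n hn
    exact f7 (φ n) a b b' hn
  · rintro ⟨θ, rfl⟩
    apply PP_of_LL0
    have h1 : Tendsto (fun n => |LL0 ce (f (φ n) θ)|) atTop (𝓝 |LL0 ce (g θ)|) :=
      ((LL0_cont.tendsto _).comp (pt θ)).abs
    refine abs_nonpos_iff.1 (le_of_tendsto_of_tendsto' h1 et' fun n => ?_)
    have := LL_approx (e0 (φ n)) ce (f (φ n) θ)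
    rwa [(f5 _ _).1 ⟨θ, rfl⟩, zero_sub, abs_neg] at this
  · obtain ⟨qp, qm, hq⟩ := two_sides hx
    rw [← (isCompact_range gc).isClosed.closure_eq, Metric.mem_closure_iff]
    intro δ hδ
    obtain ⟨s, s0, s1, s2, s3⟩ : ∃ s : ℝ, 0 < s ∧ s ≤ 1 ∧ dist ((1 - s) • x + s • qp) x < δ / 2 ∧
        dist ((1 - s) • x + s • qm) x < δ / 2 := by
      have k : ∀ q : E3, ∀ᶠ s in 𝓝 (0 : ℝ), dist ((1 - s) • x + s • q) x < δ / 2 := by
        intro q
        have : Continuous fun s : ℝ => dist ((1 - s) • x + s • q) x := by fun_prop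
        exact this.continuousAt.eventually_lt continuousAt_const (by simpa using hδ)
      obtain ⟨s, ⟨⟨a1, a2⟩, a3⟩, a4⟩ := (((((k qp).and (k qm)).and (gt_mem_nhds one_pos)).filter_mono
        (nhdsWithin_le_nhds (s := Ioi 0))).and self_mem_nhdsWithin).exists
      exact ⟨s, a4, le_of_lt a3, a1, a2⟩
    obtain ⟨q1, q2⟩ := hq s s0 s1
    set y1 := (1 - s) • x + s • qp
    set y2 := (1 - s) • x + s • qm
    obtain ⟨n, ⟨n1, n2⟩, n3⟩ := (((et'.eventually (gt_mem_nhds q1)).and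
      (et'.eventually (gt_mem_nhds (neg_pos.2 q2)))).and
      (Metric.tendstoUniformly_iff.1 hg (δ / 2) (by linarith))).exists
    have a1 := abs_le.1 (LL_approx (e0 (φ n)) ce y1)
    have a2 := abs_le.1 (LL_approx (e0 (φ n)) ce y2)
    obtain ⟨z, hz, hz0⟩ := (convex_ball x (δ / 2)).isPreconnected.intermediate_value
      (a := y2) (b := y1) s3 s2 (LL_cd (e := ee (φ n)) ce_sm).continuous.continuousOn
      (show (0 : ℝ) ∈ Icc _ _ from ⟨by linarith [a2.2], by linarith [a1.1]⟩)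
    obtain ⟨θ, rfl⟩ := (f5 _ z).2 hz0
    refine ⟨g θ, ⟨θ, rfl⟩, ?_⟩
    have b1 : dist (f (φ n) θ) x < δ / 2 := hz
    have b2 := n3 θ
    have b3 := dist_triangle x (f (φ n) θ) (g θ)
    rw [dist_comm] at b1 b2
    linarith
  · obtain ⟨n, hn⟩ := (Metric.tendstoUniformly_iff.1 hg ε hε).exists
    refine ⟨f (φ n), f1 _, f2 _, inj_of (f6 _) fun a b b' hab => ?_, f3 _,
      fun x => by rw [dist_comm]; exact hn x⟩
    have := f7 (φ n) a b b' (by rw [hab, dist_self]; norm_num)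
    rw [hab, dist_self, mul_zero] at this
    exact dist_le_zero.1 this

lemma vtx_eq : vtx = vv := by
  funext i
  fin_cases i <;> (ext t; fin_cases t <;> simp [vtx, vv, vc])

lemma plMap_eq (w : Fin 7 → ℝ) : plMap w = ∑ j, w j • vv j := by
  rw [plMap, vtx_eq]

lemma K7_iff (w : Fin 7 → ℝ) : w ∈ K7 ↔ (∀ j, 0 ≤ w j) ∧ ∑ j, w j = 1 ∧
    ∃ k : Fin 14, ∀ j, j ∉ fc k → w j = 0 := by
  have key : ∀ σ : Finset (Fin 7), support w ⊆ (σ : Set (Fin 7)) ↔ ∀ j, j ∉ σ → w j = 0 :=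
    fun σ => ⟨fun h j hj => by_contra fun hw => hj (h hw), fun h j hj => by_contra fun hs =>
      hj (h j hs)⟩
  refine and_congr_right fun _ => and_congr_right fun _ => ⟨?_, ?_⟩
  · rintro ⟨i, h | h⟩
    · have : ({i, i + 1, i + 3} : Finset (Fin 7)) ∈ range fc := faces_eq ▸ Or.inl ⟨i, rfl⟩
      obtain ⟨k, hk⟩ := this
      exact ⟨k, (key _).1 (by rw [hk]; simpa using h)⟩
    · have : ({i, i + 2, i + 3} : Finset (Fin 7)) ∈ range fc := faces_eq ▸ Or.inr ⟨i, rfl⟩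
      obtain ⟨k, hk⟩ := this
      exact ⟨k, (key _).1 (by rw [hk]; simpa using h)⟩
  · rintro ⟨k, hk⟩
    have h := (key _).2 hk
    have : fc k ∈ range (fun i : Fin 7 => ({i, i + 1, i + 3} : Finset (Fin 7))) ∪
        range (fun i : Fin 7 => ({i, i + 2, i + 3} : Finset (Fin 7))) := faces_eq ▸ ⟨k, rfl⟩
    rcases this with ⟨i, hi⟩ | ⟨i, hi⟩
    · exact ⟨i, Or.inl (by rw [← hi] at h; simpa using h)⟩
    · exact ⟨i, Or.inr (by rw [← hi] at h; simpa using h)⟩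

lemma evr_plMap (n : ℤ × ℤ × ℤ × ℤ) {w : Fin 7 → ℝ} (hw : ∑ j, w j = 1) :
    evr n (plMap w) = ∑ j, w j * evz n j := by
  have e := evr_sum n Finset.univ w vv
  rw [hw, one_mul] at e
  rw [plMap_eq, evr_eq, ← e]
  exact Finset.sum_congr rfl fun j _ => by rw [evr_vv]

lemma bary_unique (k : Fin 14) {w u : Fin 7 → ℝ} (hw : ∑ j, w j = 1) (hu : ∑ j, u j = 1)
    (hw0 : ∀ j, j ∉ fc k → w j = 0) (hu0 : ∀ j, j ∉ fc k → u j = 0)
    (h : plMap w = plMap u) : w = u := by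
  funext i
  by_cases hi : i ∈ fc k
  · have key : ∀ {w : Fin 7 → ℝ}, ∑ j, w j = 1 → (∀ j, j ∉ fc k → w j = 0) →
        evr (indc k i) (plMap w) = w i * evz (indc k i) i := by
      intro w hw hw0
      rw [evr_plMap _ hw]
      refine Finset.sum_eq_single i (fun j _ hj => ?_) (fun h => absurd (Finset.mem_univ i) h)
      by_cases hj' : j ∈ fc k
      · rw [(indc_ok k).2 i hi j hj' hj]; simp
      · rw [hw0 j hj', zero_mul]
    have e := key hw hw0
    rw [h, key hu hu0] at e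
    exact (mul_right_cancel₀ (by exact_mod_cast (indc_ok k).1 i hi) e).symm
  · rw [hw0 i hi, hu0 i hi]

lemma plMap_mem {σ : Finset (Fin 7)} {w : Fin 7 → ℝ} (h0 : ∀ j, 0 ≤ w j) (h1 : ∑ j, w j = 1)
    (hs : ∀ j, j ∉ σ → w j = 0) : plMap w ∈ convexHull ℝ (vv '' (σ : Set (Fin 7))) := by
  rw [plMap_eq, ← Finset.sum_subset (Finset.subset_univ σ)
    (fun j _ hj => by rw [hs j hj, zero_smul])]
  refine (convex_convexHull ℝ _).sum_mem (fun i _ => h0 i) ?_
    fun i hi => subset_convexHull _ _ ⟨i, hi, rfl⟩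
  rw [Finset.sum_subset (Finset.subset_univ σ) (fun j _ hj => hs j hj), h1]

lemma exists_bary {σ : Finset (Fin 7)} {x : E3}
    (h : x ∈ convexHull ℝ (vv '' (σ : Set (Fin 7)))) : ∃ w : Fin 7 → ℝ, (∀ j, 0 ≤ w j) ∧
      ∑ j, w j = 1 ∧ (∀ j, j ∉ σ → w j = 0) ∧ plMap w = x := by
  obtain ⟨w, w0, w1, w2⟩ := hull_weights h
  refine ⟨fun j => if j ∈ σ then w j else 0, fun j => ?_, ?_, fun j hj => if_neg hj, ?_⟩
  · change 0 ≤ if j ∈ σ then w j else 0
    split_ifs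
    · exact w0 j
    · exact le_rfl
  · rw [Finset.sum_ite_mem, Finset.univ_inter, w1]
  · rw [plMap_eq, ← w2]
    simp only [ite_smul, zero_smul]
    rw [Finset.sum_ite_mem, Finset.univ_inter]

lemma plMap_injOn : InjOn plMap K7 := by
  intro w hw u hu h
  obtain ⟨w0, w1, k, wk⟩ := (K7_iff w).1 hw
  obtain ⟨u0, u1, l, ul⟩ := (K7_iff u).1 hu
  have hx : plMap w ∈ convexHull ℝ (vv '' ((fc k ∩ fc l : Finset (Fin 7)) : Set (Fin 7))) :=
    faces_inter k l ▸ ⟨plMap_mem w0 w1 wk, h ▸ plMap_mem u0 u1 ul⟩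
  obtain ⟨t, -, t1, t2, t3⟩ := exists_bary hx
  have a1 : w = t := bary_unique k w1 t1 wk
    (fun j hj => t2 j fun h' => hj (Finset.mem_inter.1 h').1) t3.symm
  have a2 : u = t := bary_unique l u1 t1 ul
    (fun j hj => t2 j fun h' => hj (Finset.mem_inter.1 h').2) (h.symm.trans t3.symm)
  rw [a1, a2]

lemma plMap_cont : Continuous plMap := by
  unfold plMap
  fun_prop

lemma K7_compact : IsCompact K7 := by
  have e : K7 = stdSimplex ℝ (Fin 7) ∩ ⋃ k : Fin 14, ⋂ j : {j // j ∉ fc k}, {w | w j.1 = 0} := by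
    ext w
    rw [K7_iff]
    simp only [mem_inter_iff, mem_iUnion, mem_iInter, mem_ofPred_eq, Subtype.forall, stdSimplex,
      and_assoc]
  rw [e]
  exact (isCompact_stdSimplex ℝ _).inter_right (isClosed_iUnion_of_finite fun k =>
    isClosed_iInter fun j => isClosed_eq (continuous_apply _) continuous_const)

theorem csaszar : ∃ (τ : T2 ≃ₜ K7) (f : ℕ → T2 → E3),
    (∀ k, ContDiff ℝ (⊤ : ℕ∞) (fun p : ℝ × ℝ => f k (p.1, p.2)) ∧
      (∀ p : ℝ × ℝ, Injective (fderiv ℝ (fun q : ℝ × ℝ => f k (q.1, q.2)) p)) ∧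
      Injective (f k) ∧ ∀ (ℓ : E3 →L[ℝ] ℝ) (c : ℝ), IsPreconnected {x | c < ℓ (f k x)}) ∧
    TendstoUniformly f (fun x => plMap (τ x)) atTop := by
  obtain ⟨g, g1, g2, g3, g4⟩ := main_emb
  have : CompactSpace K7 := isCompact_iff_compactSpace.1 K7_compact
  have hm : ∀ w : K7, plMap w ∈ range g := fun w => by
    obtain ⟨w0, w1, k, wk⟩ := (K7_iff w).1 w.2
    exact (g3 _).2 ⟨k, plMap_mem w0 w1 wk⟩
  have b1 : Bijective (fun x : T2 => (⟨g x, x, rfl⟩ : range g)) :=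
    ⟨fun a b h => g2 (congrArg Subtype.val h), fun ⟨_, x, hx⟩ => ⟨x, Subtype.ext hx⟩⟩
  have b2 : Bijective (fun w : K7 => (⟨plMap w, hm w⟩ : range g)) := by
    refine ⟨fun a b h => Subtype.ext (plMap_injOn a.2 b.2 (congrArg Subtype.val h)), fun y => ?_⟩
    obtain ⟨k, hk⟩ := (g3 _).1 y.2
    obtain ⟨w, w0, w1, w2, w3⟩ := exists_bary hk
    exact ⟨⟨w, (K7_iff w).2 ⟨w0, w1, k, w2⟩⟩, Subtype.ext w3⟩
  let h1 : T2 ≃ₜ range g := Continuous.homeoOfEquivCompactToT2 (f := Equiv.ofBijective _ b1)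
    (g1.subtype_mk _)
  let h2 : K7 ≃ₜ range g := Continuous.homeoOfEquivCompactToT2 (f := Equiv.ofBijective _ b2)
    ((plMap_cont.comp continuous_subtype_val).subtype_mk _)
  have hg : ∀ x, plMap (h1.trans h2.symm x) = g x := fun x =>
    congrArg Subtype.val (h2.apply_symm_apply (h1 x))
  choose f f1 f2 f3 f4 f5 using fun k : ℕ => g4 (1 / ((k : ℝ) + 1)) (by positivity)
  refine ⟨h1.trans h2.symm, f, fun k => ⟨f1 k, f2 k, f3 k, f4 k⟩, ?_⟩
  rw [Metric.tendstoUniformly_iff]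
  intro ε hε
  filter_upwards [(tendsto_one_div_add_atTop_nhds_zero_nat (𝕜 := ℝ)).eventually
    (gt_mem_nhds hε)] with k hk x
  rw [hg, dist_comm]
  exact (f5 k x).trans hk

end Pool.Agent.Lib.MP_d88725_gt
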