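import Pool.Agent.Lib.MP_d88725_gt.Phase
import Pool.Agent.Lib.MP_d88725_gt.Facts

set_option autoImplicit false
set_option linter.unusedVariables false

namespace Pool.Agent.Lib.MP_d88725_gt

open Set Filter Topology Real

variable {e s t : ℝ} {p : Y3}

lemma dA0 (e : ℝ) : Differentiable ℝ (A0 e cy) := (A0_cd cy_sm).differentiable (by simp)
lemma dA1 (e : ℝ) : Differentiable ℝ (A1 e cy) := (A1_cd cy_sm).differentiable (by simp)
lemma dA2 (e : ℝ) : Differentiable ℝ (A2 e cy) := (A2_cd cy_sm).differentiable (by simp)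
lemma dA3 (e : ℝ) : Differentiable ℝ (A3 e cy) := (A3_cd cy_sm).differentiable (by simp)
lemma dA4 (e : ℝ) : Differentiable ℝ (A4 e cy) := (A4_cd cy_sm).differentiable (by simp)
lemma dA5 (e : ℝ) : Differentiable ℝ (A5 e cy) := (A5_cd cy_sm).differentiable (by simp)
lemma dA6 (e : ℝ) : Differentiable ℝ (A6 e cy) := (A6_cd cy_sm).differentiable (by simp)
lemma dA7 (e : ℝ) : Differentiable ℝ (A7 e cy) := (A7_cd cy_sm).differentiable (by simp)
lemma dG1 (e : ℝ) : Differentiable ℝ (G1 e cy) := (G1_cd cy_sm).differentiable (by simp)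
lemma dG2 (e : ℝ) : Differentiable ℝ (G2 e cy) := (G2_cd cy_sm).differentiable (by simp)
lemma dG3 (e : ℝ) : Differentiable ℝ (G3 e cy) := (G3_cd cy_sm).differentiable (by simp)
lemma dG4 (e : ℝ) : Differentiable ℝ (G4 e cy) := (G4_cd cy_sm).differentiable (by simp)
lemma dG5 (e : ℝ) : Differentiable ℝ (G5 e cy) := (G5_cd cy_sm).differentiable (by simp)
lemma dG6 (e : ℝ) : Differentiable ℝ (G6 e cy) := (G6_cd cy_sm).differentiable (by simp)
lemma dTP (e : ℝ) : Differentiable ℝ (TP e cy) := (TP_cd cy_sm).differentiable (by simp)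
lemma dTM (e : ℝ) : Differentiable ℝ (TM e cy) := (TM_cd cy_sm).differentiable (by simp)
lemma dLA (e : ℝ) : Differentiable ℝ (LA e cy) := (LA_cd cy_sm).differentiable (by simp)
lemma dKP (e : ℝ) : Differentiable ℝ (KP e cy) := (KP_cd cy_sm).differentiable (by simp)
lemma dKM (e : ℝ) : Differentiable ℝ (KM e cy) := (KM_cd cy_sm).differentiable (by simp)
lemma dOO (e : ℝ) : Differentiable ℝ (OO e cy) := (OO_cd cy_sm).differentiable (by simp)
lemma dM05 (e : ℝ) : Differentiable ℝ (M05 e cy) := (M05_cd cy_sm).differentiable (by simp)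
lemma dM34 (e : ℝ) : Differentiable ℝ (M34 e cy) := (M34_cd cy_sm).differentiable (by simp)
lemma dM61 (e : ℝ) : Differentiable ℝ (M61 e cy) := (M61_cd cy_sm).differentiable (by simp)
lemma dM72 (e : ℝ) : Differentiable ℝ (M72 e cy) := (M72_cd cy_sm).differentiable (by simp)
lemma dL1 (e : ℝ) : Differentiable ℝ (L1 e cy) := (L1_cd cy_sm).differentiable (by simp)
lemma dL2 (e : ℝ) : Differentiable ℝ (L2 e cy) := (L2_cd cy_sm).differentiable (by simp)
lemma dLI (e : ℝ) : Differentiable ℝ (LI e cy) := (LI_cd cy_sm).differentiable (by simp)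
lemma dH12 (e : ℝ) : Differentiable ℝ (H12 e cy) := (H12_cd cy_sm).differentiable (by simp)
lemma dH123 (e : ℝ) : Differentiable ℝ (H123 e cy) := (H123_cd cy_sm).differentiable (by simp)
lemma dH45 (e : ℝ) : Differentiable ℝ (H45 e cy) := (H45_cd cy_sm).differentiable (by simp)
lemma dH456 (e : ℝ) : Differentiable ℝ (H456 e cy) := (H456_cd cy_sm).differentiable (by simp)
lemma dLH (e : ℝ) : Differentiable ℝ (LH e cy) := (LH_cd cy_sm).differentiable (by simp)
lemma dLT (e : ℝ) : Differentiable ℝ (LT e cy) := (LT_cd cy_sm).differentiable (by simp)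
lemma dLB (e : ℝ) : Differentiable ℝ (LB e cy) := (LB_cd cy_sm).differentiable (by simp)
lemma dLL (e : ℝ) : Differentiable ℝ (LL e cy) := (LL_cd cy_sm).differentiable (by simp)
lemma dNP (e : ℝ) : Differentiable ℝ (NP e cy) := (NP_cd cy_sm).differentiable (by simp)
lemma dNM (e : ℝ) : Differentiable ℝ (NM e cy) := (NM_cd cy_sm).differentiable (by simp)
lemma dCP (e : ℝ) : Differentiable ℝ (CP e cy) := (CP_cd cy_sm).differentiable (by simp)
lemma dCM (e : ℝ) : Differentiable ℝ (CM e cy) := (CM_cd cy_sm).differentiable (by simp)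
lemma dGH (e : ℝ) : Differentiable ℝ (GH e cy) := (GH_cd cy_sm).differentiable (by simp)
lemma dE2 (e : ℝ) : Differentiable ℝ (E2 e cy) := (E2_cd cy_sm).differentiable (by simp)
lemma dB2 (e : ℝ) : Differentiable ℝ (B2 e cy) := (B2_cd cy_sm).differentiable (by simp)
lemma dE1 : Differentiable ℝ (E1 cy rr) := (E1_cd cy_sm rr_cd).differentiable (by simp)
lemma dE12 (e : ℝ) : Differentiable ℝ (E12 e cy rr) := (E12_cd cy_sm rr_cd).differentiable (by simp)
lemma dB1 (e : ℝ) : Differentiable ℝ (B1 e cy rr) := (B1_cd cy_sm rr_cd).differentiable (by simp)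
lemma dGP (e : ℝ) : Differentiable ℝ (GP e cy rr) := (GP_cd cy_sm rr_cd).differentiable (by simp)

lemma Fn_GH : Fn s t (GH e cy) p = Fn s t (CP e cy) p - Fn s t (CM e cy) p := by
  have : GH e cy = fun p => CP e cy p + (-1) * CM e cy p + 0 := by
    funext p; simp only [GH]; ring
  rw [this, Fn_comb (dCP e) (dCM e)]; ring

lemma Fn_E1 : Fn s t (E1 cy rr) p = t := by
  have : E1 cy rr = fun p => cy.Z p + (-400) * rr p + 0 := by
    funext p; simp only [E1]; ring
  rw [this, Fn_comb dZ drr, Fn_Z, Fn_rr]; ring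

lemma Fn_mid : Fn s t (fun p => GH e cy p + (-3) * cy.Z p + 0) p = Fn s t (GH e cy) p - 3 * t := by
  rw [Fn_comb (dGH e) dZ, Fn_Z]; ring

lemma dmid (e : ℝ) : Differentiable ℝ fun p => GH e cy p + (-3) * cy.Z p + 0 :=
  ((dGH e).add (dZ.const_mul _)).add_const _

lemma Fn_E2 : Fn s t (E2 e cy) p =
    Fn s t (GH e cy) p - 3 * t + 2500 * (s * (-1 + 25 * e) + t) - 50000 * e * s := by
  have : E2 e cy = fun p => (GH e cy p + (-3) * cy.Z p + 0) + 2500 * TP e cy p + (-50000 * e) := by
    funext p; simp only [E2]; ring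
  rw [this, Fn_comb (dmid e) (dTP e), Fn_mid, TP, Fn_lf]; ring

lemma Fn_B1 : Fn s t (B1 e cy rr) p = Fn s t (E12 e cy rr) p - 6 * Fn s t (LH e cy) p := by
  have : B1 e cy rr = fun p => E12 e cy rr p + (-6) * LH e cy p + 0 := by
    funext p; simp only [B1]; ring
  rw [this, Fn_comb (dE12 e) (dLH e)]; ring

lemma Fn_B2 : Fn s t (B2 e cy) p =
    Fn s t (GH e cy) p - 3 * t + 20000 * Fn s t (LI e cy) p := by
  have : B2 e cy = fun p => (GH e cy p + (-3) * cy.Z p + 0) + 20000 * LI e cy p + 0 := by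
    funext p; simp only [B2]; ring
  rw [this, Fn_comb (dmid e) (dLI e), Fn_mid]; ring

lemma be_eq (f : Y3 → ℝ) (p : Y3) : be f p = Fn 0 1 f p := by simp [Fn]

lemma al_eq (f : Y3 → ℝ) (p : Y3) : al f p = Fn 1 0 f p := by simp [Fn]

lemma be_lf_le {c1 c2 c3 c0 N : ℝ} (h1 : -N ≤ c3) (h2 : c3 ≤ N) : |be (lf c1 c2 c3 c0 cy) p| ≤ N := by
  rw [be_lf]; exact abs_le.2 ⟨h1, h2⟩

lemma be_LI (he : 0 < e) : |be (LI e cy) p| ≤ 7 :=
  be_MN he (dL1 e) (dL2 e)
    (be_MX he (dM05 e) (dM34 e)
      (be_MN he (dA0 e) (dA5 e) (be_lf_le (by norm_num) (by norm_num)) (be_lf_le (by norm_num) (by norm_num)))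
      (be_MN he (dA3 e) (dA4 e) (be_lf_le (by norm_num) (by norm_num)) (be_lf_le (by norm_num) (by norm_num))))
    (be_MX he (dM61 e) (dM72 e)
      (be_MN he (dA6 e) (dA1 e) (be_lf_le (by norm_num) (by norm_num)) (be_lf_le (by norm_num) (by norm_num)))
      (be_MN he (dA7 e) (dA2 e) (be_lf_le (by norm_num) (by norm_num)) (be_lf_le (by norm_num) (by norm_num))))

lemma be_LH (he : 0 < e) : |be (LH e cy) p| ≤ 11 :=
  be_MX he (dH123 e) (dH456 e)
    (be_MX he (dH12 e) (dG3 e)
      (be_MX he (dG1 e) (dG2 e) (be_lf_le (by norm_num) (by norm_num)) (be_lf_le (by norm_num) (by norm_num)))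
      (be_lf_le (by norm_num) (by norm_num)))
    (be_MX he (dH45 e) (dG6 e)
      (be_MX he (dG4 e) (dG5 e) (be_lf_le (by norm_num) (by norm_num)) (be_lf_le (by norm_num) (by norm_num)))
      (be_lf_le (by norm_num) (by norm_num)))

lemma be_GH (he : 0 < e) : be (GH e cy) p = 0 := by
  have h1 : |be (CP e cy) p| ≤ 0 := be_MX he (dOO e) (dNP e) (be_lf_le (by norm_num) (by norm_num))
    (be_MN he (dLA e) (dKP e) (be_lf_le (by norm_num) (by norm_num)) (be_lf_le (by norm_num) (by norm_num)))
  have h2 : |be (CM e cy) p| ≤ 0 := be_MX he (dOO e) (dNM e) (be_lf_le (by norm_num) (by norm_num))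
    (be_MN he (dLA e) (dKM e) (be_lf_le (by norm_num) (by norm_num)) (be_lf_le (by norm_num) (by norm_num)))
  rw [be_eq, Fn_GH, ← be_eq, ← be_eq, abs_nonpos_iff.1 h1, abs_nonpos_iff.1 h2, sub_zero]

lemma Fn_GH' (he : 0 < e) : Fn s t (GH e cy) p = s * al (GH e cy) p := by
  rw [Fn, be_GH he]; ring

lemma be_GP (he : 0 < e) : |be (GP e cy rr) p| ≤ 140003 := by
  refine be_MX he (dB1 e) (dB2 e) ?_ ?_
  · have h1 : |be (E12 e cy rr) p| ≤ 2497 := by
      refine be_MX he dE1 (dE2 e) ?_ ?_
      · rw [be_eq, Fn_E1]; norm_num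
      · rw [be_eq, Fn_E2, Fn_GH' he]; norm_num
    have h2 := abs_le.1 (be_LH (p := p) he)
    have h3 := abs_le.1 h1
    rw [be_eq, Fn_B1, ← be_eq, ← be_eq, abs_le]
    constructor <;> linarith [h2.1, h2.2, h3.1, h3.2]
  · have h2 := abs_le.1 (be_LI (p := p) he)
    rw [be_eq, Fn_B2, Fn_GH' he, ← be_eq, abs_le]
    constructor <;> linarith [h2.1, h2.2]

lemma al_CP (he : 0 < e) : -2 * e ≤ al (CP e cy) p ∧ al (CP e cy) p ≤ 1 + 52 * e := by
  constructor
  · have := Fn_MX (s := 1) (t := 0) (S := 1) (c := 0 - 1 * e) (p := p) he (dOO e) (dNP e) (by norm_num)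
      (fun _ => by rw [OO, Fn_lf]; linarith)
      (fun _ => Fn_MN he (dLA e) (dKP e) (by norm_num) (fun _ => by rw [LA, Fn_lf]; linarith)
        (fun _ => by rw [KP, Fn_lf]; linarith))
    rw [al_eq]; unfold CP; linarith
  · have := Fn_MX (s := -1) (t := 0) (S := 1) (c := -(1 + 50 * e) - 1 * e) (p := p) he (dOO e) (dNP e)
      (by norm_num) (fun _ => by rw [OO, Fn_lf]; linarith)
      (fun _ => Fn_MN he (dLA e) (dKP e) (by norm_num) (fun _ => by rw [LA, Fn_lf]; linarith)
        (fun _ => by rw [KP, Fn_lf]; linarith))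
    unfold Fn at this; unfold CP; linarith

lemma al_CP_on (he : 0 < e) (h1 : 2 * e < LA e cy p) (h2 : LA e cy p + e < KP e cy p) :
    1 + 48 * e ≤ al (CP e cy) p := by
  have h3 : NP e cy p = LA e cy p := mn_left he h2.le
  have h4 : OO e cy p = 0 := by simp [OO, lf]
  have := Fn_MX (s := 1) (t := 0) (S := 1) (c := 1 + 50 * e - 1 * e) (p := p) he (dOO e) (dNP e)
    (by norm_num) (fun h => by linarith)
    (fun _ => Fn_MN he (dLA e) (dKP e) (by norm_num) (fun _ => by rw [LA, Fn_lf]; linarith)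
      (fun h => by linarith))
  rw [al_eq]; unfold CP; linarith

lemma al_CP_off (he : 0 < e) (h1 : KP e cy p ≤ -e) : al (CP e cy) p ≤ e := by
  have h3 := (NP_spec he cy p).2.1
  have h4 : OO e cy p = 0 := by simp [OO, lf]
  have := Fn_MX (s := -1) (t := 0) (S := 1) (c := 0) (p := p) he (dOO e) (dNP e)
    (by norm_num) (fun _ => by rw [OO, Fn_lf]; linarith) (fun h => by linarith)
  unfold Fn at this; unfold CP; linarith

lemma al_CM (he : 0 < e) : -2 * e ≤ al (CM e cy) p ∧ al (CM e cy) p ≤ 1 + 52 * e := by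
  constructor
  · have := Fn_MX (s := 1) (t := 0) (S := 1) (c := 0 - 1 * e) (p := p) he (dOO e) (dNM e) (by norm_num)
      (fun _ => by rw [OO, Fn_lf]; linarith)
      (fun _ => Fn_MN he (dLA e) (dKM e) (by norm_num) (fun _ => by rw [LA, Fn_lf]; linarith)
        (fun _ => by rw [KM, Fn_lf]; linarith))
    rw [al_eq]; unfold CM; linarith
  · have := Fn_MX (s := -1) (t := 0) (S := 1) (c := -(1 + 50 * e) - 1 * e) (p := p) he (dOO e) (dNM e)
      (by norm_num) (fun _ => by rw [OO, Fn_lf]; linarith)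
      (fun _ => Fn_MN he (dLA e) (dKM e) (by norm_num) (fun _ => by rw [LA, Fn_lf]; linarith)
        (fun _ => by rw [KM, Fn_lf]; linarith))
    unfold Fn at this; unfold CM; linarith

lemma al_CM_on (he : 0 < e) (h1 : 2 * e < LA e cy p) (h2 : LA e cy p + e < KM e cy p) :
    1 + 48 * e ≤ al (CM e cy) p := by
  have h3 : NM e cy p = LA e cy p := mn_left he h2.le
  have h4 : OO e cy p = 0 := by simp [OO, lf]
  have := Fn_MX (s := 1) (t := 0) (S := 1) (c := 1 + 50 * e - 1 * e) (p := p) he (dOO e) (dNM e)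
    (by norm_num) (fun h => by linarith)
    (fun _ => Fn_MN he (dLA e) (dKM e) (by norm_num) (fun _ => by rw [LA, Fn_lf]; linarith)
      (fun h => by linarith))
  rw [al_eq]; unfold CM; linarith

lemma al_CM_off (he : 0 < e) (h1 : KM e cy p ≤ -e) : al (CM e cy) p ≤ e := by
  have h3 := (NM_spec he cy p).2.1
  have h4 : OO e cy p = 0 := by simp [OO, lf]
  have := Fn_MX (s := -1) (t := 0) (S := 1) (c := 0) (p := p) he (dOO e) (dNM e)
    (by norm_num) (fun _ => by rw [OO, Fn_lf]; linarith) (fun h => by linarith)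
  unfold Fn at this; unfold CM; linarith

lemma al_GH_eq : al (GH e cy) p = al (CP e cy) p - al (CM e cy) p := by
  rw [al_eq, Fn_GH, ← al_eq, ← al_eq]

lemma al_GH (he : 0 < e) : -1 - 54 * e ≤ al (GH e cy) p ∧ al (GH e cy) p ≤ 1 + 54 * e := by
  obtain ⟨h1, h2⟩ := al_CP (p := p) he
  obtain ⟨h3, h4⟩ := al_CM (p := p) he
  rw [al_GH_eq]; constructor <;> linarith

lemma KM_eq {V : Type*} {c : Co V} {p : V} : KM e c p = -KP e c p := by simp [KM, KP, lf]

lemma Fn_LH (he : 0 < e) {c S : ℝ} (hS : |s| ≤ S) (h1 : c ≤ s * (-12) + t * 11)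
    (h2 : c ≤ s * (-8) + t * (-3)) (h3 : c ≤ s * (-4) + t * 3) (h4 : c ≤ s * (-12) + t * (-11))
    (h5 : c ≤ s * (-8) + t * 3) (h6 : c ≤ s * (-4) + t * (-3)) :
    c - 3 * (S * e) ≤ Fn s t (LH e cy) p := by
  have hS0 : 0 ≤ S * e := mul_nonneg ((abs_nonneg s).trans hS) he.le
  have := Fn_MX (c := c - S * e - S * e) (t := t) (p := p) he (dH123 e) (dH456 e) hS
    (fun _ => Fn_MX he (dH12 e) (dG3 e) hS
      (fun _ => Fn_MX he (dG1 e) (dG2 e) hS (fun _ => by rwa [G1, Fn_lf]) (fun _ => by rwa [G2, Fn_lf]))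
      (fun _ => by rw [G3, Fn_lf]; linarith))
    (fun _ => Fn_MX he (dH45 e) (dG6 e) hS
      (fun _ => Fn_MX he (dG4 e) (dG5 e) hS (fun _ => by rwa [G4, Fn_lf]) (fun _ => by rwa [G5, Fn_lf]))
      (fun _ => by rw [G6, Fn_lf]; linarith))
  unfold LH; linarith

/-- the inner faces are seen from the viewpoint selected by the switch -/
lemma Fn_LI_mid (he : 0 < e) (he0 : e ≤ 1 / 10000000) (hB : InB e cy p)
    (h1 : -2 * e ≤ LI e cy p) (h2 : LI e cy p ≤ 0) :
    9 / 10 ≤ Fn 3 (al (GH e cy) p) (LI e cy) p := by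
  obtain ⟨z1, z2⟩ := al_GH (p := p) he
  obtain ⟨s1, s2, s3⟩ := LI_spec he cy p
  have hS : |(3 : ℝ)| ≤ 3 := by norm_num
  have := Fn_MN (c := 95 / 100 - 3 * e - 3 * e) (t := al (GH e cy) p) (p := p) he (dL1 e) (dL2 e) hS
    (fun a1 => Fn_MX he (dM05 e) (dM34 e) hS
      (fun _ => Fn_MN he (dA0 e) (dA5 e) hS (fun _ => by rw [A0, Fn_lf]; linarith)
        (fun _ => by rw [A5, Fn_lf]; linarith))
      (fun a2 => Fn_MN he (dA3 e) (dA4 e) hS (fun _ => by rw [A3, Fn_lf]; linarith)
        (fun a3 => by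
          obtain ⟨u1, u2, u3⟩ := L1_spec he cy p
          obtain ⟨v1, v2, v3⟩ := M34_spec he cy p
          have w1 : L1 e cy p ≤ 2 * e := by rcases s3 with s | s <;> linarith
          have w2 : -4 * e ≤ M34 e cy p := by rcases u3 with s | s <;> linarith
          have w3 : A4 e cy p ≤ 4 * e := by rcases v3 with s | s <;> linarith
          obtain ⟨k1, k2⟩ := G4f he he0 hB (by linarith) w3 (by linarith)
            (le1_of he (by linarith)).1
          have k3 := al_CM_on he k1 k2
          have k4 := al_CP_off (p := p) he (by rw [KM_eq] at k2; linarith)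
          rw [A4, Fn_lf, al_GH_eq]; linarith)))
    (fun a1 => Fn_MX he (dM61 e) (dM72 e) hS
      (fun _ => Fn_MN he (dA6 e) (dA1 e) hS (fun _ => by rw [A6, Fn_lf]; linarith)
        (fun _ => by rw [A1, Fn_lf]; linarith))
      (fun a2 => Fn_MN he (dA7 e) (dA2 e) hS (fun _ => by rw [A7, Fn_lf]; linarith)
        (fun a3 => by
          obtain ⟨u1, u2, u3⟩ := L2_spec he cy p
          obtain ⟨v1, v2, v3⟩ := M72_spec he cy p
          have w1 : L2 e cy p ≤ 2 * e := by rcases s3 with s | s <;> linarith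
          have w2 : -4 * e ≤ M72 e cy p := by rcases u3 with s | s <;> linarith
          have w3 : A2 e cy p ≤ 4 * e := by rcases v3 with s | s <;> linarith
          obtain ⟨k1, k2⟩ := G3f he he0 hB (by linarith) w3 (by linarith)
            (le2_of he (by linarith)).1
          have k3 := al_CP_on he k1 k2
          have k4 := al_CM_off (p := p) he (by rw [KM_eq]; linarith)
          rw [A2, Fn_lf, al_GH_eq]; linarith)))
  unfold LI; linarith

/-- near the top plane the active inner faces are seen from the top of the axis -/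
lemma Fn_LI_top (he : 0 < e) (he0 : e ≤ 1 / 10000000) (hB : InB e cy p)
    (h1 : -4 * e ≤ LI e cy p) (h2 : LI e cy p ≤ 0) (hT : -5 * e ≤ TP e cy p) :
    1 / 2 ≤ Fn 1 (1 - 25 * e) (LI e cy) p := by
  obtain ⟨s1, s2, s3⟩ := LI_spec he cy p
  have hS : |(1 : ℝ)| ≤ 1 := by norm_num
  have := Fn_MN (c := 9 / 10 - 1 * e - 1 * e) (t := 1 - 25 * e) (p := p) he (dL1 e) (dL2 e) hS
    (fun a1 => Fn_MX he (dM05 e) (dM34 e) hS
      (fun _ => Fn_MN he (dA0 e) (dA5 e) hS (fun _ => by rw [A0, Fn_lf]; linarith)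
        (fun _ => by rw [A5, Fn_lf]; linarith))
      (fun a2 => by
        exfalso
        obtain ⟨u1, u2, u3⟩ := L1_spec he cy p
        obtain ⟨v1, v2, v3⟩ := M34_spec he cy p
        have w2 : -6 * e ≤ M34 e cy p := by rcases u3 with s | s <;> linarith
        exact G5_4 he he0 hB hT (by linarith)))
    (fun a1 => Fn_MX he (dM61 e) (dM72 e) hS
      (fun a2 => by
        exfalso
        obtain ⟨u1, u2, u3⟩ := L2_spec he cy p
        obtain ⟨v1, v2, v3⟩ := M61_spec he cy p
        have w1 : L2 e cy p ≤ 2 * e := by rcases s3 with s | s <;> linarith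
        have w2 : -6 * e ≤ M61 e cy p := by rcases u3 with s | s <;> linarith
        exact G5_6 he he0 hB hT (by linarith) (by linarith) (ge1_of he (by linarith))
          (le2_of he (by linarith)).2)
      (fun _ => Fn_MN he (dA7 e) (dA2 e) hS (fun _ => by rw [A7, Fn_lf]; linarith)
        (fun _ => by rw [A2, Fn_lf]; linarith)))
  unfold LI; linarith

section Values

variable {V : Type*} {c : Co V} {R : V → ℝ} {q : V}

lemma GH_bound (he : 0 < e) (he0 : e ≤ 1 / 10000000) (hB : InB e c q) :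
    -(51 / 10) ≤ GH e c q ∧ GH e c q ≤ 51 / 10 := by
  obtain ⟨-, b2, -⟩ := box he he0 hB
  have h4 : OO e c q = 0 := by simp [OO, lf]
  have h5 : LA e c q = c.X q + 1 + 50 * e := by simp only [LA, lf]; ring
  obtain ⟨u1, -, u3⟩ := CP_spec he c q
  obtain ⟨v1, -, v3⟩ := CM_spec he c q
  have w1 := (NP_spec he c q).1
  have w2 := (NM_spec he c q).1
  unfold GH
  rcases u3 with u | u <;> rcases v3 with v | v <;> constructor <;> linarith

lemma E12_spec (he : 0 < e) (c : Co V) (R : V → ℝ) (q : V) : E1 c R q ≤ E12 e c R q ∧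
    E2 e c q ≤ E12 e c R q ∧ (E12 e c R q ≤ E1 c R q + e ∨ E12 e c R q ≤ E2 e c q + e) :=
  ⟨le_mx_left he _ _, le_mx_right he _ _, mx_cases he _ _⟩

lemma GP_spec (he : 0 < e) (c : Co V) (R : V → ℝ) (q : V) : B1 e c R q ≤ GP e c R q ∧
    B2 e c q ≤ GP e c R q ∧ (GP e c R q ≤ B1 e c R q + e ∨ GP e c R q ≤ B2 e c q + e) :=
  ⟨le_mx_left he _ _, le_mx_right he _ _, mx_cases he _ _⟩

lemma le12_of (he : 0 < e) (h2 : LI e c q ≤ 0) {s : ℝ} (hs : 2 * e ≤ s) :
    Le1 e c q s ∨ Le2 e c q s := by
  obtain ⟨-, -, s3 | s3⟩ := LI_spec he c q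
  · exact Or.inl (le1_of he (by linarith))
  · exact Or.inr (le2_of he (by linarith))

lemma LH_nonpos (he : 0 < e) (h : LL e c q = 0) : LH e c q ≤ 0 :=
  (LB_spec he c q).1.trans (h ▸ (LL_spec he c q).1)

lemma LI_nonpos (he : 0 < e) (h : LL e c q = 0) : LI e c q ≤ 0 := h ▸ (LL_spec he c q).2.1

lemma inner_branch (he : 0 < e) (he0 : e ≤ 1 / 10000000) (h : LL e c q = 0)
    (hz : -(1 / 10) ≤ c.Z q) (hr : 1 / 8 ≤ R q) (h1 : -2 * e ≤ LI e c q) :
    B1 e c R q + e ≤ B2 e c q := by
  have hB := inB_of_LL he h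
  obtain ⟨g1, g2, g3, g4, g5, g6⟩ := LH_ge he c q
  obtain ⟨s1, s2, -⟩ := LI_spec he c q
  obtain ⟨-, -, u | u⟩ := E12_spec he c R q
  · have k1 := Hlow he he0 hB g2 g3 g5 g6
    have k2 := (GH_bound he he0 hB).1
    have k3 := (box he he0 hB).2.2.2.2.2
    simp only [B1, B2, E1] at u ⊢
    linarith
  · have k1 := G1a he he0 hB g1 g2 g3 g4 g5 g6 hz (ge1_of he (by linarith))
      (ge2_of he (by linarith)) (le12_of he (LI_nonpos he h) le_rfl)
    simp only [B1, B2, E2] at u ⊢
    linarith

lemma outer_branch (he : 0 < e) (he0 : e ≤ 1 / 10000000) (h : LL e c q = 0)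
    (hz : -(1 / 10) ≤ c.Z q) (h1 : -4 * e ≤ LH e c q) : B2 e c q + e ≤ B1 e c R q := by
  have hB := inB_of_LL he h
  by_contra k
  have k1 := (E12_spec he c R q).2.1
  have k2 := LH_nonpos he h
  obtain ⟨s1, s2, -⟩ := LI_spec he c q
  simp only [B1, B2, E2] at k k1
  refine G2f he he0 hB hz ?_ (ge1_of he (by linarith)) (ge2_of he (by linarith))
  rcases LH_le he c q with k | k | k | k | k | k
  · left; linarith
  · right; left; linarith
  · right; right; left; linarith
  · right; right; right; left; linarith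
  · right; right; right; right; left; linarith
  · right; right; right; right; right; linarith

end Values

lemma Fn_swap (f g : Y3 → ℝ) (p : Y3) :
    Fn (-be f p) (al f p) g p = Fn (be g p) (-al g p) f p := by
  unfold Fn; ring

lemma Fn_self (f : Y3 → ℝ) (p : Y3) : Fn (be f p) (-al f p) f p = 0 := by
  unfold Fn; ring

theorem jac (he : 0 < e) (he0 : e ≤ 1 / 10000000) (h : LL e cy p = 0)
    (hz : -(1 / 10) < p.2.2) (hr : 1 / 8 ≤ p.2.1) :
    1 / 2 ≤ Fn (-be (GP e cy rr) p) (al (GP e cy rr) p) (LL e cy) p := by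
  have hB := inB_of_LL he h
  have hS : |(-be (GP e cy rr) p)| ≤ 140003 := by rw [abs_neg]; exact be_GP he
  obtain ⟨z1, z2⟩ := al_GH (p := p) he
  obtain ⟨s1, s2, s3⟩ := LL_spec he cy p
  rw [h] at s1 s2 s3
  have hz' : -(1 / 10) ≤ cy.Z p := hz.le
  have := Fn_MX (c := 6 / 10) (t := al (GP e cy rr) p) (p := p) he (dLB e) (dLI e) hS
    (fun a1 => by
      have b1 : -2 * e ≤ LB e cy p := by rcases s3 with s | s <;> linarith
      obtain ⟨-, -, u3⟩ := LB_spec he cy p
      have := Fn_MX (c := 7 / 10) (t := al (GP e cy rr) p) (p := p) he (dLH e) (dLT e) hS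
        (fun a2 => by
          have b2 : -4 * e ≤ LH e cy p := by rcases u3 with s | s <;> linarith
          have b3 := outer_branch (R := rr) he he0 h hz' b2
          rw [Fn_swap]
          have := Fn_MX (c := 8 / 10) (t := -al (LH e cy) p) (p := p) he (dB1 e) (dB2 e) (be_LH (p := p) he)
            (fun _ => by
              rw [Fn_B1, Fn_self]
              have := Fn_MX (c := 9 / 10) (t := -al (LH e cy) p) (p := p) he dE1 (dE2 e)
                (be_LH (p := p) he)
                (fun _ => by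
                  have := Fn_LH (s := -1) (t := 0) (c := 4) (S := 1) (p := p) he (by norm_num)
                    (by norm_num) (by norm_num) (by norm_num) (by norm_num) (by norm_num)
                    (by norm_num)
                  rw [Fn_E1]; unfold Fn at this; linarith)
                (fun _ => by
                  have := Fn_LH (s := -2497)
                    (t := al (GH e cy) p + 2500 * (-1 + 25 * e) - 50000 * e) (c := 2000)
                    (S := 2497) (p := p) he (by norm_num) (by linarith) (by linarith)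
                    (by linarith) (by linarith) (by linarith) (by linarith)
                  rw [Fn_E2, Fn_GH' he]; unfold Fn at this; linarith)
              unfold E12; linarith)
            (fun k => by linarith)
          unfold GP; linarith)
        (fun a2 => by
          have b2 : -4 * e ≤ LT e cy p := by rcases u3 with s | s <;> linarith
          have b3 : TM e cy p = -p.2.2 - 1 + 25 * e := by simp only [TM, lf, cy]; ring
          have b4 : TP e cy p = p.2.2 - 1 + 25 * e := by simp only [TP, lf, cy]; ring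
          have b5 : -5 * e ≤ TP e cy p := by
            rcases (LT_spec he cy p).2.2 with s | s <;> linarith
          have := Fn_MX (c := 8 / 10) (t := al (GP e cy rr) p) (p := p) he (dTP e) (dTM e) hS
            (fun _ => by
              have := Fn_MX (s := 1) (S := 1) (c := 9 / 10) (t := 1 - 25 * e) (p := p) he (dB1 e) (dB2 e)
                (by norm_num)
                (fun _ => by
                  have k1 := Fn_MX (s := 1) (S := 1) (c := -(41 / 10)) (t := 1 - 25 * e) (p := p)
                    he dE1 (dE2 e) (by norm_num) (fun _ => by rw [Fn_E1]; linarith)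
                    (fun _ => by rw [Fn_E2, Fn_GH' he]; linarith)
                  have k2 := Fn_LH (s := -1) (t := -(1 - 25 * e)) (c := 1) (S := 1) (p := p) he
                    (by norm_num) (by linarith) (by linarith) (by linarith) (by linarith)
                    (by linarith) (by linarith)
                  rw [Fn_B1]
                  unfold E12; unfold Fn at k1 k2 ⊢; linarith)
                (fun k => by
                  have k1 := (E12_spec he cy rr p).2.1
                  have k2 := LH_nonpos he h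
                  simp only [B1, B2, E2] at k k1
                  have k3 := Fn_LI_top he he0 hB (by linarith) s2 b5
                  rw [Fn_B2, Fn_GH' he]; linarith)
              rw [TP, Fn_lf]
              unfold GP; unfold Fn at this; linarith)
            (fun k => by linarith)
          unfold LT; linarith)
      unfold LB; linarith)
    (fun a1 => by
      have b1 : -2 * e ≤ LI e cy p := by rcases s3 with s | s <;> linarith
      have b2 := inner_branch (R := rr) he he0 h hz' hr b1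
      rw [Fn_swap]
      have := Fn_MX (c := 8 / 10) (t := -al (LI e cy) p) (p := p) he (dB1 e) (dB2 e) (be_LI (p := p) he)
        (fun k => by linarith)
        (fun _ => by
          have := Fn_LI_mid he he0 hB b1 s2
          rw [Fn_B2, Fn_self, Fn_GH' he]
          unfold Fn at this; linarith)
      unfold GP; linarith)
  unfold LL; linarith

end Pool.Agent.Lib.MP_d88725_gt
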