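import Pool.Agent.Lib.MP_d88725_gt.Torus
import Pool.Agent.Lib.MP_d88725_gt.Embed

set_option autoImplicit false
set_option linter.unusedVariables false

namespace Pool.Agent.Lib.MP_d88725_gt

open Set Filter Topology Real Function

lemma limit_exists (f : ℕ → T2 → E3) (C : NNReal) (hL : ∀ n, LipschitzWith C (f n))
    (hb : ∀ n θ, ‖f n θ‖ ≤ 6) : ∃ (g : T2 → E3) (φ : ℕ → ℕ), StrictMono φ ∧ Continuous g ∧
      TendstoUniformly (fun n => f (φ n)) g atTop := by
  set F : ℕ → BoundedContinuousFunction T2 E3 :=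
    fun n => BoundedContinuousFunction.mkOfCompact ⟨f n, (hL n).continuous⟩ with hF
  have hc := BoundedContinuousFunction.arzela_ascoli (Metric.closedBall (0 : E3) 6)
    (isCompact_closedBall _ _) (range F)
    (by rintro _ x ⟨n, rfl⟩; exact mem_closedBall_zero_iff.2 (hb n x))
    (by
      refine (LipschitzWith.uniformEquicontinuous _ C ?_).equicontinuous
      rintro ⟨_, n, rfl⟩
      exact hL n)
  obtain ⟨g, -, φ, hφ, hg⟩ := hc.tendsto_subseq (x := F) fun n => subset_closure ⟨n, rfl⟩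
  exact ⟨g, φ, hφ, g.continuous, BoundedContinuousFunction.tendsto_iff_tendstoUniformly.1 hg⟩

lemma LL0_cont : Continuous (LL0 ce) := by
  have h := ce_sm
  unfold LL0
  exact ((((((G1_cd h).continuous.max (G2_cd h).continuous).max (G3_cd h).continuous).max
    (((G4_cd h).continuous.max (G5_cd h).continuous).max (G6_cd h).continuous)).max
    ((TP_cd h).continuous.max (TM_cd h).continuous)).max
    ((((A0_cd h).continuous.min (A5_cd h).continuous).max
      ((A3_cd h).continuous.min (A4_cd h).continuous)).min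
      (((A6_cd h).continuous.min (A1_cd h).continuous).max
        ((A7_cd h).continuous.min (A2_cd h).continuous))))

theorem main : ∃ g : T2 → E3, Continuous g ∧ Injective g ∧ (∀ x, x ∈ range g ↔ PP x) ∧
    ∀ ε : ℝ, 0 < ε → ∃ f : T2 → E3,
      ContDiff ℝ (⊤ : ℕ∞) (fun p : ℝ × ℝ => f (p.1, p.2)) ∧
      (∀ p : ℝ × ℝ, Injective (fderiv ℝ (fun q : ℝ × ℝ => f (q.1, q.2)) p)) ∧
      (∀ (ℓ : E3 →L[ℝ] ℝ) (c : ℝ), IsPreconnected {x | c < ℓ (f x)}) ∧
      ∀ x, dist (f x) (g x) < ε := by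
  obtain ⟨C, N, hN, h⟩ := torus
  set ee : ℕ → ℝ := fun n => 1 / 10000000 * (1 / ((n : ℝ) + 1)) with hee
  have e0 : ∀ n, 0 < ee n := fun n => by positivity
  have e1 : ∀ n, ee n ≤ 1 / 10000000 := fun n => by
    have : 1 / ((n : ℝ) + 1) ≤ 1 := by
      rw [div_le_one (by positivity)]; linarith [Nat.cast_nonneg (α := ℝ) n]
    simp only [hee]; linarith
  have et : Tendsto ee atTop (𝓝 0) := by
    have := tendsto_one_div_add_atTop_nhds_zero_nat.const_mul (1 / 10000000 : ℝ)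
    rwa [mul_zero] at this
  choose f f1 f2 f3 f4 f5 f6 f7 using fun n => h (ee n) (e0 n) (e1 n)
  obtain ⟨g, φ, hφ, gc, hg⟩ := limit_exists f C f4 fun n θ =>
    norm_le_six (e0 n) (e1 n) (inB_of_LL (e0 n) ((f5 n _).1 ⟨θ, rfl⟩))
  have et' : Tendsto (fun n => 205 * ee (φ n)) atTop (𝓝 0) := by
    simpa using (et.comp hφ.tendsto_atTop).const_mul 205
  have pt : ∀ θ, Tendsto (fun n => f (φ n) θ) atTop (𝓝 (g θ)) := fun θ => hg.tendsto_at θ
  refine ⟨g, gc, inj_of (fun a b => ?_) (fun a b b' hab => ?_), fun x => ⟨?_, fun hx => ?_⟩,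
    fun ε hε => ?_⟩
  · have : IsClosed {x : E3 | x 0 * sin (2 * π * a) = x 1 * cos (2 * π * a) ∧
        1 / 8 ≤ x 0 * cos (2 * π * a) + x 1 * sin (2 * π * a)} := by
      have c1 : IsClosed {x : E3 | x 0 * sin (2 * π * a) = x 1 * cos (2 * π * a)} :=
        isClosed_eq (by fun_prop) (by fun_prop)
      have c2 : IsClosed {x : E3 | 1 / 8 ≤ x 0 * cos (2 * π * a) + x 1 * sin (2 * π * a)} :=
        isClosed_le (by fun_prop) (by fun_prop)
      exact c1.inter c2
    exact this.mem_of_tendsto (pt (a, b)) (Eventually.of_forall fun n => f6 (φ n) a b)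
  · have h1 : Tendsto (fun n => dist (f (φ n) (a, b)) (f (φ n) (a, b'))) atTop (𝓝 0) := by
      have := (pt (a, b)).dist (pt (a, b'))
      rwa [hab, dist_self] at this
    have h2 : Tendsto (fun n => N * dist (f (φ n) (a, b)) (f (φ n) (a, b'))) atTop (𝓝 0) := by
      simpa using h1.const_mul N
    refine dist_le_zero.1 (ge_of_tendsto h2 ?_)
    filter_upwards [h1.eventually (gt_mem_nhds (show (0 : ℝ) < 1 / 10 by norm_num))] with n hn
    exact f7 (φ n) a b b' hn
  · rintro ⟨θ, rfl⟩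
    apply PP_of_LL0
    have h1 : Tendsto (fun n => |LL0 ce (f (φ n) θ)|) atTop (𝓝 |LL0 ce (g θ)|) :=
      ((LL0_cont.tendsto _).comp (pt θ)).abs
    refine abs_nonpos_iff.1 (le_of_tendsto_of_tendsto' h1 et' fun n => ?_)
    have := LL_approx (e0 (φ n)) ce (f (φ n) θ)
    rwa [(f5 _ _).1 ⟨θ, rfl⟩, zero_sub, abs_neg] at this
  · obtain ⟨qp, qm, hq⟩ := two_sides hx
    rw [← (isCompact_range gc).isClosed.closure_eq, Metric.mem_closure_iff]
    intro δ hδ
    obtain ⟨s, s0, s1, s2, s3⟩ : ∃ s : ℝ, 0 < s ∧ s ≤ 1 ∧ dist ((1 - s) • x + s • qp) x < δ / 2 ∧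
        dist ((1 - s) • x + s • qm) x < δ / 2 := by
      have k : ∀ q : E3, ∀ᶠ s in 𝓝 (0 : ℝ), dist ((1 - s) • x + s • q) x < δ / 2 := by
        intro q
        have : Continuous fun s : ℝ => dist ((1 - s) • x + s • q) x := by fun_prop
        exact this.continuousAt.eventually_lt continuousAt_const (by simpa using hδ)
      obtain ⟨s, ⟨⟨a1, a2⟩, a3⟩, a4⟩ := (((((k qp).and (k qm)).and (gt_mem_nhds one_pos)).filter_mono
        (nhdsWithin_le_nhds (s := Ioi 0))).and self_mem_nhdsWithin).exists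
      exact ⟨s, a4, le_of_lt a3, a1, a2⟩
    obtain ⟨q1, q2⟩ := hq s s0 s1
    set y1 := (1 - s) • x + s • qp
    set y2 := (1 - s) • x + s • qm
    obtain ⟨n, ⟨n1, n2⟩, n3⟩ := (((et'.eventually (gt_mem_nhds q1)).and
      (et'.eventually (gt_mem_nhds (neg_pos.2 q2)))).and
      (Metric.tendstoUniformly_iff.1 hg (δ / 2) (by linarith))).exists
    have a1 := abs_le.1 (LL_approx (e0 (φ n)) ce y1)
    have a2 := abs_le.1 (LL_approx (e0 (φ n)) ce y2)
    obtain ⟨z, hz, hz0⟩ := (convex_ball x (δ / 2)).isPreconnected.intermediate_value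
      (a := y2) (b := y1) s3 s2 (LL_cd (e := ee (φ n)) ce_sm).continuous.continuousOn
      (show (0 : ℝ) ∈ Icc _ _ from ⟨by linarith [a2.2], by linarith [a1.1]⟩)
    obtain ⟨θ, rfl⟩ := (f5 _ z).2 hz0
    refine ⟨g θ, ⟨θ, rfl⟩, ?_⟩
    have b1 : dist (f (φ n) θ) x < δ / 2 := hz
    have b2 := n3 θ
    have b3 := dist_triangle x (f (φ n) θ) (g θ)
    rw [dist_comm] at b1 b2
    linarith
  · obtain ⟨n, hn⟩ := (Metric.tendstoUniformly_iff.1 hg ε hε).exists
    exact ⟨f (φ n), f1 _, f2 _, f3 _, fun x => by rw [dist_comm]; exact hn x⟩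

end Pool.Agent.Lib.MP_d88725_gt
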