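import Mathlib

set_option autoImplicit false

namespace Pool.Agent.Lib.MP_d88725_gt

open Set Filter Topology Function

/-- cylindrical coordinate space: angle, radius, height -/
abbrev Y3 : Type := ℝ × ℝ × ℝ

lemma chart {Λ τ : Y3 → ℝ} {p0 : Y3} {C : ℝ} (hC : 0 ≤ C) (hΛ : ContDiffAt ℝ (⊤ : ℕ∞) Λ p0)
    (hτ : ContDiffAt ℝ (⊤ : ℕ∞) τ p0) (h0 : Λ p0 = 0)
    (hJ : ∀ v : Y3, ‖v‖ ≤ C * ‖((v.1, fderiv ℝ Λ p0 v, fderiv ℝ τ p0 v) : Y3)‖) (k : ℝ) :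
    ∃ σ : ℝ × ℝ → Y3, ContDiffAt ℝ (⊤ : ℕ∞) σ (p0.1, τ p0 - k) ∧ σ (p0.1, τ p0 - k) = p0 ∧
      (∀ᶠ q in 𝓝 (p0.1, τ p0 - k), (σ q).1 = q.1 ∧ Λ (σ q) = 0 ∧ τ (σ q) - q.2 = k) ∧
      (∀ᶠ p in 𝓝 p0, Λ p = 0 → σ (p.1, τ p - k) = p) ∧
      Injective (fderiv ℝ σ (p0.1, τ p0 - k)) ∧ ‖fderiv ℝ σ (p0.1, τ p0 - k)‖ ≤ C := by
  set Φ : Y3 → Y3 := fun p => (p.1, Λ p, τ p) with hΦ
  have hΦc : ContDiffAt ℝ (⊤ : ℕ∞) Φ p0 := contDiffAt_fst.prodMk (hΛ.prodMk hτ)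
  set D : Y3 →L[ℝ] Y3 := (ContinuousLinearMap.fst ℝ ℝ (ℝ × ℝ)).prod
    ((fderiv ℝ Λ p0).prod (fderiv ℝ τ p0)) with hD
  have hDv : ∀ v, D v = (v.1, fderiv ℝ Λ p0 v, fderiv ℝ τ p0 v) := fun v => rfl
  have hΦd : HasFDerivAt Φ D p0 :=
    hasFDerivAt_fst.prodMk (((hΛ.differentiableAt (by simp)).hasFDerivAt).prodMk
      ((hτ.differentiableAt (by simp)).hasFDerivAt))
  have hinj : Injective D := by
    rw [injective_iff_map_eq_zero]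
    intro v hv
    have := hJ v
    rw [← hDv, hv, norm_zero, mul_zero] at this
    exact norm_le_zero_iff.1 this
  set e : Y3 ≃L[ℝ] Y3 := (LinearEquiv.ofInjectiveEndo (D : Y3 →ₗ[ℝ] Y3) hinj).toContinuousLinearEquiv
    with he
  have hev : ∀ v, e v = D v := fun v => rfl
  have heD : (e : Y3 →L[ℝ] Y3) = D := ContinuousLinearMap.ext fun v => rfl
  have hΦe : HasFDerivAt Φ (e : Y3 →L[ℝ] Y3) p0 := heD ▸ hΦd
  have hn : ((⊤ : ℕ∞) : WithTop ℕ∞) ≠ 0 := by simp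
  have hs := hΦc.hasStrictFDerivAt' hΦe hn
  set ψ := hΦc.localInverse hΦe hn with hψ
  set j : ℝ × ℝ → Y3 := fun q => (q.1, 0, q.2 + k) with hj
  set dj : ℝ × ℝ →L[ℝ] Y3 := (ContinuousLinearMap.fst ℝ ℝ ℝ).prod
    ((0 : ℝ × ℝ →L[ℝ] ℝ).prod (ContinuousLinearMap.snd ℝ ℝ ℝ)) with hdj
  have hjc : ContDiff ℝ (⊤ : ℕ∞) j := by rw [hj]; fun_prop
  have hj0 : j (p0.1, τ p0 - k) = Φ p0 := by simp [hj, hΦ, h0]
  have hjd : HasFDerivAt j dj (p0.1, τ p0 - k) :=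
    hasFDerivAt_fst.prodMk ((hasFDerivAt_const _ _).prodMk (hasFDerivAt_snd.add_const k))
  have hψc : ContDiffAt ℝ (⊤ : ℕ∞) ψ (j (p0.1, τ p0 - k)) := by
    rw [hj0]; exact hΦc.to_localInverse hΦe hn
  have hψd : HasFDerivAt ψ (e.symm : Y3 →L[ℝ] Y3) (j (p0.1, τ p0 - k)) := by
    rw [hj0]; exact hs.to_localInverse.hasFDerivAt
  have hσd := (hψd.comp _ hjd).fderiv
  have hjt : Tendsto j (𝓝 (p0.1, τ p0 - k)) (𝓝 (Φ p0)) := hj0 ▸ hjc.continuous.tendsto _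
  refine ⟨ψ ∘ j, hψc.comp _ hjc.contDiffAt, ?_, ?_, ?_, ?_, ?_⟩
  · show ψ (j _) = p0
    rw [hj0]; exact hΦc.localInverse_apply_image hΦe hn
  · filter_upwards [hjt.eventually hs.eventually_right_inverse] with q hq
    have h1 : Φ (ψ (j q)) = j q := hq
    simp only [hΦ, hj, Prod.mk.injEq] at h1
    exact ⟨h1.1, h1.2.1, by have := h1.2.2; simp only [comp, hj]; linarith⟩
  · filter_upwards [hs.eventually_left_inverse] with p hp hp0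
    have h1 : ψ (Φ p) = p := hp
    have h2 : j (p.1, τ p - k) = Φ p := by simp [hj, hΦ, hp0]
    show ψ (j _) = p
    rw [h2, h1]
  · rw [hσd]
    intro a b hab
    have h1 : dj a = dj b := e.symm.injective hab
    have h2 : (a.1, (0 : ℝ), a.2) = (b.1, (0 : ℝ), b.2) := h1
    simp only [Prod.mk.injEq] at h2
    exact Prod.ext h2.1 h2.2.2
  · rw [hσd]
    refine ContinuousLinearMap.opNorm_le_bound _ hC fun a => ?_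
    have h1 := hJ (e.symm (dj a))
    rw [← hDv, ← hev, e.apply_symm_apply] at h1
    have h2 : ‖dj a‖ = ‖a‖ := by
      show ‖(a.1, (0 : ℝ), a.2)‖ = ‖a‖
      simp [Prod.norm_def]
    rw [h2] at h1
    exact h1

/-- the integers inside the reals -/
def ZZ : Set ℝ := range ((↑) : ℤ → ℝ)

lemma ZZ_closed : IsClosed ZZ := Int.isClosedEmbedding_coe_real.isClosed_range

lemma ZZ_add {a b : ℝ} (ha : a ∈ ZZ) (hb : b ∈ ZZ) : a + b ∈ ZZ := by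
  obtain ⟨m, rfl⟩ := ha
  obtain ⟨n, rfl⟩ := hb
  exact ⟨m + n, by push_cast; rfl⟩

lemma ZZ_neg {a : ℝ} (ha : a ∈ ZZ) : -a ∈ ZZ := by
  obtain ⟨m, rfl⟩ := ha
  exact ⟨-m, by push_cast; rfl⟩

lemma ZZ_near {a b : ℝ} (ha : a ∈ ZZ) (hb : b ∈ ZZ) (h : |a - b| < 1) : a = b := by
  obtain ⟨m, rfl⟩ := ha
  obtain ⟨n, rfl⟩ := hb
  have : |m - n| < 1 := by exact_mod_cast h
  have : m = n := by rw [Int.abs_lt_one_iff] at this; omega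
  rw [this]

/-- the point p of the surface has parameters q -/
def Rel (Λ τ1 τ2 : Y3 → ℝ) (U1 U2 : Set Y3) (q : ℝ × ℝ) (p : Y3) : Prop :=
  (0 < p.2.1 ∧ Λ p = 0) ∧ p.1 = q.1 ∧ (p ∈ U1 → τ1 p - q.2 ∈ ZZ) ∧ (p ∈ U2 → τ2 p - q.2 ∈ ZZ)

lemma Rel_swap {Λ τ1 τ2 : Y3 → ℝ} {U1 U2 : Set Y3} {q : ℝ × ℝ} {p : Y3} :
    Rel Λ τ1 τ2 U1 U2 q p ↔ Rel Λ τ2 τ1 U2 U1 q p := by
  unfold Rel; tauto

/-- a smooth local section through a related pair -/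
def Sect (R : ℝ × ℝ → Y3 → Prop) (C : ℝ) (q0 : ℝ × ℝ) (p0 : Y3) : Prop :=
  ∃ σ : ℝ × ℝ → Y3, ContDiffAt ℝ (⊤ : ℕ∞) σ q0 ∧ σ q0 = p0 ∧ (∀ᶠ q in 𝓝 q0, R q (σ q)) ∧
    (∀ᶠ x in 𝓝 (q0, p0), R x.1 x.2 → x.2 = σ x.1) ∧
    Injective (fderiv ℝ σ q0) ∧ ‖fderiv ℝ σ q0‖ ≤ C

lemma sect_one {Λ τ1 τ2 : Y3 → ℝ} {U1 U2 : Set Y3} {C : ℝ} (hC : 0 ≤ C) (hU1 : IsOpen U1)
    (hΛ : ContDiff ℝ (⊤ : ℕ∞) Λ) (hτ : ∀ p : Y3, 0 < p.2.1 → ContDiffAt ℝ (⊤ : ℕ∞) τ1 p)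
    (hJ : ∀ p : Y3, 0 < p.2.1 → Λ p = 0 → p ∈ U1 →
      ∀ v : Y3, ‖v‖ ≤ C * ‖((v.1, fderiv ℝ Λ p v, fderiv ℝ τ1 p v) : Y3)‖)
    (hov : ∀ p : Y3, 0 < p.2.1 → Λ p = 0 → p ∈ U1 → p ∈ U2 → τ2 p - τ1 p ∈ ZZ)
    {q0 : ℝ × ℝ} {p0 : Y3} (hR : Rel Λ τ1 τ2 U1 U2 q0 p0) (h1 : p0 ∈ U1) :
    Sect (Rel Λ τ1 τ2 U1 U2) C q0 p0 := by
  obtain ⟨⟨hr, h0⟩, hq1, hz, -⟩ := hR
  have hk := hz h1
  set k := τ1 p0 - q0.2 with hkdef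
  have hq0 : (p0.1, τ1 p0 - k) = q0 := by rw [hq1, hkdef]; simp
  obtain ⟨σ, c1, c2, c3, c4, c5, c6⟩ := chart hC hΛ.contDiffAt (hτ p0 hr) h0 (hJ p0 hr h0 h1) k
  rw [hq0] at c1 c2 c3 c5 c6
  have ht : Tendsto σ (𝓝 q0) (𝓝 p0) := c2 ▸ c1.continuousAt.tendsto
  have hrr : ∀ᶠ p : Y3 in 𝓝 p0, 0 < p.2.1 :=
    continuousAt_const.eventually_lt (by fun_prop) hr
  refine ⟨σ, c1, c2, ?_, ?_, c5, c6⟩
  · filter_upwards [c3, ht.eventually hrr, ht.eventually (hU1.mem_nhds h1)] with q d1 d2 d3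
    refine ⟨⟨d2, d1.2.1⟩, d1.1, fun _ => d1.2.2 ▸ hk, fun h => ?_⟩
    have := ZZ_add (hov _ d2 d1.2.1 d3 h) (d1.2.2 ▸ hk)
    simpa using this
  · have t2 : Tendsto (fun x : (ℝ × ℝ) × Y3 => x.2) (𝓝 (q0, p0)) (𝓝 p0) := continuous_snd.tendsto _
    have hc : ContinuousAt (fun x : (ℝ × ℝ) × Y3 => |τ1 x.2 - x.1.2 - k|) (q0, p0) := by
      have : ContinuousAt (fun x : (ℝ × ℝ) × Y3 => τ1 x.2) (q0, p0) :=
        ContinuousAt.comp (g := τ1) (hτ p0 hr).continuousAt continuous_snd.continuousAt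
      fun_prop
    have hlt : ∀ᶠ x : (ℝ × ℝ) × Y3 in 𝓝 (q0, p0), |τ1 x.2 - x.1.2 - k| < 1 :=
      hc.eventually_lt continuousAt_const (by simp [hkdef])
    filter_upwards [t2.eventually c4, t2.eventually (hU1.mem_nhds h1), hlt] with x d1 d2 d3 hx
    have e1 := ZZ_near (hx.2.2.1 d2) hk d3
    have e2 : (x.2.1, τ1 x.2 - k) = x.1 := by
      rw [hx.2.1, ← e1]; simp
    rw [← e2]; exact (d1 hx.1.2).symm

lemma rel_closed {Λ τ1 τ2 : Y3 → ℝ} {U1 U2 : Set Y3} (hU1 : IsOpen U1) (hU2 : IsOpen U2)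
    (hΛ : Continuous Λ) (hτ1 : ∀ p : Y3, 0 < p.2.1 → ContinuousAt τ1 p)
    (hτ2 : ∀ p : Y3, 0 < p.2.1 → ContinuousAt τ2 p) {r0 : ℝ} (hr0 : 0 < r0)
    (hK : ∀ p : Y3, 0 < p.2.1 → Λ p = 0 → r0 ≤ p.2.1) :
    IsClosed {x : (ℝ × ℝ) × Y3 | Rel Λ τ1 τ2 U1 U2 x.1 x.2} := by
  rw [isClosed_iff_frequently]
  intro x hx
  have h1 : r0 ≤ x.2.2.1 := by
    refine isClosed_Ici.mem_of_frequently_of_tendsto (f := fun y : (ℝ × ℝ) × Y3 => y.2.2.1)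
      (hx.mono fun y hy => hK _ hy.1.1 hy.1.2) (Continuous.tendsto (by fun_prop) _)
  have hr : 0 < x.2.2.1 := by linarith
  have key : ∀ (τ : Y3 → ℝ) (U : Set Y3), IsOpen U → ContinuousAt τ x.2 →
      (∃ᶠ y : (ℝ × ℝ) × Y3 in 𝓝 x, y.2 ∈ U → τ y.2 - y.1.2 ∈ ZZ) → x.2 ∈ U →
      τ x.2 - x.1.2 ∈ ZZ := by
    intro τ U hU hτ hf hxU
    have t2 : Tendsto (fun y : (ℝ × ℝ) × Y3 => y.2) (𝓝 x) (𝓝 x.2) := continuous_snd.tendsto _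
    refine ZZ_closed.mem_of_frequently_of_tendsto
      (f := fun y : (ℝ × ℝ) × Y3 => τ y.2 - y.1.2)
      ((hf.and_eventually (t2.eventually (hU.mem_nhds hxU))).mono fun y hy => hy.1 hy.2) ?_
    have : ContinuousAt (fun y : (ℝ × ℝ) × Y3 => τ y.2) x :=
      ContinuousAt.comp (g := τ) hτ continuous_snd.continuousAt
    exact ContinuousAt.tendsto (by fun_prop)
  refine ⟨⟨hr, ?_⟩, ?_, ?_, ?_⟩
  · have : Λ x.2 ∈ ({0} : Set ℝ) := isClosed_singleton.mem_of_frequently_of_tendsto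
      (f := fun y : (ℝ × ℝ) × Y3 => Λ y.2) (hx.mono fun y hy => hy.1.2)
      (Continuous.tendsto (by fun_prop) _)
    exact this
  · have : x.2.1 - x.1.1 ∈ ({0} : Set ℝ) := isClosed_singleton.mem_of_frequently_of_tendsto
      (f := fun y : (ℝ × ℝ) × Y3 => y.2.1 - y.1.1) (hx.mono fun y hy => sub_eq_zero.2 hy.2.1)
      (Continuous.tendsto (by fun_prop) _)
    exact sub_eq_zero.1 this
  · exact key τ1 U1 hU1 (hτ1 _ hr) (hx.mono fun y hy => hy.2.2.1)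
  · exact key τ2 U2 hU2 (hτ2 _ hr) (hx.mono fun y hy => hy.2.2.2)

theorem global_section {R : ℝ × ℝ → Y3 → Prop} {C : ℝ} {K : Set (ℝ × ℝ)} (hK : IsCompact K)
    (hcl : IsClosed {x : (ℝ × ℝ) × Y3 | R x.1 x.2}) (hRK : ∀ q p, R q p → p.1 = q.1 ∧ p.2 ∈ K)
    (hs : ∀ q p, R q p → Sect R C q p) (hne : ∃ q p, R q p)
    (hfib : ∃ q, ∀ p p', R q p → R q p' → p = p') :
    ∃ F : ℝ × ℝ → Y3, (∀ q, R q (F q)) ∧ (∀ q p, R q p → p = F q) ∧ ContDiff ℝ (⊤ : ℕ∞) F ∧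
      (∀ q, Injective (fderiv ℝ F q)) ∧ ∀ q, ‖fderiv ℝ F q‖ ≤ C := by
  have : CompactSpace K := isCompact_iff_compactSpace.1 hK
  have hE : IsClopen {q | ∃ p, R q p} := by
    constructor
    · have : {q | ∃ p, R q p} =
          Prod.fst '' {x : (ℝ × ℝ) × K | R x.1 (x.1.1, (x.2 : ℝ × ℝ))} := by
        ext q; constructor
        · rintro ⟨p, hp⟩
          refine ⟨(q, ⟨p.2, (hRK q p hp).2⟩), ?_, rfl⟩
          show R q (q.1, p.2)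
          rw [← (hRK q p hp).1]; exact hp
        · rintro ⟨x, hx, rfl⟩; exact ⟨_, hx⟩
      rw [this]
      apply isClosedMap_fst_of_compactSpace
      exact hcl.preimage (f := fun x : (ℝ × ℝ) × K => (x.1, ((x.1.1, (x.2 : ℝ × ℝ)) : Y3)))
        (by fun_prop)
    · rw [isOpen_iff_mem_nhds]
      rintro q ⟨p, hp⟩
      obtain ⟨σ, -, -, h, -⟩ := hs q p hp
      exact h.mono fun q' h' => ⟨_, h'⟩
  have hD : IsClosed {x : (ℝ × ℝ) × Y3 × Y3 | R x.1 x.2.1 ∧ R x.1 x.2.2 ∧ x.2.1 ≠ x.2.2} := by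
    rw [isClosed_iff_frequently]
    intro x hx
    have t1 : Tendsto (fun y : (ℝ × ℝ) × Y3 × Y3 => (y.1, y.2.1)) (𝓝 x) (𝓝 (x.1, x.2.1)) :=
      Continuous.tendsto (by fun_prop) _
    have t2 : Tendsto (fun y : (ℝ × ℝ) × Y3 × Y3 => (y.1, y.2.2)) (𝓝 x) (𝓝 (x.1, x.2.2)) :=
      Continuous.tendsto (by fun_prop) _
    have h1 : R x.1 x.2.1 := hcl.mem_of_frequently_of_tendsto (hx.mono fun y hy => hy.1) t1
    have h2 : R x.1 x.2.2 := hcl.mem_of_frequently_of_tendsto (hx.mono fun y hy => hy.2.1) t2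
    refine ⟨h1, h2, fun he => ?_⟩
    obtain ⟨σ, -, -, -, h, -⟩ := hs _ _ h1
    have h' := t1.eventually h
    rw [he] at h
    obtain ⟨y, hy, e1, e2⟩ := (hx.and_eventually (h'.and (t2.eventually h))).exists
    exact hy.2.2 ((e1 hy.1).trans (e2 hy.2.1).symm)
  have hA : IsClopen {q | ∃ p p', R q p ∧ R q p' ∧ p ≠ p'} := by
    constructor
    · have : {q | ∃ p p', R q p ∧ R q p' ∧ p ≠ p'} =
          Prod.fst '' {x : (ℝ × ℝ) × K × K | R x.1 (x.1.1, (x.2.1 : ℝ × ℝ)) ∧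
            R x.1 (x.1.1, (x.2.2 : ℝ × ℝ)) ∧
            ((x.1.1, (x.2.1 : ℝ × ℝ)) : Y3) ≠ (x.1.1, (x.2.2 : ℝ × ℝ))} := by
        ext q; constructor
        · rintro ⟨p, p', hp, hp', hne⟩
          refine ⟨(q, ⟨p.2, (hRK q p hp).2⟩, ⟨p'.2, (hRK q p' hp').2⟩), ?_, rfl⟩
          have e1 : ((q.1, p.2) : Y3) = p := by rw [← (hRK q p hp).1]
          have e2 : ((q.1, p'.2) : Y3) = p' := by rw [← (hRK q p' hp').1]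
          show R q (q.1, p.2) ∧ R q (q.1, p'.2) ∧ ((q.1, p.2) : Y3) ≠ (q.1, p'.2)
          rw [e1, e2]; exact ⟨hp, hp', hne⟩
        · rintro ⟨x, hx, rfl⟩; exact ⟨_, _, hx⟩
      rw [this]
      apply isClosedMap_fst_of_compactSpace
      exact hD.preimage (f := fun x : (ℝ × ℝ) × K × K =>
        (x.1, ((x.1.1, (x.2.1 : ℝ × ℝ)) : Y3), ((x.1.1, (x.2.2 : ℝ × ℝ)) : Y3))) (by fun_prop)
    · rw [isOpen_iff_mem_nhds]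
      rintro q ⟨p, p', hp, hp', hne⟩
      obtain ⟨σ, c1, c2, h, -⟩ := hs q p hp
      obtain ⟨σ', c1', c2', h', -⟩ := hs q p' hp'
      have hne' : ∀ᶠ y in 𝓝 q, σ y ≠ σ' y :=
        (c1.continuousAt.ne_iff_eventually_ne c1'.continuousAt).1 (by rw [c2, c2']; exact hne)
      filter_upwards [h, h', hne'] with y d1 d2 d3
      exact ⟨_, _, d1, d2, d3⟩
  have hall : ∀ q, ∃ p, R q p := by
    rcases isClopen_iff.1 hE with h | h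
    · obtain ⟨q, p, hp⟩ := hne
      have : q ∈ {q | ∃ p, R q p} := ⟨p, hp⟩
      rw [h] at this; exact this.elim
    · intro q
      have : q ∈ {q | ∃ p, R q p} := h ▸ mem_univ q
      exact this
  have huniq : ∀ q p p', R q p → R q p' → p = p' := by
    rcases isClopen_iff.1 hA with h | h
    · intro q p p' h1 h2
      by_contra hne
      have : q ∈ {q | ∃ p p', R q p ∧ R q p' ∧ p ≠ p'} := ⟨p, p', h1, h2, hne⟩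
      rw [h] at this; exact this.elim
    · obtain ⟨q, hq⟩ := hfib
      have : q ∈ {q | ∃ p p', R q p ∧ R q p' ∧ p ≠ p'} := h ▸ mem_univ q
      obtain ⟨p, p', h1, h2, h3⟩ := this
      exact absurd (hq p p' h1 h2) h3
  choose F hF using hall
  have hloc : ∀ q, ∃ σ : ℝ × ℝ → Y3, F =ᶠ[𝓝 q] σ ∧ ContDiffAt ℝ (⊤ : ℕ∞) σ q ∧
      Injective (fderiv ℝ σ q) ∧ ‖fderiv ℝ σ q‖ ≤ C := by
    intro q
    obtain ⟨σ, c1, -, c3, -, c5, c6⟩ := hs q _ (hF q)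
    exact ⟨σ, c3.mono fun y hy => huniq y _ _ (hF y) hy, c1, c5, c6⟩
  refine ⟨F, hF, fun q p h => huniq q _ _ h (hF q), contDiff_iff_contDiffAt.2 fun q => ?_,
    fun q => ?_, fun q => ?_⟩
  · obtain ⟨σ, e, c, -⟩ := hloc q
    exact c.congr_of_eventuallyEq e
  · obtain ⟨σ, e, -, c, -⟩ := hloc q
    rw [e.fderiv_eq]; exact c
  · obtain ⟨σ, e, -, -, c⟩ := hloc q
    rw [e.fderiv_eq]; exact c

theorem param {Λ τ1 τ2 : Y3 → ℝ} {U1 U2 : Set Y3} {C : ℝ} (hC : 0 ≤ C) (hU1 : IsOpen U1)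
    (hU2 : IsOpen U2) (hU : ∀ p, p ∈ U1 ∨ p ∈ U2) (hΛ : ContDiff ℝ (⊤ : ℕ∞) Λ)
    (hτ1 : ∀ p : Y3, 0 < p.2.1 → ContDiffAt ℝ (⊤ : ℕ∞) τ1 p)
    (hτ2 : ∀ p : Y3, 0 < p.2.1 → ContDiffAt ℝ (⊤ : ℕ∞) τ2 p)
    (hJ1 : ∀ p : Y3, 0 < p.2.1 → Λ p = 0 → p ∈ U1 →
      ∀ v : Y3, ‖v‖ ≤ C * ‖((v.1, fderiv ℝ Λ p v, fderiv ℝ τ1 p v) : Y3)‖)
    (hJ2 : ∀ p : Y3, 0 < p.2.1 → Λ p = 0 → p ∈ U2 →
      ∀ v : Y3, ‖v‖ ≤ C * ‖((v.1, fderiv ℝ Λ p v, fderiv ℝ τ2 p v) : Y3)‖)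
    (hov : ∀ p : Y3, 0 < p.2.1 → Λ p = 0 → p ∈ U1 → p ∈ U2 → τ2 p - τ1 p ∈ ZZ)
    {r0 r1 z1 : ℝ} (hr0 : 0 < r0)
    (hK : ∀ p : Y3, 0 < p.2.1 → Λ p = 0 → p.2 ∈ Icc r0 r1 ×ˢ Icc (-z1) z1)
    (hne : ∃ p : Y3, 0 < p.2.1 ∧ Λ p = 0)
    (hfib : ∃ q, ∀ p p', Rel Λ τ1 τ2 U1 U2 q p → Rel Λ τ1 τ2 U1 U2 q p' → p = p') :
    ∃ F : ℝ × ℝ → Y3, (∀ q, Rel Λ τ1 τ2 U1 U2 q (F q)) ∧
      (∀ q p, Rel Λ τ1 τ2 U1 U2 q p → p = F q) ∧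
      (∀ p : Y3, 0 < p.2.1 → Λ p = 0 → ∃ s, F (p.1, s) = p) ∧ ContDiff ℝ (⊤ : ℕ∞) F ∧
      (∀ q, Injective (fderiv ℝ F q)) ∧ ∀ q, ‖fderiv ℝ F q‖ ≤ C := by
  have hov' : ∀ p : Y3, 0 < p.2.1 → Λ p = 0 → p ∈ U2 → p ∈ U1 → τ1 p - τ2 p ∈ ZZ := by
    intro p h1 h2 h3 h4
    simpa using ZZ_neg (hov p h1 h2 h4 h3)
  have h0 : (0 : ℝ) ∈ ZZ := ⟨0, by simp⟩
  have hex : ∀ p : Y3, 0 < p.2.1 → Λ p = 0 → ∃ s, Rel Λ τ1 τ2 U1 U2 (p.1, s) p := by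
    intro p h1 h2
    rcases hU p with h | h
    · exact ⟨τ1 p, ⟨h1, h2⟩, rfl, fun _ => by simpa using h0, fun h' => hov p h1 h2 h h'⟩
    · exact ⟨τ2 p, ⟨h1, h2⟩, rfl, fun h' => hov' p h1 h2 h h', fun _ => by simpa using h0⟩
  obtain ⟨F, f1, f2, f3, f4, f5⟩ := global_section (R := Rel Λ τ1 τ2 U1 U2) (C := C)
    (isCompact_Icc.prod isCompact_Icc)
    (rel_closed hU1 hU2 hΛ.continuous (fun p h => (hτ1 p h).continuousAt)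
      (fun p h => (hτ2 p h).continuousAt) hr0 fun p h1 h2 => (hK p h1 h2).1.1)
    (fun q p h => ⟨h.2.1, hK p h.1.1 h.1.2⟩)
    (fun q p h => by
      rcases hU p with h' | h'
      · exact sect_one hC hU1 hΛ hτ1 hJ1 hov h h'
      · have := sect_one hC hU2 hΛ hτ2 hJ2 hov' (Rel_swap.1 h) h'
        have e : Rel Λ τ2 τ1 U2 U1 = Rel Λ τ1 τ2 U1 U2 := by
          funext q p; exact propext Rel_swap
        rwa [e] at this)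
    (by obtain ⟨p, h1, h2⟩ := hne; obtain ⟨s, hs⟩ := hex p h1 h2; exact ⟨_, p, hs⟩) hfib
  refine ⟨F, f1, f2, fun p h1 h2 => ?_, f3, f4, f5⟩
  obtain ⟨s, hs⟩ := hex p h1 h2
  exact ⟨s, (f2 _ _ hs).symm⟩

end Pool.Agent.Lib.MP_d88725_gt
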