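import Pool.Agent.Lib.MP_d88725_gt.Defs
import Pool.Agent.Lib.MP_d88725_gt.Param

set_option autoImplicit false
set_option linter.unusedVariables false

namespace Pool.Agent.Lib.MP_d88725_gt

open Set Filter Topology Real

/-- cylindrical coordinates -/
noncomputable def cy : Co Y3 :=
  ⟨fun p => p.2.1 * cos (2 * π * p.1), fun p => p.2.1 * sin (2 * π * p.1), fun p => p.2.2⟩

/-- the radius -/
def rr : Y3 → ℝ := fun p => p.2.1

lemma cy_sm : cy.Sm := by
  refine ⟨?_, ?_, ?_⟩ <;> simp only [cy] <;> fun_prop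

lemma rr_cd : ContDiff ℝ (⊤ : ℕ∞) rr := by unfold rr; fun_prop

/-- value at the origin of the tangent affine function in the meridian plane -/
noncomputable def al (f : Y3 → ℝ) (p : Y3) : ℝ := f p - fderiv ℝ f p (0, p.2.1, p.2.2)

/-- height derivative -/
noncomputable def be (f : Y3 → ℝ) (p : Y3) : ℝ := fderiv ℝ f p (0, 0, 1)

/-- a linear functional of the phase -/
noncomputable def Fn (s t : ℝ) (f : Y3 → ℝ) (p : Y3) : ℝ := s * al f p + t * be f p

variable {w s t c S : ℝ} {A B : Y3 → ℝ} {p : Y3}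

lemma conv_lb {θ x y c : ℝ} (h0 : 0 ≤ θ) (h1 : θ ≤ 1) (hx : θ ≠ 0 → c ≤ x) (hy : θ ≠ 1 → c ≤ y) :
    c ≤ θ * x + (1 - θ) * y := by
  by_cases a : θ = 0
  · have := hy (by rw [a]; norm_num); rw [a]; linarith
  · by_cases b : θ = 1
    · have := hx a; rw [b]; linarith
    · nlinarith [mul_le_mul_of_nonneg_left (hx a) h0,
        mul_le_mul_of_nonneg_left (hy b) (sub_nonneg.2 h1)]

lemma fderiv_MX (hw : 0 < w) (dA : Differentiable ℝ A) (dB : Differentiable ℝ B) :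
    fderiv ℝ (MX w A B) p =
      wt w (A p) (B p) • fderiv ℝ A p + (1 - wt w (A p) (B p)) • fderiv ℝ B p :=
  (MX_hasFDerivAt hw (dA p).hasFDerivAt (dB p).hasFDerivAt).fderiv

lemma Fn_MX (hw : 0 < w) (dA : Differentiable ℝ A) (dB : Differentiable ℝ B) (hS : |s| ≤ S)
    (hA : B p < A p + w → c ≤ Fn s t A p) (hB : A p < B p + w → c ≤ Fn s t B p) :
    c - S * w ≤ Fn s t (MX w A B) p := by
  obtain ⟨d, d0, d1, hd⟩ := mx_err hw (A p) (B p)
  have h := conv_lb (wt_nonneg w (A p) (B p)) (wt_le_one w (A p) (B p))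
    (fun h => hA (by by_contra k; exact h (wt_zero hw (not_lt.1 k))))
    (fun h => hB (by by_contra k; exact h (wt_one hw (not_lt.1 k))))
  have e1 : Fn s t (MX w A B) p =
      wt w (A p) (B p) * Fn s t A p + (1 - wt w (A p) (B p)) * Fn s t B p + s * d := by
    unfold Fn al be
    rw [fderiv_MX hw dA dB]
    have : MX w A B p = mx w (A p) (B p) := rfl
    rw [this, hd]
    simp only [add_apply, smul_apply, smul_eq_mul]
    ring
  have h2 : -(S * w) ≤ s * d := by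
    have := abs_le.1 hS
    nlinarith [abs_nonneg s]
  linarith

lemma Fn_comb (dA : Differentiable ℝ A) (dB : Differentiable ℝ B) (k c : ℝ) :
    Fn s t (fun p => A p + k * B p + c) p = Fn s t A p + k * Fn s t B p + s * c := by
  have h : HasFDerivAt (fun p => A p + k * B p + c) (fderiv ℝ A p + k • fderiv ℝ B p) p :=
    ((dA p).hasFDerivAt.add ((dB p).hasFDerivAt.const_mul k)).add_const c
  unfold Fn al be
  rw [h.fderiv]
  simp only [add_apply, smul_apply, smul_eq_mul]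
  ring

lemma Fn_neg (A : Y3 → ℝ) : Fn s t (fun p => -A p) p = Fn (-s) (-t) A p := by
  unfold Fn al be
  rw [fderiv_fun_neg]
  simp only [neg_apply]
  ring

lemma Fn_MN (hw : 0 < w) (dA : Differentiable ℝ A) (dB : Differentiable ℝ B) (hS : |s| ≤ S)
    (hA : A p < B p + w → c ≤ Fn s t A p) (hB : B p < A p + w → c ≤ Fn s t B p) :
    c - S * w ≤ Fn s t (MN w A B) p := by
  rw [MN_eq, Fn_neg]
  refine Fn_MX hw dA.neg dB.neg (by rwa [abs_neg]) (fun h => ?_) fun h => ?_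
  · rw [Fn_neg, neg_neg, neg_neg]; exact hA (by linarith)
  · rw [Fn_neg, neg_neg, neg_neg]; exact hB (by linarith)

lemma be_MX (hw : 0 < w) (dA : Differentiable ℝ A) (dB : Differentiable ℝ B) {N : ℝ}
    (hA : |be A p| ≤ N) (hB : |be B p| ≤ N) : |be (MX w A B) p| ≤ N := by
  have h1 := Fn_MX (s := 0) (t := 1) (S := 0) (c := -N) (p := p) hw dA dB (by simp)
    (fun _ => by simpa [Fn] using (abs_le.1 hA).1) (fun _ => by simpa [Fn] using (abs_le.1 hB).1)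
  have h2 := Fn_MX (s := 0) (t := -1) (S := 0) (c := -N) (p := p) hw dA dB (by simp)
    (fun _ => by simpa [Fn] using (abs_le.1 hA).2) (fun _ => by simpa [Fn] using (abs_le.1 hB).2)
  simp only [Fn] at h1 h2
  rw [abs_le]; constructor <;> linarith

lemma be_MN (hw : 0 < w) (dA : Differentiable ℝ A) (dB : Differentiable ℝ B) {N : ℝ}
    (hA : |be A p| ≤ N) (hB : |be B p| ≤ N) : |be (MN w A B) p| ≤ N := by
  have h1 := Fn_MN (s := 0) (t := 1) (S := 0) (c := -N) (p := p) hw dA dB (by simp)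
    (fun _ => by simpa [Fn] using (abs_le.1 hA).1) (fun _ => by simpa [Fn] using (abs_le.1 hB).1)
  have h2 := Fn_MN (s := 0) (t := -1) (S := 0) (c := -N) (p := p) hw dA dB (by simp)
    (fun _ => by simpa [Fn] using (abs_le.1 hA).2) (fun _ => by simpa [Fn] using (abs_le.1 hB).2)
  simp only [Fn] at h1 h2
  rw [abs_le]; constructor <;> linarith

lemma angle_hasFDerivAt (p : Y3) : HasFDerivAt (fun p : Y3 => 2 * π * p.1)
    ((2 * π) • ContinuousLinearMap.fst ℝ ℝ (ℝ × ℝ)) p := hasFDerivAt_fst.const_mul (2 * π)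

lemma rr_hasFDerivAt (p : Y3) : HasFDerivAt rr
    ((ContinuousLinearMap.fst ℝ ℝ ℝ).comp (ContinuousLinearMap.snd ℝ ℝ (ℝ × ℝ))) p :=
  hasFDerivAt_fst.comp p hasFDerivAt_snd

lemma fderiv_rr (p v : Y3) : fderiv ℝ rr p v = v.2.1 := by
  rw [(rr_hasFDerivAt p).fderiv]; rfl

lemma fderiv_Z (p v : Y3) : fderiv ℝ cy.Z p v = v.2.2 := by
  have : HasFDerivAt cy.Z
      ((ContinuousLinearMap.snd ℝ ℝ ℝ).comp (ContinuousLinearMap.snd ℝ ℝ (ℝ × ℝ))) p :=
    ((ContinuousLinearMap.snd ℝ ℝ ℝ).comp (ContinuousLinearMap.snd ℝ ℝ (ℝ × ℝ))).hasFDerivAt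
  rw [this.fderiv]; rfl

lemma fderiv_X (p v : Y3) : fderiv ℝ cy.X p v =
    v.2.1 * cos (2 * π * p.1) - p.2.1 * (2 * π) * sin (2 * π * p.1) * v.1 := by
  have h := (rr_hasFDerivAt p).mul (angle_hasFDerivAt p).cos
  have e : cy.X = rr * fun p : Y3 => cos (2 * π * p.1) := rfl
  rw [e, h.fderiv]
  simp [rr]
  ring

lemma fderiv_Y (p v : Y3) : fderiv ℝ cy.Y p v =
    v.2.1 * sin (2 * π * p.1) + p.2.1 * (2 * π) * cos (2 * π * p.1) * v.1 := by
  have h := (rr_hasFDerivAt p).mul (angle_hasFDerivAt p).sin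
  have e : cy.Y = rr * fun p : Y3 => sin (2 * π * p.1) := rfl
  rw [e, h.fderiv]
  simp [rr]
  ring

lemma dX : Differentiable ℝ cy.X := cy_sm.1.differentiable (by simp)
lemma dY : Differentiable ℝ cy.Y := cy_sm.2.1.differentiable (by simp)
lemma dZ : Differentiable ℝ cy.Z := cy_sm.2.2.differentiable (by simp)
lemma drr : Differentiable ℝ rr := rr_cd.differentiable (by simp)

lemma fderiv_lf (c1 c2 c3 c0 : ℝ) (p : Y3) : fderiv ℝ (lf c1 c2 c3 c0 cy) p =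
    c1 • fderiv ℝ cy.X p + c2 • fderiv ℝ cy.Y p + c3 • fderiv ℝ cy.Z p :=
  (((((dX p).hasFDerivAt.const_mul c1).add ((dY p).hasFDerivAt.const_mul c2)).add
    ((dZ p).hasFDerivAt.const_mul c3)).add_const c0).fderiv

lemma Fn_lf (c1 c2 c3 c0 : ℝ) : Fn s t (lf c1 c2 c3 c0 cy) p = s * c0 + t * c3 := by
  unfold Fn al be
  rw [fderiv_lf]
  simp only [add_apply, smul_apply, smul_eq_mul, fderiv_X, fderiv_Y, fderiv_Z]
  simp only [lf, cy]
  ring

lemma be_lf (c1 c2 c3 c0 : ℝ) : be (lf c1 c2 c3 c0 cy) p = c3 := by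
  have := Fn_lf (s := 0) (t := 1) (p := p) c1 c2 c3 c0
  simpa [Fn] using this

lemma Fn_Z : Fn s t cy.Z p = t := by
  unfold Fn al be
  simp only [fderiv_Z]
  simp only [cy]; ring

lemma Fn_rr : Fn s t rr p = 0 := by
  unfold Fn al be
  simp only [fderiv_rr]
  simp only [rr]; ring

/-- the region containing all surfaces -/
def Box (p : Y3) : Prop := 1 / 8 ≤ p.2.1 ∧ p.2.1 ≤ 5 ∧ -1 ≤ p.2.2 ∧ p.2.2 ≤ 1

/-- uniform bounds for a family of functions and their derivatives -/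
def UB (F : ℝ → Y3 → ℝ) : Prop :=
  (∀ e, Differentiable ℝ (F e)) ∧ ∃ N : ℝ, ∀ e, 0 < e → e ≤ 1 → ∀ p, Box p →
    |F e p| ≤ N ∧ ‖fderiv ℝ (F e) p‖ ≤ N

lemma UB_MX {F G : ℝ → Y3 → ℝ} (hF : UB F) (hG : UB G) : UB fun e => MX e (F e) (G e) := by
  obtain ⟨dF, N, hF⟩ := hF
  obtain ⟨dG, M, hG⟩ := hG
  refine ⟨fun e => ?_, max N M + 1, fun e h0 h1 p hp => ?_⟩
  · unfold MX mx
    have h1 : Differentiable ℝ fun p => (F e p - G e p) / e := by
      simp only [div_eq_mul_inv]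
      exact ((dF e).sub (dG e)).mul_const _
    exact (dG e).add ((hinge_diff.comp h1).const_mul e)
  · obtain ⟨a1, a2⟩ := hF e h0 h1 p hp
    obtain ⟨b1, b2⟩ := hG e h0 h1 p hp
    have m1 := le_max_left N M
    have m2 := le_max_right N M
    constructor
    · have k1 : MX e (F e) (G e) p ≤ max N M + e :=
        mx_le h0 ((abs_le.1 a1).2.trans m1) ((abs_le.1 b1).2.trans m2)
      have k2 : F e p ≤ MX e (F e) (G e) p := le_mx_left h0 _ _
      have := (abs_le.1 a1).1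
      rw [abs_le]; constructor <;> linarith
    · show ‖fderiv ℝ (MX e (F e) (G e)) p‖ ≤ _
      rw [fderiv_MX h0 (dF e) (dG e)]
      have w0 := wt_nonneg e (F e p) (G e p)
      have w1 := sub_nonneg.2 (wt_le_one e (F e p) (G e p))
      refine (norm_add_le _ _).trans ?_
      rw [norm_smul, norm_smul, Real.norm_of_nonneg w0, Real.norm_of_nonneg w1]
      nlinarith [mul_le_mul_of_nonneg_left (a2.trans m1) w0,
        mul_le_mul_of_nonneg_left (b2.trans m2) w1]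

lemma UB_comb {F G : ℝ → Y3 → ℝ} (hF : UB F) (hG : UB G) (k c d : ℝ) :
    UB fun e p => F e p + k * G e p + (c + d * e) := by
  obtain ⟨dF, N, hF⟩ := hF
  obtain ⟨dG, M, hG⟩ := hG
  refine ⟨fun e => ((dF e).add ((dG e).const_mul k)).add_const _, N + |k| * M + (|c| + |d|),
    fun e h0 h1 p hp => ?_⟩
  obtain ⟨a1, a2⟩ := hF e h0 h1 p hp
  obtain ⟨b1, b2⟩ := hG e h0 h1 p hp
  have := abs_nonneg c
  have := abs_nonneg d
  constructor
  · refine (abs_add_le _ _).trans (add_le_add ((abs_add_le _ _).trans (add_le_add a1 ?_))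
      ((abs_add_le _ _).trans (add_le_add le_rfl ?_)))
    · rw [abs_mul]; exact mul_le_mul_of_nonneg_left b1 (abs_nonneg _)
    · rw [abs_mul, abs_of_pos h0]; nlinarith
  · have h : HasFDerivAt (fun p => F e p + k * G e p + (c + d * e))
        (fderiv ℝ (F e) p + k • fderiv ℝ (G e) p) p :=
      ((dF e p).hasFDerivAt.add ((dG e p).hasFDerivAt.const_mul k)).add_const _
    rw [h.fderiv]
    refine (norm_add_le _ _).trans ?_
    rw [norm_smul, Real.norm_eq_abs]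
    have := mul_le_mul_of_nonneg_left b2 (abs_nonneg k)
    linarith

lemma UB.congr {F G : ℝ → Y3 → ℝ} (hF : UB F) (h : ∀ e p, G e p = F e p) : UB G := by
  have : G = F := by funext e p; exact h e p
  rwa [this]

lemma UB_zero : UB fun _ _ => 0 :=
  ⟨fun _ => differentiable_const _, 0, fun e _ _ p _ => by simp⟩

lemma UB_neg {F : ℝ → Y3 → ℝ} (hF : UB F) : UB fun e p => -F e p :=
  (UB_comb UB_zero hF (-1) 0 0).congr fun e p => by ring

lemma UB_MN {F G : ℝ → Y3 → ℝ} (hF : UB F) (hG : UB G) : UB fun e => MN e (F e) (G e) :=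
  UB_neg (UB_MX (UB_neg hF) (UB_neg hG))

lemma Y3_comp (v : Y3) : |v.1| ≤ ‖v‖ ∧ |v.2.1| ≤ ‖v‖ ∧ |v.2.2| ≤ ‖v‖ :=
  ⟨norm_fst_le v, (norm_fst_le v.2).trans (norm_snd_le v), (norm_snd_le v.2).trans (norm_snd_le v)⟩

lemma trig_bound {a b r u v n : ℝ} (ha : |a| ≤ 1) (hb : |b| ≤ 1) (hr0 : 0 ≤ r) (hr : r ≤ 5)
    (hu : |u| ≤ n) (hv : |v| ≤ n) : |u * a + r * (2 * π) * b * v| ≤ 41 * n := by
  have hn : 0 ≤ n := (abs_nonneg u).trans hu
  have h1 : |u * a| ≤ n := by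
    rw [abs_mul]; nlinarith [abs_nonneg u, abs_nonneg a]
  have h2 : |b * v| ≤ n := by
    rw [abs_mul]; nlinarith [abs_nonneg b, abs_nonneg v]
  have h3 : r * (2 * π) ≤ 40 := by nlinarith [pi_le_four, pi_pos]
  have h4 : 0 ≤ r * (2 * π) := by positivity
  have h5 : |r * (2 * π) * b * v| ≤ 40 * n := by
    rw [mul_assoc, abs_mul, abs_of_nonneg h4]
    nlinarith [abs_nonneg (b * v)]
  linarith [abs_add_le (u * a) (r * (2 * π) * b * v)]

lemma norm_fderiv_X {p : Y3} (hp : Box p) : ‖fderiv ℝ cy.X p‖ ≤ 41 := by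
  refine ContinuousLinearMap.opNorm_le_bound _ (by norm_num) fun v => ?_
  rw [fderiv_X, Real.norm_eq_abs]
  have := trig_bound (abs_cos_le_one (2 * π * p.1)) (b := -sin (2 * π * p.1))
    (by rw [abs_neg]; exact abs_sin_le_one _) (by linarith [hp.1]) hp.2.1 (Y3_comp v).2.1
    (Y3_comp v).1
  have e : v.2.1 * cos (2 * π * p.1) - p.2.1 * (2 * π) * sin (2 * π * p.1) * v.1 =
    v.2.1 * cos (2 * π * p.1) + p.2.1 * (2 * π) * -sin (2 * π * p.1) * v.1 := by ring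
  rwa [e]

lemma norm_fderiv_Y {p : Y3} (hp : Box p) : ‖fderiv ℝ cy.Y p‖ ≤ 41 := by
  refine ContinuousLinearMap.opNorm_le_bound _ (by norm_num) fun v => ?_
  rw [fderiv_Y, Real.norm_eq_abs]
  exact trig_bound (abs_sin_le_one _) (abs_cos_le_one _) (by linarith [hp.1]) hp.2.1
    (Y3_comp v).2.1 (Y3_comp v).1

lemma norm_fderiv_Z (p : Y3) : ‖fderiv ℝ cy.Z p‖ ≤ 1 := by
  refine ContinuousLinearMap.opNorm_le_bound _ (by norm_num) fun v => ?_
  rw [fderiv_Z, Real.norm_eq_abs, one_mul]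
  exact (Y3_comp v).2.2

lemma UB_X : UB fun _ => cy.X := by
  refine ⟨fun _ => dX, 41, fun e _ _ p hp => ⟨?_, norm_fderiv_X hp⟩⟩
  simp only [cy]
  rw [abs_mul, abs_of_nonneg (by linarith [hp.1])]
  nlinarith [abs_cos_le_one (2 * π * p.1), abs_nonneg (cos (2 * π * p.1)), hp.1, hp.2.1]

lemma UB_Y : UB fun _ => cy.Y := by
  refine ⟨fun _ => dY, 41, fun e _ _ p hp => ⟨?_, norm_fderiv_Y hp⟩⟩
  simp only [cy]
  rw [abs_mul, abs_of_nonneg (by linarith [hp.1])]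
  nlinarith [abs_sin_le_one (2 * π * p.1), abs_nonneg (sin (2 * π * p.1)), hp.1, hp.2.1]

lemma UB_Z : UB fun _ => cy.Z :=
  ⟨fun _ => dZ, 1, fun e _ _ p hp => ⟨abs_le.2 ⟨hp.2.2.1, hp.2.2.2⟩, norm_fderiv_Z p⟩⟩

lemma UB_rr : UB fun _ => rr := by
  refine ⟨fun _ => drr, 5, fun e _ _ p hp => ⟨abs_le.2 ⟨le_trans (by norm_num) hp.1, hp.2.1⟩, ?_⟩⟩
  refine ContinuousLinearMap.opNorm_le_bound _ (by norm_num) fun v => ?_
  rw [fderiv_rr, Real.norm_eq_abs]
  linarith [(Y3_comp v).2.1, norm_nonneg v]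

lemma UB_lf (c1 c2 c3 c0 d : ℝ) {k : ℝ → ℝ} (hk : ∀ e, k e = c0 + d * e) :
    UB fun e => lf c1 c2 c3 (k e) cy :=
  (UB_comb (UB_comb (UB_comb UB_zero UB_X c1 0 0) UB_Y c2 0 0) UB_Z c3 c0 d).congr fun e p => by
    simp only [lf, hk]; ring

lemma inv_bound {L G : Y3 →L[ℝ] ℝ} {N c : ℝ} (hc : 0 < c) (hL : ‖L‖ ≤ N) (hG : ‖G‖ ≤ N)
    (hdet : c ≤ L (0, 1, 0) * G (0, 0, 1) - L (0, 0, 1) * G (0, 1, 0)) (v : Y3) :
    ‖v‖ ≤ (1 + 2 * N * (1 + N) / c) * ‖((v.1, L v, G v) : Y3)‖ := by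
  have hN : 0 ≤ N := (norm_nonneg L).trans hL
  obtain ⟨m1, m2, m3⟩ := Y3_comp ((v.1, L v, G v) : Y3)
  set m := ‖((v.1, L v, G v) : Y3)‖ with hm
  have hm0 : 0 ≤ m := norm_nonneg _
  simp only at m1 m2 m3
  have hv : v = v.1 • ((1, 0, 0) : Y3) + v.2.1 • ((0, 1, 0) : Y3) + v.2.2 • ((0, 0, 1) : Y3) := by
    ext <;> simp
  have bd : ∀ (K : Y3 →L[ℝ] ℝ) (u : Y3), ‖K‖ ≤ N → ‖u‖ ≤ 1 → |K u| ≤ N := by
    intro K u h1 h2
    have := K.le_opNorm u
    rw [Real.norm_eq_abs] at this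
    nlinarith [norm_nonneg K, norm_nonneg u]
  have n1 : ‖((1, 0, 0) : Y3)‖ ≤ 1 := by simp [Prod.norm_def]
  have n2 : ‖((0, 1, 0) : Y3)‖ ≤ 1 := by simp [Prod.norm_def]
  have n3 : ‖((0, 0, 1) : Y3)‖ ≤ 1 := by simp [Prod.norm_def]
  have eL : L v - v.1 * L (1, 0, 0) = v.2.1 * L (0, 1, 0) + v.2.2 * L (0, 0, 1) := by
    conv_lhs => rw [hv]
    simp only [map_add, map_smul, smul_eq_mul]
    simp
    ring
  have eG : G v - v.1 * G (1, 0, 0) = v.2.1 * G (0, 1, 0) + v.2.2 * G (0, 0, 1) := by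
    conv_lhs => rw [hv]
    simp only [map_add, map_smul, smul_eq_mul]
    simp
    ring
  have bU : ∀ (x y : ℝ), |x| ≤ m → |y| ≤ N → |x - v.1 * y| ≤ (1 + N) * m := by
    intro x y hx hy
    have : |v.1 * y| ≤ m * N := by
      rw [abs_mul]; exact mul_le_mul m1 hy (abs_nonneg _) hm0
    have := abs_sub x (v.1 * y)
    linarith
  have u1 := bU _ _ m2 (bd L _ hL n1)
  have u2 := bU _ _ m3 (bd G _ hG n1)
  set D := L (0, 1, 0) * G (0, 0, 1) - L (0, 0, 1) * G (0, 1, 0) with hD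
  have fin : ∀ (x a b : ℝ), |a| ≤ N → |b| ≤ N →
      x * D = a * (L v - v.1 * L (1, 0, 0)) + b * (G v - v.1 * G (1, 0, 0)) →
      |x| ≤ (1 + 2 * N * (1 + N) / c) * m := by
    intro x a b ha hb h
    have k1 : |a * (L v - v.1 * L (1, 0, 0))| ≤ N * ((1 + N) * m) := by
      rw [abs_mul]; exact mul_le_mul ha u1 (abs_nonneg _) hN
    have k2 : |b * (G v - v.1 * G (1, 0, 0))| ≤ N * ((1 + N) * m) := by
      rw [abs_mul]; exact mul_le_mul hb u2 (abs_nonneg _) hN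
    have k3 : |x| * c ≤ 2 * N * (1 + N) * m := by
      have k4 : |x * D| ≤ 2 * N * (1 + N) * m := by
        rw [h]; linarith [abs_add_le (a * (L v - v.1 * L (1, 0, 0))) (b * (G v - v.1 * G (1, 0, 0)))]
      rw [abs_mul, abs_of_pos (by linarith : 0 < D)] at k4
      nlinarith [abs_nonneg x]
    have k5 : |x| ≤ 2 * N * (1 + N) * m / c := by rwa [le_div_iff₀ hc]
    have : 2 * N * (1 + N) * m / c = 2 * N * (1 + N) / c * m := by ring
    linarith
  have r1 := fin v.2.1 (G (0, 0, 1)) (-L (0, 0, 1)) (bd G _ hG n3)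
    (by rw [abs_neg]; exact bd L _ hL n3) (by rw [eL, eG, hD]; ring)
  have r2 := fin v.2.2 (-G (0, 1, 0)) (L (0, 1, 0)) (by rw [abs_neg]; exact bd G _ hG n2)
    (bd L _ hL n2) (by rw [eL, eG, hD]; ring)
  have r0 : |v.1| ≤ (1 + 2 * N * (1 + N) / c) * m := by
    have : 0 ≤ 2 * N * (1 + N) / c * m := by positivity
    linarith
  rw [Prod.norm_def, Prod.norm_def]
  exact max_le r0 (max_le r1 r2)

end Pool.Agent.Lib.MP_d88725_gt
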