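import Pool.Agent.Lib.MP_d88725_gt.Tight
import Pool.Agent.Lib.MP_d88725_gt.Approx

set_option autoImplicit false
set_option linter.unusedVariables false
set_option linter.unusedSimpArgs false

namespace Pool.Agent.Lib.MP_d88725_gt

open Set

/-- integer coordinates of the seven vertices -/
def vc : Fin 7 → Fin 3 → ℤ :=
  ![![-1, 0, 0], ![-2, -1, 1], ![4, -3, -1], ![3, -1, -1], ![3, 1, 1], ![4, 3, 1], ![-2, 1, -1]]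

/-- the seven vertices -/
noncomputable def vv (i : Fin 7) : E3 := WithLp.toLp 2 fun t => (vc i t : ℝ)

/-- the fourteen faces -/
def fc : Fin 14 → Finset (Fin 7) :=
  ![{0, 1, 3}, {1, 2, 4}, {2, 3, 5}, {3, 4, 6}, {4, 5, 0}, {5, 6, 1}, {6, 0, 2}, {0, 2, 3}, {1, 3, 4}, {2, 4, 5}, {3, 5, 6}, {4, 6, 0}, {5, 0, 1}, {6, 1, 2}]

/-- membership in the polyhedral torus -/
def PP (x : E3) : Prop := ∃ k : Fin 14, x ∈ convexHull ℝ (vv '' (fc k : Set (Fin 7)))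

lemma tri_iff (a b c : Fin 7) (x : E3) :
    x ∈ convexHull ℝ (vv '' (({a, b, c} : Finset (Fin 7)) : Set (Fin 7))) ↔
      ∃ α β γ : ℝ, 0 ≤ α ∧ 0 ≤ β ∧ 0 ≤ γ ∧ α + β + γ = 1 ∧
        x 0 = α * vc a 0 + β * vc b 0 + γ * vc c 0 ∧ x 1 = α * vc a 1 + β * vc b 1 + γ * vc c 1 ∧
        x 2 = α * vc a 2 + β * vc b 2 + γ * vc c 2 := by
  constructor
  · intro h
    refine convexHull_min (t := {x : E3 | ∃ α β γ : ℝ, 0 ≤ α ∧ 0 ≤ β ∧ 0 ≤ γ ∧ α + β + γ = 1 ∧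
        x 0 = α * vc a 0 + β * vc b 0 + γ * vc c 0 ∧ x 1 = α * vc a 1 + β * vc b 1 + γ * vc c 1 ∧
        x 2 = α * vc a 2 + β * vc b 2 + γ * vc c 2}) ?_ ?_ h
    · rintro _ ⟨i, hi, rfl⟩
      simp only [Finset.coe_insert, Finset.coe_singleton, mem_insert_iff, mem_singleton_iff] at hi
      rcases hi with rfl | rfl | rfl
      · exact ⟨1, 0, 0, by norm_num, le_rfl, le_rfl, by norm_num, by simp [vv], by simp [vv],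
          by simp [vv]⟩
      · exact ⟨0, 1, 0, le_rfl, by norm_num, le_rfl, by norm_num, by simp [vv], by simp [vv],
          by simp [vv]⟩
      · exact ⟨0, 0, 1, le_rfl, le_rfl, by norm_num, by norm_num, by simp [vv], by simp [vv],
          by simp [vv]⟩
    · rintro x ⟨α, β, γ, h1, h2, h3, h4, h5, h6, h7⟩ y ⟨α', β', γ', k1, k2, k3, k4, k5, k6, k7⟩
        s t hs ht hst
      refine ⟨s * α + t * α', s * β + t * β', s * γ + t * γ', by positivity, by positivity,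
        by positivity, by linear_combination s * h4 + t * k4 + hst, ?_, ?_, ?_⟩
      · simp only [PiLp.add_apply, PiLp.smul_apply, smul_eq_mul, h5, k5]; ring
      · simp only [PiLp.add_apply, PiLp.smul_apply, smul_eq_mul, h6, k6]; ring
      · simp only [PiLp.add_apply, PiLp.smul_apply, smul_eq_mul, h7, k7]; ring
  · rintro ⟨α, β, γ, h1, h2, h3, h4, h5, h6, h7⟩
    have m : ∀ i ∈ ({a, b, c} : Finset (Fin 7)), vv i ∈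
        convexHull ℝ (vv '' (({a, b, c} : Finset (Fin 7)) : Set (Fin 7))) :=
      fun i hi => subset_convexHull _ _ ⟨i, hi, rfl⟩
    have := (convex_convexHull ℝ (vv '' (({a, b, c} : Finset (Fin 7)) : Set (Fin 7)))).sum_mem
      (t := Finset.univ) (w := ![α, β, γ]) (z := ![vv a, vv b, vv c])
      (fun i _ => by fin_cases i <;> simpa) (by simpa [Fin.sum_univ_three] using h4)
      (fun i _ => by fin_cases i <;> exact m _ (by simp))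
    have e : x = ∑ i : Fin 3, ![α, β, γ] i • ![vv a, vv b, vv c] i := by
      ext t
      fin_cases t <;> simp [Fin.sum_univ_three, vv, h5, h6, h7]
    rwa [e]

lemma vc00 : ((vc 0 0 : ℤ) : ℝ) = -1 := by
  rw [show vc 0 0 = -1 from rfl]; norm_num
lemma vc01 : ((vc 0 1 : ℤ) : ℝ) = 0 := by
  rw [show vc 0 1 = 0 from rfl]; norm_num
lemma vc02 : ((vc 0 2 : ℤ) : ℝ) = 0 := by
  rw [show vc 0 2 = 0 from rfl]; norm_num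
lemma vc10 : ((vc 1 0 : ℤ) : ℝ) = -2 := by
  rw [show vc 1 0 = -2 from rfl]; norm_num
lemma vc11 : ((vc 1 1 : ℤ) : ℝ) = -1 := by
  rw [show vc 1 1 = -1 from rfl]; norm_num
lemma vc12 : ((vc 1 2 : ℤ) : ℝ) = 1 := by
  rw [show vc 1 2 = 1 from rfl]; norm_num
lemma vc20 : ((vc 2 0 : ℤ) : ℝ) = 4 := by
  rw [show vc 2 0 = 4 from rfl]; norm_num
lemma vc21 : ((vc 2 1 : ℤ) : ℝ) = -3 := by
  rw [show vc 2 1 = -3 from rfl]; norm_num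
lemma vc22 : ((vc 2 2 : ℤ) : ℝ) = -1 := by
  rw [show vc 2 2 = -1 from rfl]; norm_num
lemma vc30 : ((vc 3 0 : ℤ) : ℝ) = 3 := by
  rw [show vc 3 0 = 3 from rfl]; norm_num
lemma vc31 : ((vc 3 1 : ℤ) : ℝ) = -1 := by
  rw [show vc 3 1 = -1 from rfl]; norm_num
lemma vc32 : ((vc 3 2 : ℤ) : ℝ) = -1 := by
  rw [show vc 3 2 = -1 from rfl]; norm_num
lemma vc40 : ((vc 4 0 : ℤ) : ℝ) = 3 := by
  rw [show vc 4 0 = 3 from rfl]; norm_num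
lemma vc41 : ((vc 4 1 : ℤ) : ℝ) = 1 := by
  rw [show vc 4 1 = 1 from rfl]; norm_num
lemma vc42 : ((vc 4 2 : ℤ) : ℝ) = 1 := by
  rw [show vc 4 2 = 1 from rfl]; norm_num
lemma vc50 : ((vc 5 0 : ℤ) : ℝ) = 4 := by
  rw [show vc 5 0 = 4 from rfl]; norm_num
lemma vc51 : ((vc 5 1 : ℤ) : ℝ) = 3 := by
  rw [show vc 5 1 = 3 from rfl]; norm_num
lemma vc52 : ((vc 5 2 : ℤ) : ℝ) = 1 := by
  rw [show vc 5 2 = 1 from rfl]; norm_num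
lemma vc60 : ((vc 6 0 : ℤ) : ℝ) = -2 := by
  rw [show vc 6 0 = -2 from rfl]; norm_num
lemma vc61 : ((vc 6 1 : ℤ) : ℝ) = 1 := by
  rw [show vc 6 1 = 1 from rfl]; norm_num
lemma vc62 : ((vc 6 2 : ℤ) : ℝ) = -1 := by
  rw [show vc 6 2 = -1 from rfl]; norm_num

lemma face0 {x : E3} (h1 : 2 * x 0 + 3 * x 1 + 5 * x 2 + 2 ≤ 0) (h2 : 0 ≤ 2 * x 0 + 3 * x 1 + 5 * x 2 + 2)
    (h3 : 0 ≤ (-1) * x 0 + (-(1 / 2)) * x 1 + (-(5 / 2)) * x 2 + 0) (h4 : 0 ≤ (1 / 2) * x 0 + (1 / 4) * x 1 + (7 / 4) * x 2 + (1 / 2))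
    (h5 : 0 ≤ 1 * x 0 + 1 * x 1 + 2 * x 2 + 1) : PP x := by
  refine ⟨0, (tri_iff 0 1 3 x).2 ⟨_, _, _, h3, h4, h5, ?_, ?_, ?_, ?_⟩⟩ <;>
    simp only [vc00, vc01, vc02, vc10, vc11, vc12, vc30, vc31, vc32] <;> linarith

lemma face1 {x : E3} (h1 : 2 * x 0 + (-5) * x 1 + 11 * x 2 + (-12) ≤ 0) (h2 : 0 ≤ 2 * x 0 + (-5) * x 1 + 11 * x 2 + (-12))
    (h3 : 0 ≤ (-(1 / 4)) * x 0 + (1 / 8) * x 1 + (-(3 / 8)) * x 2 + 1) (h4 : 0 ≤ 0 * x 0 + 0 * x 1 + (-(1 / 2)) * x 2 + (1 / 2))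
    (h5 : 0 ≤ (1 / 2) * x 0 + (-(3 / 4)) * x 1 + (9 / 4) * x 2 + (-2)) : PP x := by
  refine ⟨1, (tri_iff 1 2 4 x).2 ⟨_, _, _, h3, h4, h5, ?_, ?_, ?_, ?_⟩⟩ <;>
    simp only [vc10, vc11, vc12, vc20, vc21, vc22, vc40, vc41, vc42] <;> linarith

lemma face2 {x : E3} (h1 : 2 * x 0 + 1 * x 1 + (-3) * x 2 + (-8) ≤ 0) (h2 : 0 ≤ 2 * x 0 + 1 * x 1 + (-3) * x 2 + (-8))
    (h3 : 0 ≤ (1 / 2) * x 0 + (-(1 / 4)) * x 1 + (1 / 4) * x 2 + (-(3 / 2))) (h4 : 0 ≤ (-(1 / 2)) * x 0 + (1 / 4) * x 1 + (-(3 / 4)) * x 2 + 2)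
    (h5 : 0 ≤ (1 / 2) * x 0 + (1 / 4) * x 1 + (-(1 / 4)) * x 2 + (-(3 / 2))) : PP x := by
  refine ⟨2, (tri_iff 2 3 5 x).2 ⟨_, _, _, h3, h4, h5, ?_, ?_, ?_, ?_⟩⟩ <;>
    simp only [vc20, vc21, vc22, vc30, vc31, vc32, vc50, vc51, vc52] <;> linarith

lemma face3 {x : E3} (h1 : (-2) * x 0 + (-5) * x 1 + 5 * x 2 + 6 ≤ 0) (h2 : 0 ≤ (-2) * x 0 + (-5) * x 1 + 5 * x 2 + 6)
    (h3 : 0 ≤ (1 / 2) * x 0 + (3 / 4) * x 1 + (-(5 / 4)) * x 2 + (-1)) (h4 : 0 ≤ 0 * x 0 + 0 * x 1 + (1 / 2) * x 2 + (1 / 2))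
    (h5 : 0 ≤ (-(1 / 4)) * x 0 + (-(1 / 8)) * x 1 + (1 / 8) * x 2 + (3 / 4)) : PP x := by
  refine ⟨3, (tri_iff 3 4 6 x).2 ⟨_, _, _, h3, h4, h5, ?_, ?_, ?_, ?_⟩⟩ <;>
    simp only [vc30, vc31, vc32, vc40, vc41, vc42, vc60, vc61, vc62] <;> linarith

lemma face4 {x : E3} (h1 : (-2) * x 0 + 1 * x 1 + 7 * x 2 + (-2) ≤ 0) (h2 : 0 ≤ (-2) * x 0 + 1 * x 1 + 7 * x 2 + (-2))
    (h3 : 0 ≤ 1 * x 0 + (-1) * x 1 + (-2) * x 2 + 1) (h4 : 0 ≤ (-(1 / 2)) * x 0 + (3 / 4) * x 1 + (5 / 4) * x 2 + (-(1 / 2)))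
    (h5 : 0 ≤ (-1) * x 0 + (1 / 2) * x 1 + (5 / 2) * x 2 + 0) : PP x := by
  refine ⟨4, (tri_iff 4 5 0 x).2 ⟨_, _, _, h3, h4, h5, ?_, ?_, ?_, ?_⟩⟩ <;>
    simp only [vc40, vc41, vc42, vc50, vc51, vc52, vc00, vc01, vc02] <;> linarith

lemma face5 {x : E3} (h1 : (-2) * x 0 + 3 * x 1 + 3 * x 2 + (-4) ≤ 0) (h2 : 0 ≤ (-2) * x 0 + 3 * x 1 + 3 * x 2 + (-4))
    (h3 : 0 ≤ 0 * x 0 + (1 / 4) * x 1 + (1 / 4) * x 2 + 0) (h4 : 0 ≤ (-(1 / 2)) * x 0 + (3 / 4) * x 1 + (1 / 4) * x 2 + (-(1 / 2)))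
    (h5 : 0 ≤ (-(1 / 2)) * x 0 + (1 / 2) * x 1 + 1 * x 2 + (-(1 / 2))) : PP x := by
  refine ⟨5, (tri_iff 5 6 1 x).2 ⟨_, _, _, h3, h4, h5, ?_, ?_, ?_, ?_⟩⟩ <;>
    simp only [vc50, vc51, vc52, vc60, vc61, vc62, vc10, vc11, vc12] <;> linarith

lemma face6 {x : E3} (h1 : 2 * x 0 + 3 * x 1 + 1 * x 2 + 2 ≤ 0) (h2 : 0 ≤ 2 * x 0 + 3 * x 1 + 1 * x 2 + 2)
    (h3 : 0 ≤ (-(1 / 2)) * x 0 + (-(1 / 2)) * x 1 + (-1) * x 2 + (-(1 / 2))) (h4 : 0 ≤ 1 * x 0 + (3 / 2) * x 1 + (3 / 2) * x 2 + 2)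
    (h5 : 0 ≤ 0 * x 0 + (-(1 / 4)) * x 1 + (-(1 / 4)) * x 2 + 0) : PP x := by
  refine ⟨6, (tri_iff 6 0 2 x).2 ⟨_, _, _, h3, h4, h5, ?_, ?_, ?_, ?_⟩⟩ <;>
    simp only [vc60, vc61, vc62, vc00, vc01, vc02, vc20, vc21, vc22] <;> linarith

lemma face7 {x : E3} (h1 : (-2) * x 0 + (-1) * x 1 + (-7) * x 2 + (-2) ≤ 0) (h2 : 0 ≤ (-2) * x 0 + (-1) * x 1 + (-7) * x 2 + (-2))
    (h3 : 0 ≤ (-1) * x 0 + (-(1 / 2)) * x 1 + (-(5 / 2)) * x 2 + 0) (h4 : 0 ≤ (-(1 / 2)) * x 0 + (-(3 / 4)) * x 1 + (-(5 / 4)) * x 2 + (-(1 / 2)))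
    (h5 : 0 ≤ 1 * x 0 + 1 * x 1 + 2 * x 2 + 1) : PP x := by
  refine ⟨7, (tri_iff 0 2 3 x).2 ⟨_, _, _, h3, h4, h5, ?_, ?_, ?_, ?_⟩⟩ <;>
    simp only [vc00, vc01, vc02, vc20, vc21, vc22, vc30, vc31, vc32] <;> linarith

lemma face8 {x : E3} (h1 : (-2) * x 0 + 5 * x 1 + (-5) * x 2 + 6 ≤ 0) (h2 : 0 ≤ (-2) * x 0 + 5 * x 1 + (-5) * x 2 + 6)
    (h3 : 0 ≤ (-(1 / 4)) * x 0 + (1 / 8) * x 1 + (-(1 / 8)) * x 2 + (3 / 4)) (h4 : 0 ≤ 0 * x 0 + 0 * x 1 + (-(1 / 2)) * x 2 + (1 / 2))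
    (h5 : 0 ≤ (1 / 2) * x 0 + (-(3 / 4)) * x 1 + (5 / 4) * x 2 + (-1)) : PP x := by
  refine ⟨8, (tri_iff 1 3 4 x).2 ⟨_, _, _, h3, h4, h5, ?_, ?_, ?_, ?_⟩⟩ <;>
    simp only [vc10, vc11, vc12, vc30, vc31, vc32, vc40, vc41, vc42] <;> linarith

lemma face9 {x : E3} (h1 : 2 * x 0 + (-1) * x 1 + 3 * x 2 + (-8) ≤ 0) (h2 : 0 ≤ 2 * x 0 + (-1) * x 1 + 3 * x 2 + (-8))
    (h3 : 0 ≤ (1 / 2) * x 0 + (-(1 / 4)) * x 1 + (1 / 4) * x 2 + (-(3 / 2))) (h4 : 0 ≤ (-(1 / 2)) * x 0 + (-(1 / 4)) * x 1 + (3 / 4) * x 2 + 2)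
    (h5 : 0 ≤ (1 / 2) * x 0 + (1 / 4) * x 1 + (-(1 / 4)) * x 2 + (-(3 / 2))) : PP x := by
  refine ⟨9, (tri_iff 2 4 5 x).2 ⟨_, _, _, h3, h4, h5, ?_, ?_, ?_, ?_⟩⟩ <;>
    simp only [vc20, vc21, vc22, vc40, vc41, vc42, vc50, vc51, vc52] <;> linarith

lemma face10 {x : E3} (h1 : 2 * x 0 + 5 * x 1 + (-11) * x 2 + (-12) ≤ 0) (h2 : 0 ≤ 2 * x 0 + 5 * x 1 + (-11) * x 2 + (-12))
    (h3 : 0 ≤ (1 / 2) * x 0 + (3 / 4) * x 1 + (-(9 / 4)) * x 2 + (-2)) (h4 : 0 ≤ 0 * x 0 + 0 * x 1 + (1 / 2) * x 2 + (1 / 2))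
    (h5 : 0 ≤ (-(1 / 4)) * x 0 + (-(1 / 8)) * x 1 + (3 / 8) * x 2 + 1) : PP x := by
  refine ⟨10, (tri_iff 3 5 6 x).2 ⟨_, _, _, h3, h4, h5, ?_, ?_, ?_, ?_⟩⟩ <;>
    simp only [vc30, vc31, vc32, vc50, vc51, vc52, vc60, vc61, vc62] <;> linarith

lemma face11 {x : E3} (h1 : 2 * x 0 + (-3) * x 1 + (-5) * x 2 + 2 ≤ 0) (h2 : 0 ≤ 2 * x 0 + (-3) * x 1 + (-5) * x 2 + 2)
    (h3 : 0 ≤ 1 * x 0 + (-1) * x 1 + (-2) * x 2 + 1) (h4 : 0 ≤ (1 / 2) * x 0 + (-(1 / 4)) * x 1 + (-(7 / 4)) * x 2 + (1 / 2))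
    (h5 : 0 ≤ (-1) * x 0 + (1 / 2) * x 1 + (5 / 2) * x 2 + 0) : PP x := by
  refine ⟨11, (tri_iff 4 6 0 x).2 ⟨_, _, _, h3, h4, h5, ?_, ?_, ?_, ?_⟩⟩ <;>
    simp only [vc40, vc41, vc42, vc60, vc61, vc62, vc00, vc01, vc02] <;> linarith

lemma face12 {x : E3} (h1 : 2 * x 0 + (-3) * x 1 + (-1) * x 2 + 2 ≤ 0) (h2 : 0 ≤ 2 * x 0 + (-3) * x 1 + (-1) * x 2 + 2)
    (h3 : 0 ≤ 0 * x 0 + (1 / 4) * x 1 + (1 / 4) * x 2 + 0) (h4 : 0 ≤ 1 * x 0 + (-(3 / 2)) * x 1 + (-(3 / 2)) * x 2 + 2)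
    (h5 : 0 ≤ (-(1 / 2)) * x 0 + (1 / 2) * x 1 + 1 * x 2 + (-(1 / 2))) : PP x := by
  refine ⟨12, (tri_iff 5 0 1 x).2 ⟨_, _, _, h3, h4, h5, ?_, ?_, ?_, ?_⟩⟩ <;>
    simp only [vc50, vc51, vc52, vc00, vc01, vc02, vc10, vc11, vc12] <;> linarith

lemma face13 {x : E3} (h1 : (-2) * x 0 + (-3) * x 1 + (-3) * x 2 + (-4) ≤ 0) (h2 : 0 ≤ (-2) * x 0 + (-3) * x 1 + (-3) * x 2 + (-4))
    (h3 : 0 ≤ (-(1 / 2)) * x 0 + (-(1 / 2)) * x 1 + (-1) * x 2 + (-(1 / 2))) (h4 : 0 ≤ (-(1 / 2)) * x 0 + (-(3 / 4)) * x 1 + (-(1 / 4)) * x 2 + (-(1 / 2)))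
    (h5 : 0 ≤ 0 * x 0 + (-(1 / 4)) * x 1 + (-(1 / 4)) * x 2 + 0) : PP x := by
  refine ⟨13, (tri_iff 6 1 2 x).2 ⟨_, _, _, h3, h4, h5, ?_, ?_, ?_, ?_⟩⟩ <;>
    simp only [vc60, vc61, vc62, vc10, vc11, vc12, vc20, vc21, vc22] <;> linarith

variable {V : Type*} {c : Co V} {p : V}

lemma LL0_le : LL0 c p ≤ 0 → InB 0 c p ∧ (Le1 0 c p 0 ∨ Le2 0 c p 0) := by
  simp only [LL0, InB, Le1, Le2, max_le_iff, min_le_iff]
  tauto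

lemma LL0_ge : 0 ≤ LL0 c p → (0 ≤ G1 0 c p ∨ 0 ≤ G2 0 c p ∨ 0 ≤ G3 0 c p ∨ 0 ≤ G4 0 c p ∨
    0 ≤ G5 0 c p ∨ 0 ≤ G6 0 c p) ∨ (0 ≤ TP 0 c p ∨ 0 ≤ TM 0 c p) ∨
    (Ge1 0 c p 0 ∧ Ge2 0 c p 0) := by
  simp only [LL0, Ge1, Ge2, le_max_iff, le_min_iff]
  tauto

lemma hull_face {x : E3} (hB : InB 0 ce x) (h : 0 ≤ G1 0 ce x ∨ 0 ≤ G2 0 ce x ∨ 0 ≤ G3 0 ce x ∨
    0 ≤ G4 0 ce x ∨ 0 ≤ G5 0 ce x ∨ 0 ≤ G6 0 ce x) : PP x := by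
  simp only [InB, Ge1, Ge2, Le1, Le2, A0, A1, A2, A3, A4, A5, A6, A7, G1, G2, G3, G4, G5, G6, TP, TM, lf, ce] at *
  obtain ⟨g1, g2, g3, g4, g5, g6, g7, g8⟩ := hB
  rcases h with h | h | h | h | h | h
  · exact face1 (by linarith) (by linarith) (by linarith) (by linarith) (by linarith)
  · exact face2 (by linarith) (by linarith) (by linarith) (by linarith) (by linarith)
  · exact face5 (by linarith) (by linarith) (by linarith) (by linarith) (by linarith)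
  · exact face10 (by linarith) (by linarith) (by linarith) (by linarith) (by linarith)
  · exact face9 (by linarith) (by linarith) (by linarith) (by linarith) (by linarith)
  · exact face13 (by linarith) (by linarith) (by linarith) (by linarith) (by linarith)

lemma top_face (hB : InB 0 c p) (h : 0 ≤ TP 0 c p ∨ 0 ≤ TM 0 c p)
    (h' : Le1 0 c p 0 ∨ Le2 0 c p 0) : 0 ≤ G1 0 c p ∨ 0 ≤ G2 0 c p ∨ 0 ≤ G3 0 c p ∨
    0 ≤ G4 0 c p ∨ 0 ≤ G5 0 c p ∨ 0 ≤ G6 0 c p := by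
  by_contra k
  simp only [not_or, not_le] at k
  obtain ⟨k1, k2, k3, k4, k5, k6⟩ := k
  simp only [InB, Ge1, Ge2, Le1, Le2, A0, A1, A2, A3, A4, A5, A6, A7, G1, G2, G3, G4, G5, G6, TP, TM, lf] at *
  obtain ⟨g1, g2, g3, g4, g5, g6, g7, g8⟩ := hB
  rcases h with h | h <;> rcases h' with ⟨a | a, b | b⟩ | ⟨a | a, b | b⟩ <;> linarith

lemma inner_face {x : E3} (hB : InB 0 ce x) (h1 : Ge1 0 ce x 0) (h2 : Ge2 0 ce x 0)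
    (h' : Le1 0 ce x 0 ∨ Le2 0 ce x 0) : PP x := by
  simp only [InB, Ge1, Ge2, Le1, Le2, A0, A1, A2, A3, A4, A5, A6, A7, G1, G2, G3, G4, G5, G6, TP, TM, lf, ce] at *
  obtain ⟨g1, g2, g3, g4, g5, g6, g7, g8⟩ := hB
  rcases h1 with ⟨u1, u2⟩ | ⟨u1, u2⟩ <;> rcases h2 with ⟨v1, v2⟩ | ⟨v1, v2⟩ <;>
    rcases h' with ⟨a | a, b | b⟩ | ⟨a | a, b | b⟩
  · exact face0 (by linarith) (by linarith) (by linarith) (by linarith) (by linarith)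
  · exact face0 (by linarith) (by linarith) (by linarith) (by linarith) (by linarith)
  · exact face8 (by linarith) (by linarith) (by linarith) (by linarith) (by linarith)
  · exact face8 (by linarith) (by linarith) (by linarith) (by linarith) (by linarith)
  · exact face11 (by linarith) (by linarith) (by linarith) (by linarith) (by linarith)
  · exact face11 (by linarith) (by linarith) (by linarith) (by linarith) (by linarith)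
  · exact face3 (by linarith) (by linarith) (by linarith) (by linarith) (by linarith)
  · exact face3 (by linarith) (by linarith) (by linarith) (by linarith) (by linarith)
  · exact face0 (by linarith) (by linarith) (by linarith) (by linarith) (by linarith)
  · exact face0 (by linarith) (by linarith) (by linarith) (by linarith) (by linarith)
  · exact face8 (by linarith) (by linarith) (by linarith) (by linarith) (by linarith)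
  · exact face8 (by linarith) (by linarith) (by linarith) (by linarith) (by linarith)
  · exact face12 (by linarith) (by linarith) (by linarith) (by linarith) (by linarith)
  · exact face4 (by linarith) (by linarith) (by linarith) (by linarith) (by linarith)
  · exact face12 (by linarith) (by linarith) (by linarith) (by linarith) (by linarith)
  · exact face4 (by linarith) (by linarith) (by linarith) (by linarith) (by linarith)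
  · exact face6 (by linarith) (by linarith) (by linarith) (by linarith) (by linarith)
  · exact face7 (by linarith) (by linarith) (by linarith) (by linarith) (by linarith)
  · exact face6 (by linarith) (by linarith) (by linarith) (by linarith) (by linarith)
  · exact face7 (by linarith) (by linarith) (by linarith) (by linarith) (by linarith)
  · exact face11 (by linarith) (by linarith) (by linarith) (by linarith) (by linarith)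
  · exact face11 (by linarith) (by linarith) (by linarith) (by linarith) (by linarith)
  · exact face3 (by linarith) (by linarith) (by linarith) (by linarith) (by linarith)
  · exact face3 (by linarith) (by linarith) (by linarith) (by linarith) (by linarith)
  · exact face0 (by linarith) (by linarith) (by linarith) (by linarith) (by linarith)
  · exact face0 (by linarith) (by linarith) (by linarith) (by linarith) (by linarith)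
  · exfalso; linarith
  · exfalso; linarith
  · exact face0 (by linarith) (by linarith) (by linarith) (by linarith) (by linarith)
  · exact face0 (by linarith) (by linarith) (by linarith) (by linarith) (by linarith)
  · exfalso; linarith
  · exfalso; linarith

theorem PP_of_LL0 {x : E3} (h : LL0 ce x = 0) : PP x := by
  obtain ⟨hB, hL⟩ := LL0_le h.le
  rcases LL0_ge h.ge with k | k | ⟨k1, k2⟩
  · exact hull_face hB k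
  · exact hull_face hB (top_face hB k hL)
  · exact inner_face hB k1 k2 hL

lemma pos0 {m1 m2 m3 s : ℝ} (h1 : 0 ≤ m1) (h2 : 0 ≤ m2) (h3 : 0 ≤ m3) (hs : 0 < s)
    (hm : m1 + m2 + m3 + s = 1)
    (hX : c.X p = m1 * (-1) + m2 * (-2) + m3 * 3 + s * (1 / 30))
    (hY : c.Y p = m1 * 0 + m2 * (-1) + m3 * (-1) + s * (-(37 / 60)))
    (hZ : c.Z p = m1 * 0 + m2 * 1 + m3 * (-1) + s * (1 / 12)) :
    0 < LL0 c p := by
  by_contra k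
  obtain ⟨hB, hL⟩ := LL0_le (not_lt.1 k)
  simp only [InB, Ge1, Ge2, Le1, Le2, A0, A1, A2, A3, A4, A5, A6, A7, G1, G2, G3, G4, G5, G6, TP, TM, lf, hX, hY, hZ] at hB hL
  obtain ⟨g1, g2, g3, g4, g5, g6, g7, g8⟩ := hB
  rcases hL with ⟨a | a, b | b⟩ | ⟨a | a, b | b⟩ <;> linarith

lemma neg0 {m1 m2 m3 s : ℝ} (h1 : 0 ≤ m1) (h2 : 0 ≤ m2) (h3 : 0 ≤ m3) (hs : 0 < s)
    (hm : m1 + m2 + m3 + s = 1)
    (hX : c.X p = m1 * (-1) + m2 * (-2) + m3 * 3 + s * (-(1 / 30)))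
    (hY : c.Y p = m1 * 0 + m2 * (-1) + m3 * (-1) + s * (-(43 / 60)))
    (hZ : c.Z p = m1 * 0 + m2 * 1 + m3 * (-1) + s * (-(1 / 12))) :
    LL0 c p < 0 := by
  by_contra k
  have hL := LL0_ge (not_lt.1 k)
  simp only [InB, Ge1, Ge2, Le1, Le2, A0, A1, A2, A3, A4, A5, A6, A7, G1, G2, G3, G4, G5, G6, TP, TM, lf, hX, hY, hZ] at hL
  rcases hL with (a | a | a | a | a | a) | (a | a) | ⟨⟨a, b⟩ | ⟨a, b⟩, ⟨u, v⟩ | ⟨u, v⟩⟩ <;> linarith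

lemma pos1 {m1 m2 m3 s : ℝ} (h1 : 0 ≤ m1) (h2 : 0 ≤ m2) (h3 : 0 ≤ m3) (hs : 0 < s)
    (hm : m1 + m2 + m3 + s = 1)
    (hX : c.X p = m1 * (-2) + m2 * 4 + m3 * 3 + s * (26 / 15))
    (hY : c.Y p = m1 * (-1) + m2 * (-3) + m3 * 1 + s * (-(7 / 6)))
    (hZ : c.Z p = m1 * 1 + m2 * (-1) + m3 * 1 + s * (7 / 10)) :
    0 < LL0 c p := by
  by_contra k
  obtain ⟨hB, hL⟩ := LL0_le (not_lt.1 k)
  simp only [InB, Ge1, Ge2, Le1, Le2, A0, A1, A2, A3, A4, A5, A6, A7, G1, G2, G3, G4, G5, G6, TP, TM, lf, hX, hY, hZ] at hB hL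
  obtain ⟨g1, g2, g3, g4, g5, g6, g7, g8⟩ := hB
  rcases hL with ⟨a | a, b | b⟩ | ⟨a | a, b | b⟩ <;> linarith

lemma neg1 {m1 m2 m3 s : ℝ} (h1 : 0 ≤ m1) (h2 : 0 ≤ m2) (h3 : 0 ≤ m3) (hs : 0 < s)
    (hm : m1 + m2 + m3 + s = 1)
    (hX : c.X p = m1 * (-2) + m2 * 4 + m3 * 3 + s * (8 / 5))
    (hY : c.Y p = m1 * (-1) + m2 * (-3) + m3 * 1 + s * (-(5 / 6)))
    (hZ : c.Z p = m1 * 1 + m2 * (-1) + m3 * 1 + s * (-(1 / 30))) :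
    LL0 c p < 0 := by
  by_contra k
  have hL := LL0_ge (not_lt.1 k)
  simp only [InB, Ge1, Ge2, Le1, Le2, A0, A1, A2, A3, A4, A5, A6, A7, G1, G2, G3, G4, G5, G6, TP, TM, lf, hX, hY, hZ] at hL
  rcases hL with (a | a | a | a | a | a) | (a | a) | ⟨⟨a, b⟩ | ⟨a, b⟩, ⟨u, v⟩ | ⟨u, v⟩⟩ <;> linarith

lemma pos2 {m1 m2 m3 s : ℝ} (h1 : 0 ≤ m1) (h2 : 0 ≤ m2) (h3 : 0 ≤ m3) (hs : 0 < s)
    (hm : m1 + m2 + m3 + s = 1)
    (hX : c.X p = m1 * 4 + m2 * 3 + m3 * 4 + s * (56 / 15))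
    (hY : c.Y p = m1 * (-3) + m2 * (-1) + m3 * 3 + s * (-(3 / 10)))
    (hZ : c.Z p = m1 * (-1) + m2 * (-1) + m3 * 1 + s * (-(13 / 30))) :
    0 < LL0 c p := by
  by_contra k
  obtain ⟨hB, hL⟩ := LL0_le (not_lt.1 k)
  simp only [InB, Ge1, Ge2, Le1, Le2, A0, A1, A2, A3, A4, A5, A6, A7, G1, G2, G3, G4, G5, G6, TP, TM, lf, hX, hY, hZ] at hB hL
  obtain ⟨g1, g2, g3, g4, g5, g6, g7, g8⟩ := hB
  rcases hL with ⟨a | a, b | b⟩ | ⟨a | a, b | b⟩ <;> linarith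

lemma neg2 {m1 m2 m3 s : ℝ} (h1 : 0 ≤ m1) (h2 : 0 ≤ m2) (h3 : 0 ≤ m3) (hs : 0 < s)
    (hm : m1 + m2 + m3 + s = 1)
    (hX : c.X p = m1 * 4 + m2 * 3 + m3 * 4 + s * (18 / 5))
    (hY : c.Y p = m1 * (-3) + m2 * (-1) + m3 * 3 + s * (-(11 / 30)))
    (hZ : c.Z p = m1 * (-1) + m2 * (-1) + m3 * 1 + s * (-(7 / 30))) :
    LL0 c p < 0 := by
  by_contra k
  have hL := LL0_ge (not_lt.1 k)
  simp only [InB, Ge1, Ge2, Le1, Le2, A0, A1, A2, A3, A4, A5, A6, A7, G1, G2, G3, G4, G5, G6, TP, TM, lf, hX, hY, hZ] at hL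
  rcases hL with (a | a | a | a | a | a) | (a | a) | ⟨⟨a, b⟩ | ⟨a, b⟩, ⟨u, v⟩ | ⟨u, v⟩⟩ <;> linarith

lemma pos3 {m1 m2 m3 s : ℝ} (h1 : 0 ≤ m1) (h2 : 0 ≤ m2) (h3 : 0 ≤ m3) (hs : 0 < s)
    (hm : m1 + m2 + m3 + s = 1)
    (hX : c.X p = m1 * 3 + m2 * 3 + m3 * (-2) + s * (19 / 15))
    (hY : c.Y p = m1 * (-1) + m2 * 1 + m3 * 1 + s * (1 / 6))
    (hZ : c.Z p = m1 * (-1) + m2 * 1 + m3 * (-1) + s * (-(1 / 6))) :
    0 < LL0 c p := by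
  by_contra k
  obtain ⟨hB, hL⟩ := LL0_le (not_lt.1 k)
  simp only [InB, Ge1, Ge2, Le1, Le2, A0, A1, A2, A3, A4, A5, A6, A7, G1, G2, G3, G4, G5, G6, TP, TM, lf, hX, hY, hZ] at hB hL
  obtain ⟨g1, g2, g3, g4, g5, g6, g7, g8⟩ := hB
  rcases hL with ⟨a | a, b | b⟩ | ⟨a | a, b | b⟩ <;> linarith

lemma neg3 {m1 m2 m3 s : ℝ} (h1 : 0 ≤ m1) (h2 : 0 ≤ m2) (h3 : 0 ≤ m3) (hs : 0 < s)
    (hm : m1 + m2 + m3 + s = 1)
    (hX : c.X p = m1 * 3 + m2 * 3 + m3 * (-2) + s * (7 / 5))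
    (hY : c.Y p = m1 * (-1) + m2 * 1 + m3 * 1 + s * (1 / 2))
    (hZ : c.Z p = m1 * (-1) + m2 * 1 + m3 * (-1) + s * (-(1 / 2))) :
    LL0 c p < 0 := by
  by_contra k
  have hL := LL0_ge (not_lt.1 k)
  simp only [InB, Ge1, Ge2, Le1, Le2, A0, A1, A2, A3, A4, A5, A6, A7, G1, G2, G3, G4, G5, G6, TP, TM, lf, hX, hY, hZ] at hL
  rcases hL with (a | a | a | a | a | a) | (a | a) | ⟨⟨a, b⟩ | ⟨a, b⟩, ⟨u, v⟩ | ⟨u, v⟩⟩ <;> linarith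

lemma pos4 {m1 m2 m3 s : ℝ} (h1 : 0 ≤ m1) (h2 : 0 ≤ m2) (h3 : 0 ≤ m3) (hs : 0 < s)
    (hm : m1 + m2 + m3 + s = 1)
    (hX : c.X p = m1 * 3 + m2 * 4 + m3 * (-1) + s * (59 / 30))
    (hY : c.Y p = m1 * 1 + m2 * 3 + m3 * 0 + s * (27 / 20))
    (hZ : c.Z p = m1 * 1 + m2 * 1 + m3 * 0 + s * (47 / 60)) :
    0 < LL0 c p := by
  by_contra k
  obtain ⟨hB, hL⟩ := LL0_le (not_lt.1 k)
  simp only [InB, Ge1, Ge2, Le1, Le2, A0, A1, A2, A3, A4, A5, A6, A7, G1, G2, G3, G4, G5, G6, TP, TM, lf, hX, hY, hZ] at hB hL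
  obtain ⟨g1, g2, g3, g4, g5, g6, g7, g8⟩ := hB
  rcases hL with ⟨a | a, b | b⟩ | ⟨a | a, b | b⟩ <;> linarith

lemma neg4 {m1 m2 m3 s : ℝ} (h1 : 0 ≤ m1) (h2 : 0 ≤ m2) (h3 : 0 ≤ m3) (hs : 0 < s)
    (hm : m1 + m2 + m3 + s = 1)
    (hX : c.X p = m1 * 3 + m2 * 4 + m3 * (-1) + s * (61 / 30))
    (hY : c.Y p = m1 * 1 + m2 * 3 + m3 * 0 + s * (79 / 60))
    (hZ : c.Z p = m1 * 1 + m2 * 1 + m3 * 0 + s * (11 / 20)) :
    LL0 c p < 0 := by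
  by_contra k
  have hL := LL0_ge (not_lt.1 k)
  simp only [InB, Ge1, Ge2, Le1, Le2, A0, A1, A2, A3, A4, A5, A6, A7, G1, G2, G3, G4, G5, G6, TP, TM, lf, hX, hY, hZ] at hL
  rcases hL with (a | a | a | a | a | a) | (a | a) | ⟨⟨a, b⟩ | ⟨a, b⟩, ⟨u, v⟩ | ⟨u, v⟩⟩ <;> linarith

lemma pos5 {m1 m2 m3 s : ℝ} (h1 : 0 ≤ m1) (h2 : 0 ≤ m2) (h3 : 0 ≤ m3) (hs : 0 < s)
    (hm : m1 + m2 + m3 + s = 1)
    (hX : c.X p = m1 * 4 + m2 * (-2) + m3 * (-2) + s * (-(1 / 15)))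
    (hY : c.Y p = m1 * 3 + m2 * 1 + m3 * (-1) + s * (11 / 10))
    (hZ : c.Z p = m1 * 1 + m2 * (-1) + m3 * 1 + s * (13 / 30)) :
    0 < LL0 c p := by
  by_contra k
  obtain ⟨hB, hL⟩ := LL0_le (not_lt.1 k)
  simp only [InB, Ge1, Ge2, Le1, Le2, A0, A1, A2, A3, A4, A5, A6, A7, G1, G2, G3, G4, G5, G6, TP, TM, lf, hX, hY, hZ] at hB hL
  obtain ⟨g1, g2, g3, g4, g5, g6, g7, g8⟩ := hB
  rcases hL with ⟨a | a, b | b⟩ | ⟨a | a, b | b⟩ <;> linarith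

lemma neg5 {m1 m2 m3 s : ℝ} (h1 : 0 ≤ m1) (h2 : 0 ≤ m2) (h3 : 0 ≤ m3) (hs : 0 < s)
    (hm : m1 + m2 + m3 + s = 1)
    (hX : c.X p = m1 * 4 + m2 * (-2) + m3 * (-2) + s * (1 / 15))
    (hY : c.Y p = m1 * 3 + m2 * 1 + m3 * (-1) + s * (9 / 10))
    (hZ : c.Z p = m1 * 1 + m2 * (-1) + m3 * 1 + s * (7 / 30)) :
    LL0 c p < 0 := by
  by_contra k
  have hL := LL0_ge (not_lt.1 k)
  simp only [InB, Ge1, Ge2, Le1, Le2, A0, A1, A2, A3, A4, A5, A6, A7, G1, G2, G3, G4, G5, G6, TP, TM, lf, hX, hY, hZ] at hL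
  rcases hL with (a | a | a | a | a | a) | (a | a) | ⟨⟨a, b⟩ | ⟨a, b⟩, ⟨u, v⟩ | ⟨u, v⟩⟩ <;> linarith

lemma pos6 {m1 m2 m3 s : ℝ} (h1 : 0 ≤ m1) (h2 : 0 ≤ m2) (h3 : 0 ≤ m3) (hs : 0 < s)
    (hm : m1 + m2 + m3 + s = 1)
    (hX : c.X p = m1 * (-2) + m2 * (-1) + m3 * 4 + s * (2 / 5))
    (hY : c.Y p = m1 * 1 + m2 * 0 + m3 * (-3) + s * (-(17 / 30)))
    (hZ : c.Z p = m1 * (-1) + m2 * 0 + m3 * (-1) + s * (-(19 / 30))) :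
    0 < LL0 c p := by
  by_contra k
  obtain ⟨hB, hL⟩ := LL0_le (not_lt.1 k)
  simp only [InB, Ge1, Ge2, Le1, Le2, A0, A1, A2, A3, A4, A5, A6, A7, G1, G2, G3, G4, G5, G6, TP, TM, lf, hX, hY, hZ] at hB hL
  obtain ⟨g1, g2, g3, g4, g5, g6, g7, g8⟩ := hB
  rcases hL with ⟨a | a, b | b⟩ | ⟨a | a, b | b⟩ <;> linarith

lemma neg6 {m1 m2 m3 s : ℝ} (h1 : 0 ≤ m1) (h2 : 0 ≤ m2) (h3 : 0 ≤ m3) (hs : 0 < s)
    (hm : m1 + m2 + m3 + s = 1)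
    (hX : c.X p = m1 * (-2) + m2 * (-1) + m3 * 4 + s * (4 / 15))
    (hY : c.Y p = m1 * 1 + m2 * 0 + m3 * (-3) + s * (-(23 / 30)))
    (hZ : c.Z p = m1 * (-1) + m2 * 0 + m3 * (-1) + s * (-(7 / 10))) :
    LL0 c p < 0 := by
  by_contra k
  have hL := LL0_ge (not_lt.1 k)
  simp only [InB, Ge1, Ge2, Le1, Le2, A0, A1, A2, A3, A4, A5, A6, A7, G1, G2, G3, G4, G5, G6, TP, TM, lf, hX, hY, hZ] at hL
  rcases hL with (a | a | a | a | a | a) | (a | a) | ⟨⟨a, b⟩ | ⟨a, b⟩, ⟨u, v⟩ | ⟨u, v⟩⟩ <;> linarith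

lemma pos7 {m1 m2 m3 s : ℝ} (h1 : 0 ≤ m1) (h2 : 0 ≤ m2) (h3 : 0 ≤ m3) (hs : 0 < s)
    (hm : m1 + m2 + m3 + s = 1)
    (hX : c.X p = m1 * (-1) + m2 * 4 + m3 * 3 + s * (59 / 30))
    (hY : c.Y p = m1 * 0 + m2 * (-3) + m3 * (-1) + s * (-(27 / 20)))
    (hZ : c.Z p = m1 * 0 + m2 * (-1) + m3 * (-1) + s * (-(47 / 60))) :
    0 < LL0 c p := by
  by_contra k
  obtain ⟨hB, hL⟩ := LL0_le (not_lt.1 k)
  simp only [InB, Ge1, Ge2, Le1, Le2, A0, A1, A2, A3, A4, A5, A6, A7, G1, G2, G3, G4, G5, G6, TP, TM, lf, hX, hY, hZ] at hB hL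
  obtain ⟨g1, g2, g3, g4, g5, g6, g7, g8⟩ := hB
  rcases hL with ⟨a | a, b | b⟩ | ⟨a | a, b | b⟩ <;> linarith

lemma neg7 {m1 m2 m3 s : ℝ} (h1 : 0 ≤ m1) (h2 : 0 ≤ m2) (h3 : 0 ≤ m3) (hs : 0 < s)
    (hm : m1 + m2 + m3 + s = 1)
    (hX : c.X p = m1 * (-1) + m2 * 4 + m3 * 3 + s * (61 / 30))
    (hY : c.Y p = m1 * 0 + m2 * (-3) + m3 * (-1) + s * (-(79 / 60)))
    (hZ : c.Z p = m1 * 0 + m2 * (-1) + m3 * (-1) + s * (-(11 / 20))) :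
    LL0 c p < 0 := by
  by_contra k
  have hL := LL0_ge (not_lt.1 k)
  simp only [InB, Ge1, Ge2, Le1, Le2, A0, A1, A2, A3, A4, A5, A6, A7, G1, G2, G3, G4, G5, G6, TP, TM, lf, hX, hY, hZ] at hL
  rcases hL with (a | a | a | a | a | a) | (a | a) | ⟨⟨a, b⟩ | ⟨a, b⟩, ⟨u, v⟩ | ⟨u, v⟩⟩ <;> linarith

lemma pos8 {m1 m2 m3 s : ℝ} (h1 : 0 ≤ m1) (h2 : 0 ≤ m2) (h3 : 0 ≤ m3) (hs : 0 < s)
    (hm : m1 + m2 + m3 + s = 1)
    (hX : c.X p = m1 * (-2) + m2 * 3 + m3 * 3 + s * (19 / 15))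
    (hY : c.Y p = m1 * (-1) + m2 * (-1) + m3 * 1 + s * (-(1 / 6)))
    (hZ : c.Z p = m1 * 1 + m2 * (-1) + m3 * 1 + s * (1 / 6)) :
    0 < LL0 c p := by
  by_contra k
  obtain ⟨hB, hL⟩ := LL0_le (not_lt.1 k)
  simp only [InB, Ge1, Ge2, Le1, Le2, A0, A1, A2, A3, A4, A5, A6, A7, G1, G2, G3, G4, G5, G6, TP, TM, lf, hX, hY, hZ] at hB hL
  obtain ⟨g1, g2, g3, g4, g5, g6, g7, g8⟩ := hB
  rcases hL with ⟨a | a, b | b⟩ | ⟨a | a, b | b⟩ <;> linarith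

lemma neg8 {m1 m2 m3 s : ℝ} (h1 : 0 ≤ m1) (h2 : 0 ≤ m2) (h3 : 0 ≤ m3) (hs : 0 < s)
    (hm : m1 + m2 + m3 + s = 1)
    (hX : c.X p = m1 * (-2) + m2 * 3 + m3 * 3 + s * (7 / 5))
    (hY : c.Y p = m1 * (-1) + m2 * (-1) + m3 * 1 + s * (-(1 / 2)))
    (hZ : c.Z p = m1 * 1 + m2 * (-1) + m3 * 1 + s * (1 / 2)) :
    LL0 c p < 0 := by
  by_contra k
  have hL := LL0_ge (not_lt.1 k)
  simp only [InB, Ge1, Ge2, Le1, Le2, A0, A1, A2, A3, A4, A5, A6, A7, G1, G2, G3, G4, G5, G6, TP, TM, lf, hX, hY, hZ] at hL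
  rcases hL with (a | a | a | a | a | a) | (a | a) | ⟨⟨a, b⟩ | ⟨a, b⟩, ⟨u, v⟩ | ⟨u, v⟩⟩ <;> linarith

lemma pos9 {m1 m2 m3 s : ℝ} (h1 : 0 ≤ m1) (h2 : 0 ≤ m2) (h3 : 0 ≤ m3) (hs : 0 < s)
    (hm : m1 + m2 + m3 + s = 1)
    (hX : c.X p = m1 * 4 + m2 * 3 + m3 * 4 + s * (56 / 15))
    (hY : c.Y p = m1 * (-3) + m2 * 1 + m3 * 3 + s * (3 / 10))
    (hZ : c.Z p = m1 * (-1) + m2 * 1 + m3 * 1 + s * (13 / 30)) :
    0 < LL0 c p := by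
  by_contra k
  obtain ⟨hB, hL⟩ := LL0_le (not_lt.1 k)
  simp only [InB, Ge1, Ge2, Le1, Le2, A0, A1, A2, A3, A4, A5, A6, A7, G1, G2, G3, G4, G5, G6, TP, TM, lf, hX, hY, hZ] at hB hL
  obtain ⟨g1, g2, g3, g4, g5, g6, g7, g8⟩ := hB
  rcases hL with ⟨a | a, b | b⟩ | ⟨a | a, b | b⟩ <;> linarith

lemma neg9 {m1 m2 m3 s : ℝ} (h1 : 0 ≤ m1) (h2 : 0 ≤ m2) (h3 : 0 ≤ m3) (hs : 0 < s)
    (hm : m1 + m2 + m3 + s = 1)
    (hX : c.X p = m1 * 4 + m2 * 3 + m3 * 4 + s * (18 / 5))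
    (hY : c.Y p = m1 * (-3) + m2 * 1 + m3 * 3 + s * (11 / 30))
    (hZ : c.Z p = m1 * (-1) + m2 * 1 + m3 * 1 + s * (7 / 30)) :
    LL0 c p < 0 := by
  by_contra k
  have hL := LL0_ge (not_lt.1 k)
  simp only [InB, Ge1, Ge2, Le1, Le2, A0, A1, A2, A3, A4, A5, A6, A7, G1, G2, G3, G4, G5, G6, TP, TM, lf, hX, hY, hZ] at hL
  rcases hL with (a | a | a | a | a | a) | (a | a) | ⟨⟨a, b⟩ | ⟨a, b⟩, ⟨u, v⟩ | ⟨u, v⟩⟩ <;> linarith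

lemma pos10 {m1 m2 m3 s : ℝ} (h1 : 0 ≤ m1) (h2 : 0 ≤ m2) (h3 : 0 ≤ m3) (hs : 0 < s)
    (hm : m1 + m2 + m3 + s = 1)
    (hX : c.X p = m1 * 3 + m2 * 4 + m3 * (-2) + s * (26 / 15))
    (hY : c.Y p = m1 * (-1) + m2 * 3 + m3 * 1 + s * (7 / 6))
    (hZ : c.Z p = m1 * (-1) + m2 * 1 + m3 * (-1) + s * (-(7 / 10))) :
    0 < LL0 c p := by
  by_contra k
  obtain ⟨hB, hL⟩ := LL0_le (not_lt.1 k)
  simp only [InB, Ge1, Ge2, Le1, Le2, A0, A1, A2, A3, A4, A5, A6, A7, G1, G2, G3, G4, G5, G6, TP, TM, lf, hX, hY, hZ] at hB hL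
  obtain ⟨g1, g2, g3, g4, g5, g6, g7, g8⟩ := hB
  rcases hL with ⟨a | a, b | b⟩ | ⟨a | a, b | b⟩ <;> linarith

lemma neg10 {m1 m2 m3 s : ℝ} (h1 : 0 ≤ m1) (h2 : 0 ≤ m2) (h3 : 0 ≤ m3) (hs : 0 < s)
    (hm : m1 + m2 + m3 + s = 1)
    (hX : c.X p = m1 * 3 + m2 * 4 + m3 * (-2) + s * (8 / 5))
    (hY : c.Y p = m1 * (-1) + m2 * 3 + m3 * 1 + s * (5 / 6))
    (hZ : c.Z p = m1 * (-1) + m2 * 1 + m3 * (-1) + s * (1 / 30)) :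
    LL0 c p < 0 := by
  by_contra k
  have hL := LL0_ge (not_lt.1 k)
  simp only [InB, Ge1, Ge2, Le1, Le2, A0, A1, A2, A3, A4, A5, A6, A7, G1, G2, G3, G4, G5, G6, TP, TM, lf, hX, hY, hZ] at hL
  rcases hL with (a | a | a | a | a | a) | (a | a) | ⟨⟨a, b⟩ | ⟨a, b⟩, ⟨u, v⟩ | ⟨u, v⟩⟩ <;> linarith

lemma pos11 {m1 m2 m3 s : ℝ} (h1 : 0 ≤ m1) (h2 : 0 ≤ m2) (h3 : 0 ≤ m3) (hs : 0 < s)
    (hm : m1 + m2 + m3 + s = 1)
    (hX : c.X p = m1 * 3 + m2 * (-2) + m3 * (-1) + s * (1 / 30))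
    (hY : c.Y p = m1 * 1 + m2 * 1 + m3 * 0 + s * (37 / 60))
    (hZ : c.Z p = m1 * 1 + m2 * (-1) + m3 * 0 + s * (-(1 / 12))) :
    0 < LL0 c p := by
  by_contra k
  obtain ⟨hB, hL⟩ := LL0_le (not_lt.1 k)
  simp only [InB, Ge1, Ge2, Le1, Le2, A0, A1, A2, A3, A4, A5, A6, A7, G1, G2, G3, G4, G5, G6, TP, TM, lf, hX, hY, hZ] at hB hL
  obtain ⟨g1, g2, g3, g4, g5, g6, g7, g8⟩ := hB
  rcases hL with ⟨a | a, b | b⟩ | ⟨a | a, b | b⟩ <;> linarith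

lemma neg11 {m1 m2 m3 s : ℝ} (h1 : 0 ≤ m1) (h2 : 0 ≤ m2) (h3 : 0 ≤ m3) (hs : 0 < s)
    (hm : m1 + m2 + m3 + s = 1)
    (hX : c.X p = m1 * 3 + m2 * (-2) + m3 * (-1) + s * (-(1 / 30)))
    (hY : c.Y p = m1 * 1 + m2 * 1 + m3 * 0 + s * (43 / 60))
    (hZ : c.Z p = m1 * 1 + m2 * (-1) + m3 * 0 + s * (1 / 12)) :
    LL0 c p < 0 := by
  by_contra k
  have hL := LL0_ge (not_lt.1 k)
  simp only [InB, Ge1, Ge2, Le1, Le2, A0, A1, A2, A3, A4, A5, A6, A7, G1, G2, G3, G4, G5, G6, TP, TM, lf, hX, hY, hZ] at hL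
  rcases hL with (a | a | a | a | a | a) | (a | a) | ⟨⟨a, b⟩ | ⟨a, b⟩, ⟨u, v⟩ | ⟨u, v⟩⟩ <;> linarith

lemma pos12 {m1 m2 m3 s : ℝ} (h1 : 0 ≤ m1) (h2 : 0 ≤ m2) (h3 : 0 ≤ m3) (hs : 0 < s)
    (hm : m1 + m2 + m3 + s = 1)
    (hX : c.X p = m1 * 4 + m2 * (-1) + m3 * (-2) + s * (2 / 5))
    (hY : c.Y p = m1 * 3 + m2 * 0 + m3 * (-1) + s * (17 / 30))
    (hZ : c.Z p = m1 * 1 + m2 * 0 + m3 * 1 + s * (19 / 30)) :
    0 < LL0 c p := by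
  by_contra k
  obtain ⟨hB, hL⟩ := LL0_le (not_lt.1 k)
  simp only [InB, Ge1, Ge2, Le1, Le2, A0, A1, A2, A3, A4, A5, A6, A7, G1, G2, G3, G4, G5, G6, TP, TM, lf, hX, hY, hZ] at hB hL
  obtain ⟨g1, g2, g3, g4, g5, g6, g7, g8⟩ := hB
  rcases hL with ⟨a | a, b | b⟩ | ⟨a | a, b | b⟩ <;> linarith

lemma neg12 {m1 m2 m3 s : ℝ} (h1 : 0 ≤ m1) (h2 : 0 ≤ m2) (h3 : 0 ≤ m3) (hs : 0 < s)
    (hm : m1 + m2 + m3 + s = 1)
    (hX : c.X p = m1 * 4 + m2 * (-1) + m3 * (-2) + s * (4 / 15))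
    (hY : c.Y p = m1 * 3 + m2 * 0 + m3 * (-1) + s * (23 / 30))
    (hZ : c.Z p = m1 * 1 + m2 * 0 + m3 * 1 + s * (7 / 10)) :
    LL0 c p < 0 := by
  by_contra k
  have hL := LL0_ge (not_lt.1 k)
  simp only [InB, Ge1, Ge2, Le1, Le2, A0, A1, A2, A3, A4, A5, A6, A7, G1, G2, G3, G4, G5, G6, TP, TM, lf, hX, hY, hZ] at hL
  rcases hL with (a | a | a | a | a | a) | (a | a) | ⟨⟨a, b⟩ | ⟨a, b⟩, ⟨u, v⟩ | ⟨u, v⟩⟩ <;> linarith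

lemma pos13 {m1 m2 m3 s : ℝ} (h1 : 0 ≤ m1) (h2 : 0 ≤ m2) (h3 : 0 ≤ m3) (hs : 0 < s)
    (hm : m1 + m2 + m3 + s = 1)
    (hX : c.X p = m1 * (-2) + m2 * (-2) + m3 * 4 + s * (-(1 / 15)))
    (hY : c.Y p = m1 * 1 + m2 * (-1) + m3 * (-3) + s * (-(11 / 10)))
    (hZ : c.Z p = m1 * (-1) + m2 * 1 + m3 * (-1) + s * (-(13 / 30))) :
    0 < LL0 c p := by
  by_contra k
  obtain ⟨hB, hL⟩ := LL0_le (not_lt.1 k)
  simp only [InB, Ge1, Ge2, Le1, Le2, A0, A1, A2, A3, A4, A5, A6, A7, G1, G2, G3, G4, G5, G6, TP, TM, lf, hX, hY, hZ] at hB hL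
  obtain ⟨g1, g2, g3, g4, g5, g6, g7, g8⟩ := hB
  rcases hL with ⟨a | a, b | b⟩ | ⟨a | a, b | b⟩ <;> linarith

lemma neg13 {m1 m2 m3 s : ℝ} (h1 : 0 ≤ m1) (h2 : 0 ≤ m2) (h3 : 0 ≤ m3) (hs : 0 < s)
    (hm : m1 + m2 + m3 + s = 1)
    (hX : c.X p = m1 * (-2) + m2 * (-2) + m3 * 4 + s * (1 / 15))
    (hY : c.Y p = m1 * 1 + m2 * (-1) + m3 * (-3) + s * (-(9 / 10)))
    (hZ : c.Z p = m1 * (-1) + m2 * 1 + m3 * (-1) + s * (-(7 / 30))) :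
    LL0 c p < 0 := by
  by_contra k
  have hL := LL0_ge (not_lt.1 k)
  simp only [InB, Ge1, Ge2, Le1, Le2, A0, A1, A2, A3, A4, A5, A6, A7, G1, G2, G3, G4, G5, G6, TP, TM, lf, hX, hY, hZ] at hL
  rcases hL with (a | a | a | a | a | a) | (a | a) | ⟨⟨a, b⟩ | ⟨a, b⟩, ⟨u, v⟩ | ⟨u, v⟩⟩ <;> linarith

lemma coord_mix (x q : E3) (s : ℝ) (t : Fin 3) :
    ((1 - s) • x + s • q) t = (1 - s) * x t + s * q t := by simp

theorem two_sides {x : E3} (h : PP x) : ∃ qp qm : E3, ∀ s : ℝ, 0 < s → s ≤ 1 →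
    0 < LL0 ce ((1 - s) • x + s • qp) ∧ LL0 ce ((1 - s) • x + s • qm) < 0 := by
  obtain ⟨k, hk⟩ := h
  fin_cases k
  · obtain ⟨α, β, γ, h1, h2, h3, h4, h5, h6, h7⟩ := (tri_iff 0 1 3 x).1 hk
    simp only [vc00, vc01, vc02, vc10, vc11, vc12, vc30, vc31, vc32] at h5 h6 h7
    refine ⟨!₂[(1 / 30), (-(37 / 60)), (1 / 12)], !₂[(-(1 / 30)), (-(43 / 60)), (-(1 / 12))], fun s s0 s1 => ?_⟩
    have s2 : 0 ≤ 1 - s := by linarith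
    refine ⟨pos0 (mul_nonneg s2 h1) (mul_nonneg s2 h2) (mul_nonneg s2 h3) s0
      (by linear_combination (1 - s) * h4) ?_ ?_ ?_, neg0 (mul_nonneg s2 h1) (mul_nonneg s2 h2)
      (mul_nonneg s2 h3) s0 (by linear_combination (1 - s) * h4) ?_ ?_ ?_⟩ <;>
      simp only [ce, coord_mix, h5, h6, h7] <;> simp <;> ring
  · obtain ⟨α, β, γ, h1, h2, h3, h4, h5, h6, h7⟩ := (tri_iff 1 2 4 x).1 hk
    simp only [vc10, vc11, vc12, vc20, vc21, vc22, vc40, vc41, vc42] at h5 h6 h7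
    refine ⟨!₂[(26 / 15), (-(7 / 6)), (7 / 10)], !₂[(8 / 5), (-(5 / 6)), (-(1 / 30))], fun s s0 s1 => ?_⟩
    have s2 : 0 ≤ 1 - s := by linarith
    refine ⟨pos1 (mul_nonneg s2 h1) (mul_nonneg s2 h2) (mul_nonneg s2 h3) s0
      (by linear_combination (1 - s) * h4) ?_ ?_ ?_, neg1 (mul_nonneg s2 h1) (mul_nonneg s2 h2)
      (mul_nonneg s2 h3) s0 (by linear_combination (1 - s) * h4) ?_ ?_ ?_⟩ <;>
      simp only [ce, coord_mix, h5, h6, h7] <;> simp <;> ring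
  · obtain ⟨α, β, γ, h1, h2, h3, h4, h5, h6, h7⟩ := (tri_iff 2 3 5 x).1 hk
    simp only [vc20, vc21, vc22, vc30, vc31, vc32, vc50, vc51, vc52] at h5 h6 h7
    refine ⟨!₂[(56 / 15), (-(3 / 10)), (-(13 / 30))], !₂[(18 / 5), (-(11 / 30)), (-(7 / 30))], fun s s0 s1 => ?_⟩
    have s2 : 0 ≤ 1 - s := by linarith
    refine ⟨pos2 (mul_nonneg s2 h1) (mul_nonneg s2 h2) (mul_nonneg s2 h3) s0
      (by linear_combination (1 - s) * h4) ?_ ?_ ?_, neg2 (mul_nonneg s2 h1) (mul_nonneg s2 h2)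
      (mul_nonneg s2 h3) s0 (by linear_combination (1 - s) * h4) ?_ ?_ ?_⟩ <;>
      simp only [ce, coord_mix, h5, h6, h7] <;> simp <;> ring
  · obtain ⟨α, β, γ, h1, h2, h3, h4, h5, h6, h7⟩ := (tri_iff 3 4 6 x).1 hk
    simp only [vc30, vc31, vc32, vc40, vc41, vc42, vc60, vc61, vc62] at h5 h6 h7
    refine ⟨!₂[(19 / 15), (1 / 6), (-(1 / 6))], !₂[(7 / 5), (1 / 2), (-(1 / 2))], fun s s0 s1 => ?_⟩
    have s2 : 0 ≤ 1 - s := by linarith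
    refine ⟨pos3 (mul_nonneg s2 h1) (mul_nonneg s2 h2) (mul_nonneg s2 h3) s0
      (by linear_combination (1 - s) * h4) ?_ ?_ ?_, neg3 (mul_nonneg s2 h1) (mul_nonneg s2 h2)
      (mul_nonneg s2 h3) s0 (by linear_combination (1 - s) * h4) ?_ ?_ ?_⟩ <;>
      simp only [ce, coord_mix, h5, h6, h7] <;> simp <;> ring
  · obtain ⟨α, β, γ, h1, h2, h3, h4, h5, h6, h7⟩ := (tri_iff 4 5 0 x).1 hk
    simp only [vc40, vc41, vc42, vc50, vc51, vc52, vc00, vc01, vc02] at h5 h6 h7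
    refine ⟨!₂[(59 / 30), (27 / 20), (47 / 60)], !₂[(61 / 30), (79 / 60), (11 / 20)], fun s s0 s1 => ?_⟩
    have s2 : 0 ≤ 1 - s := by linarith
    refine ⟨pos4 (mul_nonneg s2 h1) (mul_nonneg s2 h2) (mul_nonneg s2 h3) s0
      (by linear_combination (1 - s) * h4) ?_ ?_ ?_, neg4 (mul_nonneg s2 h1) (mul_nonneg s2 h2)
      (mul_nonneg s2 h3) s0 (by linear_combination (1 - s) * h4) ?_ ?_ ?_⟩ <;>
      simp only [ce, coord_mix, h5, h6, h7] <;> simp <;> ring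
  · obtain ⟨α, β, γ, h1, h2, h3, h4, h5, h6, h7⟩ := (tri_iff 5 6 1 x).1 hk
    simp only [vc50, vc51, vc52, vc60, vc61, vc62, vc10, vc11, vc12] at h5 h6 h7
    refine ⟨!₂[(-(1 / 15)), (11 / 10), (13 / 30)], !₂[(1 / 15), (9 / 10), (7 / 30)], fun s s0 s1 => ?_⟩
    have s2 : 0 ≤ 1 - s := by linarith
    refine ⟨pos5 (mul_nonneg s2 h1) (mul_nonneg s2 h2) (mul_nonneg s2 h3) s0
      (by linear_combination (1 - s) * h4) ?_ ?_ ?_, neg5 (mul_nonneg s2 h1) (mul_nonneg s2 h2)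
      (mul_nonneg s2 h3) s0 (by linear_combination (1 - s) * h4) ?_ ?_ ?_⟩ <;>
      simp only [ce, coord_mix, h5, h6, h7] <;> simp <;> ring
  · obtain ⟨α, β, γ, h1, h2, h3, h4, h5, h6, h7⟩ := (tri_iff 6 0 2 x).1 hk
    simp only [vc60, vc61, vc62, vc00, vc01, vc02, vc20, vc21, vc22] at h5 h6 h7
    refine ⟨!₂[(2 / 5), (-(17 / 30)), (-(19 / 30))], !₂[(4 / 15), (-(23 / 30)), (-(7 / 10))], fun s s0 s1 => ?_⟩
    have s2 : 0 ≤ 1 - s := by linarith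
    refine ⟨pos6 (mul_nonneg s2 h1) (mul_nonneg s2 h2) (mul_nonneg s2 h3) s0
      (by linear_combination (1 - s) * h4) ?_ ?_ ?_, neg6 (mul_nonneg s2 h1) (mul_nonneg s2 h2)
      (mul_nonneg s2 h3) s0 (by linear_combination (1 - s) * h4) ?_ ?_ ?_⟩ <;>
      simp only [ce, coord_mix, h5, h6, h7] <;> simp <;> ring
  · obtain ⟨α, β, γ, h1, h2, h3, h4, h5, h6, h7⟩ := (tri_iff 0 2 3 x).1 hk
    simp only [vc00, vc01, vc02, vc20, vc21, vc22, vc30, vc31, vc32] at h5 h6 h7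
    refine ⟨!₂[(59 / 30), (-(27 / 20)), (-(47 / 60))], !₂[(61 / 30), (-(79 / 60)), (-(11 / 20))], fun s s0 s1 => ?_⟩
    have s2 : 0 ≤ 1 - s := by linarith
    refine ⟨pos7 (mul_nonneg s2 h1) (mul_nonneg s2 h2) (mul_nonneg s2 h3) s0
      (by linear_combination (1 - s) * h4) ?_ ?_ ?_, neg7 (mul_nonneg s2 h1) (mul_nonneg s2 h2)
      (mul_nonneg s2 h3) s0 (by linear_combination (1 - s) * h4) ?_ ?_ ?_⟩ <;>
      simp only [ce, coord_mix, h5, h6, h7] <;> simp <;> ring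
  · obtain ⟨α, β, γ, h1, h2, h3, h4, h5, h6, h7⟩ := (tri_iff 1 3 4 x).1 hk
    simp only [vc10, vc11, vc12, vc30, vc31, vc32, vc40, vc41, vc42] at h5 h6 h7
    refine ⟨!₂[(19 / 15), (-(1 / 6)), (1 / 6)], !₂[(7 / 5), (-(1 / 2)), (1 / 2)], fun s s0 s1 => ?_⟩
    have s2 : 0 ≤ 1 - s := by linarith
    refine ⟨pos8 (mul_nonneg s2 h1) (mul_nonneg s2 h2) (mul_nonneg s2 h3) s0
      (by linear_combination (1 - s) * h4) ?_ ?_ ?_, neg8 (mul_nonneg s2 h1) (mul_nonneg s2 h2)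
      (mul_nonneg s2 h3) s0 (by linear_combination (1 - s) * h4) ?_ ?_ ?_⟩ <;>
      simp only [ce, coord_mix, h5, h6, h7] <;> simp <;> ring
  · obtain ⟨α, β, γ, h1, h2, h3, h4, h5, h6, h7⟩ := (tri_iff 2 4 5 x).1 hk
    simp only [vc20, vc21, vc22, vc40, vc41, vc42, vc50, vc51, vc52] at h5 h6 h7
    refine ⟨!₂[(56 / 15), (3 / 10), (13 / 30)], !₂[(18 / 5), (11 / 30), (7 / 30)], fun s s0 s1 => ?_⟩
    have s2 : 0 ≤ 1 - s := by linarith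
    refine ⟨pos9 (mul_nonneg s2 h1) (mul_nonneg s2 h2) (mul_nonneg s2 h3) s0
      (by linear_combination (1 - s) * h4) ?_ ?_ ?_, neg9 (mul_nonneg s2 h1) (mul_nonneg s2 h2)
      (mul_nonneg s2 h3) s0 (by linear_combination (1 - s) * h4) ?_ ?_ ?_⟩ <;>
      simp only [ce, coord_mix, h5, h6, h7] <;> simp <;> ring
  · obtain ⟨α, β, γ, h1, h2, h3, h4, h5, h6, h7⟩ := (tri_iff 3 5 6 x).1 hk
    simp only [vc30, vc31, vc32, vc50, vc51, vc52, vc60, vc61, vc62] at h5 h6 h7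
    refine ⟨!₂[(26 / 15), (7 / 6), (-(7 / 10))], !₂[(8 / 5), (5 / 6), (1 / 30)], fun s s0 s1 => ?_⟩
    have s2 : 0 ≤ 1 - s := by linarith
    refine ⟨pos10 (mul_nonneg s2 h1) (mul_nonneg s2 h2) (mul_nonneg s2 h3) s0
      (by linear_combination (1 - s) * h4) ?_ ?_ ?_, neg10 (mul_nonneg s2 h1) (mul_nonneg s2 h2)
      (mul_nonneg s2 h3) s0 (by linear_combination (1 - s) * h4) ?_ ?_ ?_⟩ <;>
      simp only [ce, coord_mix, h5, h6, h7] <;> simp <;> ring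
  · obtain ⟨α, β, γ, h1, h2, h3, h4, h5, h6, h7⟩ := (tri_iff 4 6 0 x).1 hk
    simp only [vc40, vc41, vc42, vc60, vc61, vc62, vc00, vc01, vc02] at h5 h6 h7
    refine ⟨!₂[(1 / 30), (37 / 60), (-(1 / 12))], !₂[(-(1 / 30)), (43 / 60), (1 / 12)], fun s s0 s1 => ?_⟩
    have s2 : 0 ≤ 1 - s := by linarith
    refine ⟨pos11 (mul_nonneg s2 h1) (mul_nonneg s2 h2) (mul_nonneg s2 h3) s0
      (by linear_combination (1 - s) * h4) ?_ ?_ ?_, neg11 (mul_nonneg s2 h1) (mul_nonneg s2 h2)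
      (mul_nonneg s2 h3) s0 (by linear_combination (1 - s) * h4) ?_ ?_ ?_⟩ <;>
      simp only [ce, coord_mix, h5, h6, h7] <;> simp <;> ring
  · obtain ⟨α, β, γ, h1, h2, h3, h4, h5, h6, h7⟩ := (tri_iff 5 0 1 x).1 hk
    simp only [vc50, vc51, vc52, vc00, vc01, vc02, vc10, vc11, vc12] at h5 h6 h7
    refine ⟨!₂[(2 / 5), (17 / 30), (19 / 30)], !₂[(4 / 15), (23 / 30), (7 / 10)], fun s s0 s1 => ?_⟩
    have s2 : 0 ≤ 1 - s := by linarith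
    refine ⟨pos12 (mul_nonneg s2 h1) (mul_nonneg s2 h2) (mul_nonneg s2 h3) s0
      (by linear_combination (1 - s) * h4) ?_ ?_ ?_, neg12 (mul_nonneg s2 h1) (mul_nonneg s2 h2)
      (mul_nonneg s2 h3) s0 (by linear_combination (1 - s) * h4) ?_ ?_ ?_⟩ <;>
      simp only [ce, coord_mix, h5, h6, h7] <;> simp <;> ring
  · obtain ⟨α, β, γ, h1, h2, h3, h4, h5, h6, h7⟩ := (tri_iff 6 1 2 x).1 hk
    simp only [vc60, vc61, vc62, vc10, vc11, vc12, vc20, vc21, vc22] at h5 h6 h7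
    refine ⟨!₂[(-(1 / 15)), (-(11 / 10)), (-(13 / 30))], !₂[(1 / 15), (-(9 / 10)), (-(7 / 30))], fun s s0 s1 => ?_⟩
    have s2 : 0 ≤ 1 - s := by linarith
    refine ⟨pos13 (mul_nonneg s2 h1) (mul_nonneg s2 h2) (mul_nonneg s2 h3) s0
      (by linear_combination (1 - s) * h4) ?_ ?_ ?_, neg13 (mul_nonneg s2 h1) (mul_nonneg s2 h2)
      (mul_nonneg s2 h3) s0 (by linear_combination (1 - s) * h4) ?_ ?_ ?_⟩ <;>
      simp only [ce, coord_mix, h5, h6, h7] <;> simp <;> ring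

end Pool.Agent.Lib.MP_d88725_gt
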