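import Mathlib

set_option autoImplicit false

namespace Pool.Agent.Lib.MP_d88725_gt

open Real Set

/-- smooth monotone step from 0 (at t ≤ -1) to 1 (at t ≥ 1) -/
noncomputable def st (t : ℝ) : ℝ := Real.smoothTransition ((t + 1) / 2)

lemma st_contDiff : ContDiff ℝ (⊤ : ℕ∞) st := by
  unfold st
  exact Real.smoothTransition.contDiff.comp (by fun_prop)

lemma st_cont : Continuous st := st_contDiff.continuous

lemma st_nonneg (t : ℝ) : 0 ≤ st t := Real.smoothTransition.nonneg _

lemma st_le_one (t : ℝ) : st t ≤ 1 := Real.smoothTransition.le_one _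

lemma st_of_le {t : ℝ} (h : t ≤ -1) : st t = 0 :=
  Real.smoothTransition.zero_of_nonpos (by linarith)

lemma st_of_ge {t : ℝ} (h : 1 ≤ t) : st t = 1 :=
  Real.smoothTransition.one_of_one_le (by linarith)

lemma st_mono : Monotone st := fun a b h =>
  Real.smoothTransition.monotone (by linarith)

lemma st_neg (t : ℝ) : st (-t) = 1 - st t := by
  unfold st Real.smoothTransition
  have h := Real.smoothTransition.pos_denom ((t + 1) / 2)
  have e1 : (-t + 1) / 2 = 1 - (t + 1) / 2 := by ring
  have e2 : 1 - (1 - (t + 1) / 2) = (t + 1) / 2 := by ring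
  rw [e1, e2]
  generalize expNegInvGlue ((t + 1) / 2) = a at h ⊢
  generalize expNegInvGlue (1 - (t + 1) / 2) = b at h ⊢
  rw [add_comm b a]
  field_simp
  ring

/-- smooth convex hinge: 0 for t ≤ -1 and t for t ≥ 1 -/
noncomputable def hinge (t : ℝ) : ℝ := ∫ u in (-1 : ℝ)..t, st u

lemma hinge_hasDerivAt (t : ℝ) : HasDerivAt hinge (st t) t :=
  intervalIntegral.integral_hasDerivAt_right (st_cont.intervalIntegrable _ _)
    (st_cont.stronglyMeasurableAtFilter _ _) st_cont.continuousAt

lemma hinge_diff : Differentiable ℝ hinge := fun t => (hinge_hasDerivAt t).differentiableAt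

lemma hinge_deriv : deriv hinge = st := funext fun t => (hinge_hasDerivAt t).deriv

lemma hinge_contDiff : ContDiff ℝ (⊤ : ℕ∞) hinge := by
  have h : ContDiff ℝ ((⊤ : ℕ∞) + 1) hinge := by
    rw [contDiff_succ_iff_deriv]
    refine ⟨hinge_diff, ?_, ?_⟩
    · intro h; exact absurd h (by simp)
    · rw [hinge_deriv]; exact st_contDiff
  exact h.of_le le_self_add

lemma hinge_convex : ConvexOn ℝ univ hinge := by
  apply Monotone.convexOn_univ_of_deriv hinge_diff
  rw [hinge_deriv]; exact st_mono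

lemma hinge_support (t s : ℝ) : hinge t + st t * (s - t) ≤ hinge s := by
  rcases lt_trichotomy s t with h | h | h
  · have := hinge_convex.slope_le_of_hasDerivAt (mem_univ s) (mem_univ t) h (hinge_hasDerivAt t)
    rw [slope_def_field, div_le_iff₀ (by linarith)] at this
    nlinarith
  · subst h; simp
  · have := hinge_convex.le_slope_of_hasDerivAt (mem_univ t) (mem_univ s) h (hinge_hasDerivAt t)
    rw [slope_def_field, le_div_iff₀ (by linarith)] at this
    nlinarith

lemma hinge_neg_one : hinge (-1) = 0 := by simp [hinge]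

lemma hinge_nonneg (t : ℝ) : 0 ≤ hinge t := by
  have := hinge_support (-1) t
  rw [hinge_neg_one, st_of_le le_rfl] at this
  simpa using this

lemma hinge_of_le {t : ℝ} (h : t ≤ -1) : hinge t = 0 := by
  have := hinge_support t (-1)
  rw [hinge_neg_one, st_of_le h] at this
  have := hinge_nonneg t
  linarith

lemma hinge_neg (t : ℝ) : hinge (-t) = hinge t - t := by
  have hd : ∀ s, HasDerivAt (fun s => hinge (-s) - (hinge s - s)) 0 s := by
    intro s
    have h1 : HasDerivAt (fun s => hinge (-s)) (st (-s) * (-1)) s :=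
      (hinge_hasDerivAt (-s)).comp s (hasDerivAt_neg s)
    have h2 := h1.sub ((hinge_hasDerivAt s).sub (hasDerivAt_id s))
    have e : st (-s) * (-1) - (st s - 1) = 0 := by rw [st_neg]; ring
    rw [e] at h2
    exact h2
  have := is_const_of_deriv_eq_zero (fun s => (hd s).differentiableAt) (fun s => (hd s).deriv) t 0
  simp at this
  linarith

lemma hinge_of_ge {t : ℝ} (h : 1 ≤ t) : hinge t = t := by
  have := hinge_neg t
  rw [hinge_of_le (by linarith)] at this
  linarith

lemma hinge_zero_le : hinge 0 ≤ 1 := by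
  have := hinge_support 0 (-1)
  rw [hinge_neg_one] at this
  have := st_le_one 0
  linarith

lemma hinge_err_nonneg (t : ℝ) : 0 ≤ hinge t - t * st t := by
  rcases le_total t 0 with h | h
  · have := hinge_nonneg t
    have := st_nonneg t
    nlinarith
  · have h1 := hinge_neg t
    have h2 := hinge_nonneg (-t)
    have := st_le_one t
    nlinarith

lemma hinge_err_le (t : ℝ) : hinge t - t * st t ≤ 1 := by
  have := hinge_support t 0
  have := hinge_zero_le
  linarith

/-- regularized maximum of width w -/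
noncomputable def mx (w a b : ℝ) : ℝ := b + w * hinge ((a - b) / w)

/-- regularized minimum of width w -/
noncomputable def mn (w a b : ℝ) : ℝ := -mx w (-a) (-b)

/-- the weight of the first argument -/
noncomputable def wt (w a b : ℝ) : ℝ := st ((a - b) / w)

lemma wt_nonneg (w a b : ℝ) : 0 ≤ wt w a b := st_nonneg _

lemma wt_le_one (w a b : ℝ) : wt w a b ≤ 1 := st_le_one _

variable {w : ℝ}

lemma wt_zero (hw : 0 < w) {a b : ℝ} (h : a + w ≤ b) : wt w a b = 0 :=
  st_of_le (by rw [div_le_iff₀ hw]; linarith)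

lemma wt_one (hw : 0 < w) {a b : ℝ} (h : b + w ≤ a) : wt w a b = 1 :=
  st_of_ge (by rw [le_div_iff₀ hw]; linarith)

lemma mx_right (hw : 0 < w) {a b : ℝ} (h : a + w ≤ b) : mx w a b = b := by
  unfold mx
  rw [hinge_of_le (by rw [div_le_iff₀ hw]; linarith)]; ring

lemma mx_left (hw : 0 < w) {a b : ℝ} (h : b + w ≤ a) : mx w a b = a := by
  unfold mx
  rw [hinge_of_ge (by rw [le_div_iff₀ hw]; linarith)]; field_simp; ring

lemma mx_comm (hw : 0 < w) (a b : ℝ) : mx w a b = mx w b a := by
  unfold mx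
  have : (b - a) / w = -((a - b) / w) := by ring
  rw [this, hinge_neg]; field_simp; ring

lemma mx_support (hw : 0 < w) (a b a' b' : ℝ) :
    mx w a b + wt w a b * (a' - a) + (1 - wt w a b) * (b' - b) ≤ mx w a' b' := by
  unfold mx wt
  have h := mul_le_mul_of_nonneg_left (hinge_support ((a - b) / w) ((a' - b') / w)) hw.le
  have e : w * (hinge ((a - b) / w) + st ((a - b) / w) * ((a' - b') / w - (a - b) / w)) =
      w * hinge ((a - b) / w) + st ((a - b) / w) * ((a' - b') - (a - b)) := by
    field_simp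
  rw [e] at h
  nlinarith

lemma mx_err (hw : 0 < w) (a b : ℝ) :
    ∃ d, 0 ≤ d ∧ d ≤ w ∧ mx w a b = wt w a b * a + (1 - wt w a b) * b + d := by
  refine ⟨w * (hinge ((a - b) / w) - (a - b) / w * st ((a - b) / w)), ?_, ?_, ?_⟩
  · exact mul_nonneg hw.le (hinge_err_nonneg _)
  · have := mul_le_mul_of_nonneg_left (hinge_err_le ((a - b) / w)) hw.le
    linarith
  · unfold mx wt; field_simp; ring

lemma mx_mono (hw : 0 < w) {a b a' b' s : ℝ} (ha : a' ≤ a + s) (hb : b' ≤ b + s) :
    mx w a' b' ≤ mx w a b + s := by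
  have h := mx_support hw a' b' a b
  have h0 := wt_nonneg w a' b'
  have h1 := wt_le_one w a' b'
  nlinarith [mul_le_mul_of_nonneg_left ha h0, mul_le_mul_of_nonneg_left hb (sub_nonneg.2 h1)]

lemma le_mx_right (hw : 0 < w) (a b : ℝ) : b ≤ mx w a b := by
  unfold mx
  have := mul_nonneg hw.le (hinge_nonneg ((a - b) / w))
  linarith

lemma le_mx_left (hw : 0 < w) (a b : ℝ) : a ≤ mx w a b := by
  rw [mx_comm hw]; exact le_mx_right hw b a

lemma mx_le (hw : 0 < w) {a b c : ℝ} (ha : a ≤ c) (hb : b ≤ c) : mx w a b ≤ c + w := by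
  obtain ⟨d, -, h2, h3⟩ := mx_err hw a b
  have h0 := wt_nonneg w a b
  have h1 := wt_le_one w a b
  nlinarith [mul_le_mul_of_nonneg_left ha h0, mul_le_mul_of_nonneg_left hb (sub_nonneg.2 h1)]

lemma mx_cases (hw : 0 < w) (a b : ℝ) : mx w a b ≤ a + w ∨ mx w a b ≤ b + w := by
  rcases le_total a b with h | h
  · exact Or.inr (mx_le hw h le_rfl)
  · exact Or.inl (mx_le hw le_rfl h)

lemma mn_right (hw : 0 < w) {a b : ℝ} (h : b + w ≤ a) : mn w a b = b := by
  unfold mn; rw [mx_right hw (by linarith)]; ring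

lemma mn_left (hw : 0 < w) {a b : ℝ} (h : a + w ≤ b) : mn w a b = a := by
  unfold mn; rw [mx_left hw (by linarith)]; ring

lemma mn_comm (hw : 0 < w) (a b : ℝ) : mn w a b = mn w b a := by
  unfold mn; rw [mx_comm hw]

lemma mn_le_left (hw : 0 < w) (a b : ℝ) : mn w a b ≤ a := by
  unfold mn; have := le_mx_left hw (-a) (-b); linarith

lemma mn_le_right (hw : 0 < w) (a b : ℝ) : mn w a b ≤ b := by
  unfold mn; have := le_mx_right hw (-a) (-b); linarith

lemma le_mn (hw : 0 < w) {a b c : ℝ} (ha : c ≤ a) (hb : c ≤ b) : c - w ≤ mn w a b := by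
  unfold mn; have := mx_le hw (neg_le_neg ha) (neg_le_neg hb); linarith

lemma mn_cases (hw : 0 < w) (a b : ℝ) : a - w ≤ mn w a b ∨ b - w ≤ mn w a b := by
  rcases le_total a b with h | h
  · exact Or.inl (le_mn hw le_rfl h)
  · exact Or.inr (le_mn hw h le_rfl)

lemma mn_mono (hw : 0 < w) {a b a' b' s : ℝ} (ha : a' ≤ a + s) (hb : b' ≤ b + s) :
    mn w a' b' ≤ mn w a b + s := by
  unfold mn
  have := mx_mono hw (a := -a') (b := -b') (a' := -a) (b' := -b) (s := s) (by linarith) (by linarith)
  linarith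

lemma mn_support (hw : 0 < w) (a b a' b' : ℝ) :
    mn w a' b' ≤ mn w a b + wt w (-a) (-b) * (a' - a) + (1 - wt w (-a) (-b)) * (b' - b) := by
  unfold mn
  have := mx_support hw (-a) (-b) (-a') (-b')
  nlinarith

section Fun

variable {V : Type*}

/-- regularized maximum of two functions -/
noncomputable def MX (w : ℝ) (A B : V → ℝ) : V → ℝ := fun p => mx w (A p) (B p)

/-- regularized minimum of two functions -/
noncomputable def MN (w : ℝ) (A B : V → ℝ) : V → ℝ := fun p => mn w (A p) (B p)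

lemma MN_eq (A B : V → ℝ) : MN w A B = fun p => -MX w (fun p => -A p) (fun p => -B p) p := rfl

variable [NormedAddCommGroup V] [NormedSpace ℝ V]

lemma MX_contDiff {A B : V → ℝ} (hA : ContDiff ℝ (⊤ : ℕ∞) A) (hB : ContDiff ℝ (⊤ : ℕ∞) B) :
    ContDiff ℝ (⊤ : ℕ∞) (MX w A B) := by
  unfold MX mx
  exact hB.add (contDiff_const.mul (hinge_contDiff.comp ((hA.sub hB).div_const w)))

lemma MN_contDiff {A B : V → ℝ} (hA : ContDiff ℝ (⊤ : ℕ∞) A) (hB : ContDiff ℝ (⊤ : ℕ∞) B) :
    ContDiff ℝ (⊤ : ℕ∞) (MN w A B) := by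
  rw [MN_eq]; exact (MX_contDiff hA.neg hB.neg).neg

lemma MX_hasFDerivAt (hw : 0 < w) {A B : V → ℝ} {p : V} {LA LB : V →L[ℝ] ℝ}
    (hA : HasFDerivAt A LA p) (hB : HasFDerivAt B LB p) :
    HasFDerivAt (MX w A B) (wt w (A p) (B p) • LA + (1 - wt w (A p) (B p)) • LB) p := by
  unfold MX mx
  have h1 : HasFDerivAt (fun p => (A p - B p) / w) (w⁻¹ • (LA - LB)) p := by
    have := (hA.sub hB).const_mul w⁻¹
    refine this.congr_of_eventuallyEq (Filter.Eventually.of_forall fun q => ?_)
    simp only [Pi.sub_apply]; ring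
  have h2 := ((hinge_hasDerivAt ((A p - B p) / w)).comp_hasFDerivAt p h1).const_mul w
  have h3 := hB.add h2
  have e : LB + w • st ((A p - B p) / w) • w⁻¹ • (LA - LB) =
      wt w (A p) (B p) • LA + (1 - wt w (A p) (B p)) • LB := by
    ext v
    simp only [add_apply, smul_apply, sub_apply, smul_eq_mul, wt]
    field_simp
    ring
  rw [e] at h3
  exact h3

lemma MX_convex (hw : 0 < w) {A B : V → ℝ} (hA : ConvexOn ℝ univ A) (hB : ConvexOn ℝ univ B) :
    ConvexOn ℝ univ (MX w A B) := by
  refine ⟨convex_univ, fun x _ y _ a b ha hb hab => ?_⟩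
  have h1 := hA.2 (mem_univ x) (mem_univ y) ha hb hab
  have h2 := hB.2 (mem_univ x) (mem_univ y) ha hb hab
  simp only [smul_eq_mul] at h1 h2 ⊢
  unfold MX
  have h3 := mx_mono hw (s := 0) (by simpa using h1) (by simpa using h2)
  have h4 := mul_le_mul_of_nonneg_left
    (mx_support hw (a * A x + b * A y) (a * B x + b * B y) (A x) (B x)) ha
  have h5 := mul_le_mul_of_nonneg_left
    (mx_support hw (a * A x + b * A y) (a * B x + b * B y) (A y) (B y)) hb
  have hb' : b = 1 - a := by linarith
  subst hb'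
  nlinarith

end Fun

end Pool.Agent.Lib.MP_d88725_gt
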