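import Pool.Agent.Lib.MP_d88725_gt.Smooth

set_option autoImplicit false

namespace Pool.Agent.Lib.MP_d88725_gt

open Set Filter Topology

variable {V : Type*} [NormedAddCommGroup V] [NormedSpace ℝ V] {w : ℝ}

/-- f lies locally below an affine function touching it at x -/
def P0 (f : V → ℝ) (x : V) : Prop :=
  ∃ L : V →ₗ[ℝ] ℝ, ∀ᶠ y in 𝓝 x, f y ≤ f x + L (y - x)

/-- the same along a hyperplane through x -/
def P1 (f : V → ℝ) (x : V) : Prop :=
  ∃ L K : V →ₗ[ℝ] ℝ, ∀ᶠ y in 𝓝 x, K (y - x) = 0 → f y ≤ f x + L (y - x)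

/-- f lies locally above an affine function touching it at x -/
def Q0 (f : V → ℝ) (x : V) : Prop := P0 (fun y => -f y) x

/-- the same along a hyperplane through x -/
def Q1 (f : V → ℝ) (x : V) : Prop := P1 (fun y => -f y) x

variable {A B f g : V → ℝ} {x : V}

lemma P0.toP1 (h : P0 f x) : P1 f x := by
  obtain ⟨L, h⟩ := h
  exact ⟨L, 0, h.mono fun y hy _ => hy⟩

lemma Q0.toQ1 (h : Q0 f x) : Q1 f x := P0.toP1 h

lemma P0.congr (h : P0 g x) (e : f =ᶠ[𝓝 x] g) : P0 f x := by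
  obtain ⟨L, h⟩ := h
  refine ⟨L, ?_⟩
  filter_upwards [h, e] with y h1 h2
  rw [h2, e.self_of_nhds]; exact h1

lemma P1.congr (h : P1 g x) (e : f =ᶠ[𝓝 x] g) : P1 f x := by
  obtain ⟨L, K, h⟩ := h
  refine ⟨L, K, ?_⟩
  filter_upwards [h, e] with y h1 h2
  rw [h2, e.self_of_nhds]; exact h1

lemma Q0.congr (h : Q0 g x) (e : f =ᶠ[𝓝 x] g) : Q0 f x :=
  P0.congr h (e.mono fun y hy => by simp only [hy])

lemma Q1.congr (h : Q1 g x) (e : f =ᶠ[𝓝 x] g) : Q1 f x :=
  P1.congr h (e.mono fun y hy => by simp only [hy])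

lemma P0_of_affine (L : V →ₗ[ℝ] ℝ) (c : ℝ) (h : ∀ y, f y = L y + c) : P0 f x :=
  ⟨L, Eventually.of_forall fun y => by rw [h, h, map_sub]; linarith⟩

lemma Q0_of_affine (L : V →ₗ[ℝ] ℝ) (c : ℝ) (h : ∀ y, f y = L y + c) : Q0 f x :=
  P0_of_affine (-L) (-c) fun y => by rw [h, LinearMap.neg_apply]; ring

lemma MX_ev_left (hw : 0 < w) (hA : Continuous A) (hB : Continuous B) (h : B x + w < A x) :
    MX w A B =ᶠ[𝓝 x] A := by
  have : ∀ᶠ y in 𝓝 x, B y + w < A y :=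
    (hB.add continuous_const).continuousAt.eventually_lt hA.continuousAt h
  exact this.mono fun y hy => mx_left hw hy.le

lemma MX_ev_right (hw : 0 < w) (hA : Continuous A) (hB : Continuous B) (h : A x + w < B x) :
    MX w A B =ᶠ[𝓝 x] B := by
  have : ∀ᶠ y in 𝓝 x, A y + w < B y :=
    (hA.add continuous_const).continuousAt.eventually_lt hB.continuousAt h
  exact this.mono fun y hy => mx_right hw hy.le

lemma MN_ev_left (hw : 0 < w) (hA : Continuous A) (hB : Continuous B) (h : A x + w < B x) :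
    MN w A B =ᶠ[𝓝 x] A := by
  have : ∀ᶠ y in 𝓝 x, A y + w < B y :=
    (hA.add continuous_const).continuousAt.eventually_lt hB.continuousAt h
  exact this.mono fun y hy => mn_left hw hy.le

lemma MN_ev_right (hw : 0 < w) (hA : Continuous A) (hB : Continuous B) (h : B x + w < A x) :
    MN w A B =ᶠ[𝓝 x] B := by
  have : ∀ᶠ y in 𝓝 x, B y + w < A y :=
    (hB.add continuous_const).continuousAt.eventually_lt hA.continuousAt h
  exact this.mono fun y hy => mn_right hw hy.le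

lemma mn_step (hw : 0 < w) {a b a' b' s t : ℝ} (ha : a' ≤ a + s) (hb : b' ≤ b + t) :
    mn w a' b' ≤ mn w a b + (wt w (-a) (-b) * s + (1 - wt w (-a) (-b)) * t) := by
  have h := mn_support hw a b a' b'
  have h0 := wt_nonneg w (-a) (-b)
  have h1 := wt_le_one w (-a) (-b)
  nlinarith [mul_le_mul_of_nonneg_left ha h0, mul_le_mul_of_nonneg_left hb (sub_nonneg.2 h1)]

lemma MN_P0 (hw : 0 < w) (hA : P0 A x) (hB : P0 B x) : P0 (MN w A B) x := by
  obtain ⟨LA, hA⟩ := hA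
  obtain ⟨LB, hB⟩ := hB
  refine ⟨wt w (-A x) (-B x) • LA + (1 - wt w (-A x) (-B x)) • LB, ?_⟩
  filter_upwards [hA, hB] with y h1 h2
  simpa [MN] using mn_step hw h1 h2

lemma MN_P1l (hw : 0 < w) (hA : P1 A x) (hB : P0 B x) : P1 (MN w A B) x := by
  obtain ⟨LA, K, hA⟩ := hA
  obtain ⟨LB, hB⟩ := hB
  refine ⟨wt w (-A x) (-B x) • LA + (1 - wt w (-A x) (-B x)) • LB, K, ?_⟩
  filter_upwards [hA, hB] with y h1 h2 hK
  simpa [MN] using mn_step hw (h1 hK) h2

lemma MN_P1r (hw : 0 < w) (hA : P0 A x) (hB : P1 B x) : P1 (MN w A B) x := by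
  obtain ⟨LA, hA⟩ := hA
  obtain ⟨LB, K, hB⟩ := hB
  refine ⟨wt w (-A x) (-B x) • LA + (1 - wt w (-A x) (-B x)) • LB, K, ?_⟩
  filter_upwards [hA, hB] with y h1 h2 hK
  simpa [MN] using mn_step hw h1 (h2 hK)

lemma MX_P1 (hw : 0 < w) (hA : P0 A x) (hB : P0 B x) : P1 (MX w A B) x := by
  obtain ⟨LA, hA⟩ := hA
  obtain ⟨LB, hB⟩ := hB
  refine ⟨LA, LA - LB, ?_⟩
  filter_upwards [hA, hB] with y h1 h2 hK
  rw [LinearMap.sub_apply, sub_eq_zero] at hK
  rw [← hK] at h2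
  exact mx_mono hw h1 h2

lemma neg_MX (A B : V → ℝ) : (fun y => -MX w A B y) = MN w (fun y => -A y) (fun y => -B y) := by
  funext y; simp [MX, MN, mn]

lemma neg_MN (A B : V → ℝ) : (fun y => -MN w A B y) = MX w (fun y => -A y) (fun y => -B y) := by
  funext y; simp [MX, MN, mn]

lemma MX_Q0 (hw : 0 < w) (hA : Q0 A x) (hB : Q0 B x) : Q0 (MX w A B) x := by
  unfold Q0; rw [neg_MX]; exact MN_P0 hw hA hB

lemma MX_Q1l (hw : 0 < w) (hA : Q1 A x) (hB : Q0 B x) : Q1 (MX w A B) x := by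
  unfold Q1; rw [neg_MX]; exact MN_P1l hw hA hB

lemma MX_Q1r (hw : 0 < w) (hA : Q0 A x) (hB : Q1 B x) : Q1 (MX w A B) x := by
  unfold Q1; rw [neg_MX]; exact MN_P1r hw hA hB

lemma MN_Q1 (hw : 0 < w) (hA : Q0 A x) (hB : Q0 B x) : Q1 (MN w A B) x := by
  unfold Q1; rw [neg_MN]; exact MX_P1 hw hA hB

/-- a regularized maximum that does not curve at x -/
lemma MX_P0_of_far (hw : 0 < w) (cA : Continuous A) (cB : Continuous B) (hA : P0 A x)
    (hB : P0 B x) (h : B x + w < A x ∨ A x + w < B x) : P0 (MX w A B) x := by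
  rcases h with h | h
  · exact hA.congr (MX_ev_left hw cA cB h)
  · exact hB.congr (MX_ev_right hw cA cB h)

/-- a regularized minimum that does not curve at x -/
lemma MN_Q0_of_far (hw : 0 < w) (cA : Continuous A) (cB : Continuous B) (hA : Q0 A x)
    (hB : Q0 B x) (h : B x + w < A x ∨ A x + w < B x) : Q0 (MN w A B) x := by
  rcases h with h | h
  · exact hB.congr (MN_ev_right hw cA cB h)
  · exact hA.congr (MN_ev_left hw cA cB h)

lemma MN_P0_act (hw : 0 < w) (cA : Continuous A) (cB : Continuous B)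
    (hA : A x ≤ B x + w → P0 A x) (hB : B x ≤ A x + w → P0 B x) : P0 (MN w A B) x := by
  by_cases h1 : A x ≤ B x + w
  · by_cases h2 : B x ≤ A x + w
    · exact MN_P0 hw (hA h1) (hB h2)
    · exact (hA h1).congr (MN_ev_left hw cA cB (not_le.1 h2))
  · exact (hB (by linarith [not_le.1 h1])).congr (MN_ev_right hw cA cB (not_le.1 h1))

lemma MX_Q0_act (hw : 0 < w) (cA : Continuous A) (cB : Continuous B)
    (hA : B x ≤ A x + w → Q0 A x) (hB : A x ≤ B x + w → Q0 B x) : Q0 (MX w A B) x := by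
  by_cases h1 : B x ≤ A x + w
  · by_cases h2 : A x ≤ B x + w
    · exact MX_Q0 hw (hA h1) (hB h2)
    · exact (hA h1).congr (MX_ev_left hw cA cB (not_le.1 h2))
  · exact (hB (by linarith [not_le.1 h1])).congr (MX_ev_right hw cA cB (not_le.1 h1))

lemma P1.line [FiniteDimensional ℝ V] (hd : 2 < Module.finrank ℝ V) (h : P1 f x) :
    ∃ v : V, v ≠ 0 ∧ ∀ᶠ t in 𝓝 (0 : ℝ), f (x + t • v) ≤ f x := by
  obtain ⟨L, K, h⟩ := h
  have hk : LinearMap.ker (L.prod K) ≠ ⊥ :=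
    LinearMap.ker_ne_bot_of_finrank_lt (by simpa using hd)
  obtain ⟨v, hv, hv0⟩ := (Submodule.ne_bot_iff _).1 hk
  rw [LinearMap.mem_ker] at hv
  have hL : L v = 0 := by simpa using congrArg Prod.fst hv
  have hK : K v = 0 := by simpa using congrArg Prod.snd hv
  refine ⟨v, hv0, ?_⟩
  have ht : Tendsto (fun t : ℝ => x + t • v) (𝓝 0) (𝓝 x) := by
    have : Continuous fun t : ℝ => x + t • v := by fun_prop
    simpa using this.tendsto 0
  filter_upwards [ht.eventually h] with t h1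
  simpa [hL, hK] using h1

lemma Q1.line [FiniteDimensional ℝ V] (hd : 2 < Module.finrank ℝ V) (h : Q1 f x) :
    ∃ v : V, v ≠ 0 ∧ ∀ᶠ t in 𝓝 (0 : ℝ), f x ≤ f (x + t • v) := by
  obtain ⟨v, hv, h⟩ := P1.line hd h
  exact ⟨v, hv, h.mono fun t ht => by linarith⟩

end Pool.Agent.Lib.MP_d88725_gt
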