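import Mathlib

set_option autoImplicit false

namespace Pool.Agent.Lib.MP_d88725_gt

open Set Filter Topology
open scoped RealInnerProductSpace

variable {E : Type*} [NormedAddCommGroup E] [InnerProductSpace ℝ E]

/-- a linear function plus a small strictly convex term -/
noncomputable def phi (b : E) (η : ℝ) (y : E) : ℝ := ⟪b, y⟫ + η * ‖y‖ ^ 2

lemma phi_add (b : E) (η : ℝ) (y n : E) (s : ℝ) :
    phi b η (y + s • n) = phi b η y + s * ⟪b + (2 * η) • y, n⟫ + η * (s ^ 2 * ‖n‖ ^ 2) := by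
  unfold phi
  rw [norm_add_sq_real, inner_add_right, inner_add_left, real_inner_smul_right,
    real_inner_smul_right, real_inner_smul_left, norm_smul, mul_pow, Real.norm_eq_abs, sq_abs]
  ring

lemma phi_cont (b : E) (η : ℝ) : Continuous (phi b η) := by
  unfold phi; fun_prop

lemma path_tendsto (x u : E) : Tendsto (fun t : ℝ => x + t • u) (𝓝 0) (𝓝 x) := by
  have : Continuous fun t : ℝ => x + t • u := by fun_prop
  simpa using this.tendsto 0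

lemma cross {Λ : E → ℝ} (hc : Continuous Λ) {x : E} (hx : Λ x = 0) {L : E →L[ℝ] ℝ}
    (hL : HasFDerivAt Λ L x) {b n u : E} {η : ℝ} (hη : 0 ≤ η) (hn : 0 < L n)
    (hν : 0 < ⟪b + (2 * η) • x, n⟫)
    (hloc : ∀ᶠ y in 𝓝 x, Λ y = 0 → phi b η y ≤ phi b η x)
    (hu : ∀ᶠ t in 𝓝[>] (0 : ℝ), Λ (x + t • u) ≤ 0 ∧ phi b η x < phi b η (x + t • u)) : False := by
  obtain ⟨δ, hδ, hball⟩ := Metric.eventually_nhds_iff.1 hloc
  have hd : HasDerivAt (fun t : ℝ => Λ (x + t • n)) (L n) 0 := by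
    have h1 : HasDerivAt (fun t : ℝ => x + t • n) n 0 := by
      simpa using ((hasDerivAt_id (0 : ℝ)).smul_const n).const_add x
    have h2 : HasFDerivAt Λ L (x + (0 : ℝ) • n) := by simpa using hL
    exact h2.comp_hasDerivAt 0 h1
  have h1 : ∀ᶠ s in 𝓝[>] (0 : ℝ), 0 < Λ (x + s • n) := by
    have := hd.tendsto_slope_zero_right.eventually (lt_mem_nhds hn)
    filter_upwards [this, self_mem_nhdsWithin] with s hs hs0
    simp only [zero_add, zero_smul, add_zero, hx, sub_zero, smul_eq_mul] at hs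
    have hs0' : 0 < s := hs0
    exact (mul_pos_iff_of_pos_left (inv_pos.2 hs0')).1 hs
  have h2 : ∀ᶠ s in 𝓝[>] (0 : ℝ), s * ‖n‖ < δ / 2 := by
    apply nhdsWithin_le_nhds
    have : Continuous fun s : ℝ => s * ‖n‖ := by fun_prop
    exact this.continuousAt.eventually_lt continuousAt_const (by simpa using hδ)
  obtain ⟨s1, ⟨h1, h2⟩, hs1⟩ := ((h1.and h2).and self_mem_nhdsWithin).exists
  have hs1' : 0 < s1 := hs1
  have h3 : ∀ᶠ y in 𝓝 x, 0 < Λ (y + s1 • n) ∧ dist y x < δ / 2 ∧ 0 < ⟪b + (2 * η) • y, n⟫ := by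
    refine Eventually.and ?_ (Eventually.and ?_ ?_)
    · have : Continuous fun y => Λ (y + s1 • n) := by fun_prop
      exact continuousAt_const.eventually_lt this.continuousAt h1
    · exact Metric.ball_mem_nhds x (by linarith)
    · have : Continuous fun y : E => ⟪b + (2 * η) • y, n⟫ := by fun_prop
      exact continuousAt_const.eventually_lt this.continuousAt hν
  have h4 := ((path_tendsto x u).mono_left nhdsWithin_le_nhds (y := 𝓝[>] 0)).eventually h3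
  obtain ⟨t, ⟨h5, h6⟩, h7, h8, h9⟩ := (hu.and h4).exists
  set y := x + t • u with hy
  have hc' : ContinuousOn (fun s : ℝ => Λ (y + s • n)) (Icc 0 s1) := by
    have : Continuous fun s : ℝ => Λ (y + s • n) := by fun_prop
    exact this.continuousOn
  obtain ⟨s, hs, hs0⟩ := intermediate_value_Icc hs1'.le hc'
    (show (0 : ℝ) ∈ Icc (Λ (y + (0 : ℝ) • n)) (Λ (y + s1 • n)) from ⟨by simpa using h5, h7.le⟩)
  have h10 : dist (y + s • n) x < δ := by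
    calc dist (y + s • n) x ≤ dist (y + s • n) y + dist y x := dist_triangle _ _ _
      _ < δ / 2 + δ / 2 := by
        refine add_lt_add_of_le_of_lt ?_ h8
        rw [dist_eq_norm, add_sub_cancel_left, norm_smul, Real.norm_of_nonneg hs.1]
        exact (mul_le_mul_of_nonneg_right hs.2 (norm_nonneg _)).trans h2.le
      _ = δ := by ring
  have h11 := hball h10 hs0
  rw [phi_add] at h11
  have := mul_nonneg hs.1 h9.le
  have := mul_nonneg hη (mul_nonneg (sq_nonneg s) (sq_nonneg ‖n‖))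
  linarith

lemma line_path {Λ : E → ℝ} {x b v : E} {η : ℝ} (hη : 0 < η) (hv : v ≠ 0)
    (h : ∀ᶠ t in 𝓝 (0 : ℝ), Λ (x + t • v) ≤ 0) :
    ∃ u, ∀ᶠ t in 𝓝[>] (0 : ℝ), Λ (x + t • u) ≤ 0 ∧ phi b η x < phi b η (x + t • u) := by
  have key : ∀ u : E, u ≠ 0 → 0 ≤ ⟪b + (2 * η) • x, u⟫ → ∀ t : ℝ, 0 < t →
      phi b η x < phi b η (x + t • u) := by
    intro u hu h0 t ht
    rw [phi_add]
    have := mul_nonneg ht.le h0
    have := mul_pos hη (mul_pos (pow_pos ht 2) (pow_pos (norm_pos_iff.2 hu) 2))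
    linarith
  rcases le_total 0 ⟪b + (2 * η) • x, v⟫ with h0 | h0
  · refine ⟨v, ?_⟩
    filter_upwards [nhdsWithin_le_nhds h, self_mem_nhdsWithin] with t h1 h2
    exact ⟨h1, key v hv h0 t h2⟩
  · refine ⟨-v, ?_⟩
    have hneg : Tendsto (fun t : ℝ => -t) (𝓝 0) (𝓝 0) := by
      simpa using (continuous_neg (G := ℝ)).tendsto 0
    filter_upwards [nhdsWithin_le_nhds (hneg.eventually h), self_mem_nhdsWithin] with t h1 h2
    refine ⟨by simpa using h1, key (-v) (neg_ne_zero.2 hv) ?_ t h2⟩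
    rw [inner_neg_right]; linarith

lemma local_max_supports [CompleteSpace E] {Λ : E → ℝ} (hc : Continuous Λ) {B : Set E}
    (hBc : Convex ℝ B) {x : E} (hxB : x ∈ B) (hx : Λ x = 0) {L : E →L[ℝ] ℝ} (hL0 : L ≠ 0)
    (hL : HasFDerivAt Λ L x) {b : E} {η : ℝ} (hη : 0 < η) (hν : b + (2 * η) • x ≠ 0)
    (hQ : ∃ v : E, v ≠ 0 ∧ ∀ᶠ t in 𝓝 (0 : ℝ), 0 ≤ Λ (x + t • v))
    (hP : (∃ v : E, v ≠ 0 ∧ ∀ᶠ t in 𝓝 (0 : ℝ), Λ (x + t • v) ≤ 0) ∨
      ∀ᶠ y in 𝓝 x, y ∈ B → Λ y ≤ 0)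
    (hloc : ∀ᶠ y in 𝓝 x, Λ y = 0 → phi b η y ≤ phi b η x) :
    ∀ y ∈ B, ⟪b + (2 * η) • x, y - x⟫ ≤ 0 := by
  set ν := b + (2 * η) • x with hνdef
  set a := (InnerProductSpace.toDual ℝ E).symm L with ha
  have hLa : ∀ n, L n = ⟪a, n⟫ := fun n => by rw [ha, InnerProductSpace.toDual_symm_apply]
  have ha0 : a ≠ 0 := by
    intro h; apply hL0; ext n; rw [hLa, h]; simp
  have hνν : 0 < ⟪ν, ν⟫ := real_inner_self_pos.2 hν
  have haa : 0 < ⟪a, a⟫ := real_inner_self_pos.2 ha0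
  by_cases hs : ⟪a, ν⟫ < 0
  · exfalso
    obtain ⟨v, hv, h⟩ := hQ
    obtain ⟨u, hu⟩ := line_path (Λ := fun y => -Λ y) (b := b) hη hv
      (h.mono fun t ht => by simpa using ht)
    refine cross (Λ := fun y => -Λ y) hc.neg (by simpa using hx) hL.neg hη.le (n := ν) ?_ hνν ?_ hu
    · rw [neg_apply, hLa]; linarith
    · exact hloc.mono fun y hy h0 => hy (by simpa using h0)
  · have hs' : 0 ≤ ⟪a, ν⟫ := not_lt.1 hs
    have h1 : 0 < L (a + ν) := by rw [hLa, inner_add_right]; linarith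
    have h2 : 0 < ⟪ν, a + ν⟫ := by rw [inner_add_right, real_inner_comm]; linarith
    rcases hP with ⟨v, hv, h⟩ | h
    · exfalso
      obtain ⟨u, hu⟩ := line_path (b := b) hη hv h
      exact cross hc hx hL hη.le h1 h2 hloc hu
    · intro y hy
      by_contra hcon
      have hpos : 0 < ⟪ν, y - x⟫ := not_le.1 hcon
      refine cross hc hx hL hη.le h1 h2 hloc (u := y - x) ?_
      have h3 := (path_tendsto x (y - x)).eventually h
      have h4 : ∀ᶠ t in 𝓝 (0 : ℝ), t < 1 := gt_mem_nhds one_pos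
      filter_upwards [nhdsWithin_le_nhds h3, nhdsWithin_le_nhds h4, self_mem_nhdsWithin]
        with t h5 h6 h7
      have h7' : 0 < t := h7
      refine ⟨h5 (hBc.add_smul_sub_mem hxB hy ⟨h7'.le, h6.le⟩), ?_⟩
      rw [phi_add]
      have := mul_pos h7' hpos
      have := mul_nonneg hη.le (mul_nonneg (sq_nonneg t) (sq_nonneg ‖y - x‖))
      linarith

theorem tpp [CompleteSpace E] {Λ : E → ℝ} (hc : Continuous Λ) {B : Set E} (hB : IsCompact B)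
    (hBc : Convex ℝ B) (hSB : ∀ x, Λ x = 0 → x ∈ B)
    (hD : ∀ x, Λ x = 0 → ∃ L : E →L[ℝ] ℝ, L ≠ 0 ∧ HasFDerivAt Λ L x)
    (hQ : ∀ x, Λ x = 0 → ∃ v : E, v ≠ 0 ∧ ∀ᶠ t in 𝓝 (0 : ℝ), 0 ≤ Λ (x + t • v))
    (hP : ∀ x, Λ x = 0 → (∃ v : E, v ≠ 0 ∧ ∀ᶠ t in 𝓝 (0 : ℝ), Λ (x + t • v) ≤ 0) ∨
      ∀ᶠ y in 𝓝 x, y ∈ B → Λ y ≤ 0)
    (ℓ : E →L[ℝ] ℝ)
    (hA : ∀ γ : ℝ, 0 < γ → ∃ b : E, b ≠ 0 ∧ (∀ x ∈ B, |⟪b, x⟫ - ℓ x| ≤ γ) ∧
      ∀ a ∈ B, (∀ y ∈ B, ⟪b, y⟫ ≤ ⟪b, a⟫) → Λ a = 0)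
    (c : ℝ) : IsPreconnected {x | Λ x = 0 ∧ c < ℓ x} := by
  -- asymmetric core statement
  obtain ⟨R, hR0, hR⟩ : ∃ R : ℝ, 0 < R ∧ ∀ x ∈ B, ‖x‖ ≤ R := by
    obtain ⟨R, hR⟩ := hB.isBounded.exists_pos_norm_le
    exact ⟨R, hR.1, hR.2⟩
  have core : ∀ (u v : Set E), IsOpen u → IsOpen v → {x | Λ x = 0 ∧ c < ℓ x} ⊆ u ∪ v →
      (∀ x, Λ x = 0 → c < ℓ x → x ∈ u → x ∈ v → False) → ∀ (γ : ℝ) (b a x2 : E), 0 < γ → b ≠ 0 →
      (∀ x ∈ B, |⟪b, x⟫ - ℓ x| ≤ γ) → a ∈ B → (∀ a' ∈ B, ⟪b, a⟫ ≤ ⟪b, a'⟫ → a' ∈ u) →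
      Λ x2 = 0 → c + 8 * γ ≤ ℓ x2 → x2 ∈ v → False := by
    intro u v hu hv hcov hdis γ b a x2 hγ hb0 hb haB hau hx2 hx2c hx2v
    set K := B ∩ ({x | Λ x = 0} ∩ ({x | c + 4 * γ ≤ ℓ x} ∩ uᶜ)) with hK
    have hKc : IsCompact K := hB.inter_right
      ((isClosed_eq hc continuous_const).inter
        ((isClosed_le continuous_const ℓ.continuous).inter hu.isClosed_compl))
    have hx2K : x2 ∈ K := ⟨hSB _ hx2, hx2, by show c + 4 * γ ≤ ℓ x2; linarith,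
      fun h => hdis x2 hx2 (by linarith) h hx2v⟩
    obtain ⟨z, hzK, hz⟩ := hKc.exists_isMaxOn ⟨x2, hx2K⟩
      (f := fun x => ⟪b, x⟫) (by fun_prop)
    have hgap : ⟪b, z⟫ < ⟪b, a⟫ := by
      by_contra h
      exact hzK.2.2.2 (hau z hzK.1 (not_lt.1 h))
    have hbn : 0 < ‖b‖ := norm_pos_iff.2 hb0
    obtain ⟨η, hη, h1, h2, h3⟩ : ∃ η : ℝ, 0 < η ∧ η * R ^ 2 ≤ γ ∧
        4 * η * R ^ 2 < ⟪b, a⟫ - ⟪b, z⟫ ∧ 2 * η * R < ‖b‖ := by
      have e1 : ∀ᶠ η in 𝓝 (0 : ℝ), η * R ^ 2 < γ :=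
        (by fun_prop : Continuous fun η : ℝ => η * R ^ 2).continuousAt.eventually_lt
          continuousAt_const (by simpa using hγ)
      have e2 : ∀ᶠ η in 𝓝 (0 : ℝ), 4 * η * R ^ 2 < ⟪b, a⟫ - ⟪b, z⟫ :=
        (by fun_prop : Continuous fun η : ℝ => 4 * η * R ^ 2).continuousAt.eventually_lt
          continuousAt_const (by simpa using hgap)
      have e3 : ∀ᶠ η in 𝓝 (0 : ℝ), 2 * η * R < ‖b‖ :=
        (by fun_prop : Continuous fun η : ℝ => 2 * η * R).continuousAt.eventually_lt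
          continuousAt_const (by simpa using hb0)
      obtain ⟨η, ⟨⟨e1, e2⟩, e3⟩, e4⟩ :=
        ((((e1.and e2).and e3).filter_mono (nhdsWithin_le_nhds (s := Ioi 0))).and
          self_mem_nhdsWithin).exists
      exact ⟨η, e4, e1.le, e2, e3⟩
    obtain ⟨x, hxK, hx⟩ := hKc.exists_isMaxOn ⟨x2, hx2K⟩ (phi_cont b η).continuousOn
    have hxB := hxK.1
    have hx0 : Λ x = 0 := hxK.2.1
    have hxR := hR x hxB
    have hxsq : η * ‖x‖ ^ 2 ≤ γ :=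
      (mul_le_mul_of_nonneg_left (pow_le_pow_left₀ (norm_nonneg _) hxR 2) hη.le).trans h1
    have hxc : c + 4 * γ < ℓ x := by
      have e1 : phi b η x2 ≤ phi b η x := hx hx2K
      unfold phi at e1
      have e2 := abs_le.1 (hb x hxB)
      have e3 := abs_le.1 (hb x2 (hSB _ hx2))
      have := mul_nonneg hη.le (sq_nonneg ‖x2‖)
      linarith [e2.2, e3.1]
    have hxv : x ∈ v := by
      rcases hcov ⟨hx0, by linarith⟩ with h | h
      · exact absurd h hxK.2.2.2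
      · exact h
    have hloc : ∀ᶠ y in 𝓝 x, Λ y = 0 → phi b η y ≤ phi b η x := by
      have e1 : ∀ᶠ y in 𝓝 x, c + 4 * γ < ℓ y :=
        continuousAt_const.eventually_lt ℓ.continuous.continuousAt hxc
      filter_upwards [e1, hv.mem_nhds hxv] with y e1 e2 e3
      exact hx ⟨hSB _ e3, e3, e1.le, fun h => hdis y e3 (by linarith) h e2⟩
    have hν : b + (2 * η) • x ≠ 0 := by
      intro h
      have e1 : b = -((2 * η) • x) := eq_neg_of_add_eq_zero_left h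
      have e2 : ‖b‖ = 2 * η * ‖x‖ := by
        rw [e1, norm_neg, norm_smul, Real.norm_of_nonneg (by linarith)]
      nlinarith
    obtain ⟨L, hL0, hL⟩ := hD x hx0
    have h4 := local_max_supports hc hBc hxB hx0 hL0 hL hη hν (hQ x hx0) (hP x hx0) hloc a haB
    rw [inner_add_left, real_inner_smul_left, inner_sub_right] at h4
    have h5 : |⟪x, a - x⟫| ≤ 2 * R ^ 2 := by
      refine (abs_real_inner_le_norm _ _).trans ?_
      have := norm_sub_le a x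
      have := hR a haB
      have := norm_nonneg x
      have := norm_nonneg (a - x)
      nlinarith
    have h6 : ⟪b, x⟫ ≤ ⟪b, z⟫ := hz hxK
    have h7 := mul_le_mul_of_nonneg_left (abs_le.1 h5).1 (by linarith : 0 ≤ 2 * η)
    linarith
  intro u v hu hv hcov ⟨x1, ⟨hx1, hx1c⟩, hx1u⟩ ⟨x2, ⟨hx2, hx2c⟩, hx2v⟩
  by_contra hne
  have hdis : ∀ x, Λ x = 0 → c < ℓ x → x ∈ u → x ∈ v → False :=
    fun x h1 h2 h3 h4 => hne ⟨x, ⟨h1, h2⟩, h3, h4⟩
  set γ := (min (ℓ x1) (ℓ x2) - c) / 8 with hγ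
  have hγ0 : 0 < γ := by
    have := lt_min hx1c hx2c
    rw [hγ]; linarith
  have hγ1 : c + 8 * γ ≤ ℓ x1 := by have := min_le_left (ℓ x1) (ℓ x2); rw [hγ]; linarith
  have hγ2 : c + 8 * γ ≤ ℓ x2 := by have := min_le_right (ℓ x1) (ℓ x2); rw [hγ]; linarith
  obtain ⟨b, hb0, hb, hmax⟩ := hA γ hγ0
  obtain ⟨a, haB, ha⟩ := hB.exists_isMaxOn ⟨x1, hSB _ hx1⟩ (f := fun x => ⟪b, x⟫) (by fun_prop)
  set Am := B ∩ {y | ⟪b, a⟫ ≤ ⟪b, y⟫} with hAm
  have hAc : Convex ℝ Am := hBc.inter (convex_halfSpace_ge (f := fun y => ⟪b, y⟫)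
    ⟨fun x y => inner_add_right _ _ _, fun r x => real_inner_smul_right _ _ _⟩ _)
  have hAT : Am ⊆ {x | Λ x = 0 ∧ c < ℓ x} := by
    intro y hy
    refine ⟨hmax y hy.1 fun z hz => le_trans (ha hz) hy.2, ?_⟩
    have e1 : ⟪b, x1⟫ ≤ ⟪b, a⟫ := ha (hSB _ hx1)
    have e2 : ⟪b, a⟫ ≤ ⟪b, y⟫ := hy.2
    have e3 := abs_le.1 (hb y hy.1)
    have e4 := abs_le.1 (hb x1 (hSB _ hx1))
    linarith [e3.2, e4.1]
  have hsub : Am ⊆ u ∨ Am ⊆ v := by
    by_contra h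
    rw [not_or, not_subset, not_subset] at h
    obtain ⟨⟨p, hp, hpu⟩, q, hq, hqv⟩ := h
    have hpv : p ∈ v := (hcov (hAT hp)).resolve_left hpu
    have hqu : q ∈ u := (hcov (hAT hq)).resolve_right hqv
    obtain ⟨r, hr, hru, hrv⟩ := hAc.isPreconnected u v hu hv (hAT.trans hcov) ⟨q, hq, hqu⟩
      ⟨p, hp, hpv⟩
    exact hdis r (hAT hr).1 (hAT hr).2 hru hrv
  rcases hsub with h | h
  · exact core u v hu hv hcov hdis γ b a x2 hγ0 hb0 hb haB (fun a' h1 h2 => h ⟨h1, h2⟩) hx2 hγ2 hx2v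
  · exact core v u hv hu (by rwa [union_comm]) (fun x h1 h2 h3 h4 => hdis x h1 h2 h4 h3) γ b a x1
      hγ0 hb0 hb haB (fun a' h1 h2 => h ⟨h1, h2⟩) hx1 hγ1 hx1u

end Pool.Agent.Lib.MP_d88725_gt
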