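import Pool.Agent.Lib.MP_d88725_gt.Facts
import Pool.Agent.Lib.MP_d88725_gt.TPP

set_option autoImplicit false
set_option linter.unusedVariables false

namespace Pool.Agent.Lib.MP_d88725_gt

open Set Filter Topology
open scoped RealInnerProductSpace

/-- Euclidean three-space -/
abbrev E3 : Type := EuclideanSpace ℝ (Fin 3)

/-- Cartesian coordinates -/
def ce : Co E3 := ⟨fun p => p 0, fun p => p 1, fun p => p 2⟩

lemma ce_sm : ce.Sm :=
  ⟨(EuclideanSpace.proj (0 : Fin 3) : E3 →L[ℝ] ℝ).contDiff,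
    (EuclideanSpace.proj (1 : Fin 3) : E3 →L[ℝ] ℝ).contDiff,
    (EuclideanSpace.proj (2 : Fin 3) : E3 →L[ℝ] ℝ).contDiff⟩

/-- the linear part of a leaf -/
noncomputable def lin3 (c1 c2 c3 : ℝ) : E3 →ₗ[ℝ] ℝ where
  toFun p := c1 * p 0 + c2 * p 1 + c3 * p 2
  map_add' a b := by simp; ring
  map_smul' r a := by simp; ring

lemma lf_P0 (c1 c2 c3 c0 : ℝ) (x : E3) : P0 (lf c1 c2 c3 c0 ce) x :=
  P0_of_affine (lin3 c1 c2 c3) c0 fun _ => rfl

lemma lf_Q0 (c1 c2 c3 c0 : ℝ) (x : E3) : Q0 (lf c1 c2 c3 c0 ce) x :=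
  Q0_of_affine (lin3 c1 c2 c3) c0 fun _ => rfl

lemma lf_convex (c1 c2 c3 c0 : ℝ) : ConvexOn ℝ univ (lf c1 c2 c3 c0 ce) :=
  ((lin3 c1 c2 c3).convexOn convex_univ).add_const c0

variable {e : ℝ} {x : E3}

lemma LH_convex (he : 0 < e) : ConvexOn ℝ univ (LH e ce) :=
  MX_convex he (MX_convex he (MX_convex he (lf_convex ..) (lf_convex ..)) (lf_convex ..))
    (MX_convex he (MX_convex he (lf_convex ..) (lf_convex ..)) (lf_convex ..))

lemma LB_convex (he : 0 < e) : ConvexOn ℝ univ (LB e ce) :=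
  MX_convex he (LH_convex he) (MX_convex he (lf_convex ..) (lf_convex ..))

lemma LB_Q0 (he : 0 < e) : Q0 (LB e ce) x :=
  MX_Q0 he (MX_Q0 he (MX_Q0 he (MX_Q0 he (lf_Q0 ..) (lf_Q0 ..)) (lf_Q0 ..))
    (MX_Q0 he (MX_Q0 he (lf_Q0 ..) (lf_Q0 ..)) (lf_Q0 ..))) (MX_Q0 he (lf_Q0 ..) (lf_Q0 ..))

lemma M05_P0 (he : 0 < e) : P0 (M05 e ce) x := MN_P0 he (lf_P0 ..) (lf_P0 ..)
lemma M34_P0 (he : 0 < e) : P0 (M34 e ce) x := MN_P0 he (lf_P0 ..) (lf_P0 ..)
lemma M61_P0 (he : 0 < e) : P0 (M61 e ce) x := MN_P0 he (lf_P0 ..) (lf_P0 ..)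
lemma M72_P0 (he : 0 < e) : P0 (M72 e ce) x := MN_P0 he (lf_P0 ..) (lf_P0 ..)
lemma M05_Q1 (he : 0 < e) : Q1 (M05 e ce) x := MN_Q1 he (lf_Q0 ..) (lf_Q0 ..)
lemma M34_Q1 (he : 0 < e) : Q1 (M34 e ce) x := MN_Q1 he (lf_Q0 ..) (lf_Q0 ..)
lemma M61_Q1 (he : 0 < e) : Q1 (M61 e ce) x := MN_Q1 he (lf_Q0 ..) (lf_Q0 ..)
lemma M72_Q1 (he : 0 < e) : Q1 (M72 e ce) x := MN_Q1 he (lf_Q0 ..) (lf_Q0 ..)
lemma L1_P1 (he : 0 < e) : P1 (L1 e ce) x := MX_P1 he (M05_P0 he) (M34_P0 he)
lemma L2_P1 (he : 0 < e) : P1 (L2 e ce) x := MX_P1 he (M61_P0 he) (M72_P0 he)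

lemma far_or_near (a b w : ℝ) : (b + w < a ∨ a + w < b) ∨ (a ≤ b + w ∧ b ≤ a + w) := by
  rcases lt_or_ge (b + w) a with h | h
  · exact Or.inl (Or.inl h)
  · rcases lt_or_ge (a + w) b with h' | h'
    · exact Or.inl (Or.inr h')
    · exact Or.inr ⟨h, h'⟩

lemma L1_P0 (he : 0 < e) (h : M34 e ce x + e < M05 e ce x ∨ M05 e ce x + e < M34 e ce x) :
    P0 (L1 e ce) x :=
  MX_P0_of_far he (M05_cd ce_sm).continuous (M34_cd ce_sm).continuous (M05_P0 he) (M34_P0 he) h

lemma L2_P0 (he : 0 < e) (h : M72 e ce x + e < M61 e ce x ∨ M61 e ce x + e < M72 e ce x) :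
    P0 (L2 e ce) x :=
  MX_P0_of_far he (M61_cd ce_sm).continuous (M72_cd ce_sm).continuous (M61_P0 he) (M72_P0 he) h

lemma LI_P1 (he : 0 < e) (he0 : e ≤ 1 / 10000000) (hB : InB e ce x) (h1 : -2 * e ≤ LI e ce x)
    (h2 : LI e ce x ≤ 0) : P1 (LI e ce) x := by
  rcases far_or_near (L1 e ce x) (L2 e ce x) e with (h | h) | ⟨ha, hb⟩
  · exact (L2_P1 he).congr (MN_ev_right he (L1_cd ce_sm).continuous (L2_cd ce_sm).continuous h)
  · exact (L1_P1 he).congr (MN_ev_left he (L1_cd ce_sm).continuous (L2_cd ce_sm).continuous h)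
  · rcases far_or_near (M05 e ce x) (M34 e ce x) e with h | ⟨hc, hd⟩
    · exact MN_P1r he (L1_P0 he h) (L2_P1 he)
    · rcases far_or_near (M61 e ce x) (M72 e ce x) e with h | ⟨hf, hg⟩
      · exact MN_P1l he (L1_P1 he) (L2_P0 he h)
      · exfalso
        obtain ⟨s1, s2, s3⟩ := LI_spec he ce x
        obtain ⟨-, -, s4⟩ := L1_spec he ce x
        obtain ⟨-, -, s5⟩ := L2_spec he ce x
        obtain ⟨t0, t5, -⟩ := M05_spec he ce x
        obtain ⟨t3, t4, -⟩ := M34_spec he ce x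
        obtain ⟨t6, t1, -⟩ := M61_spec he ce x
        obtain ⟨t7, t2, -⟩ := M72_spec he ce x
        have u1 : -4 * e ≤ M05 e ce x ∧ -4 * e ≤ M34 e ce x := by
          rcases s4 with s | s <;> constructor <;> linarith
        have u2 : -4 * e ≤ M61 e ce x ∧ -4 * e ≤ M72 e ce x := by
          rcases s5 with s | s <;> constructor <;> linarith
        have u3 : L1 e ce x ≤ 2 * e ∧ L2 e ce x ≤ 2 * e := by
          rcases s3 with s | s <;> constructor <;> linarith
        exact F3 he he0 hB (by linarith [u1.1]) (by linarith [u2.1]) (by linarith [u2.2])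
          (by linarith [u1.2]) (by linarith [u1.2]) (by linarith [u1.1]) (by linarith [u2.1])
          (by linarith [u2.2]) (le1_of he (by linarith [u3.1])) (le2_of he (by linarith [u3.2]))

lemma LI_P0 (he : 0 < e) (he0 : e ≤ 1 / 10000000) (hB : InB e ce x) (h1 : -2 * e ≤ LI e ce x)
    (h2 : LI e ce x ≤ 0) (hT : -5 * e ≤ TP e ce x ∨ -5 * e ≤ TM e ce x) : P0 (LI e ce) x := by
  obtain ⟨s1, s2, s3⟩ := LI_spec he ce x
  refine MN_P0_act he (L1_cd ce_sm).continuous (L2_cd ce_sm).continuous (fun ha => ?_) fun ha => ?_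
  · rcases far_or_near (M05 e ce x) (M34 e ce x) e with h | ⟨hc, hd⟩
    · exact L1_P0 he h
    · exfalso
      obtain ⟨-, -, s4⟩ := L1_spec he ce x
      obtain ⟨t0, t5, -⟩ := M05_spec he ce x
      obtain ⟨t3, t4, -⟩ := M34_spec he ce x
      have u1 : -4 * e ≤ M05 e ce x ∧ -4 * e ≤ M34 e ce x := by
        rcases s4 with s | s <;> constructor <;> linarith
      have u3 : L1 e ce x ≤ 2 * e := by rcases s3 with s | s <;> linarith
      rcases hT with hT | hT
      · exact G5_4 he he0 hB hT (by linarith [u1.2])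
      · exact G5_0 he he0 hB hT (by linarith [u1.1]) (by linarith [u1.1])
          (ge2_of he (by linarith)) (le1_of he (by linarith)).2
  · rcases far_or_near (M61 e ce x) (M72 e ce x) e with h | ⟨hc, hd⟩
    · exact L2_P0 he h
    · exfalso
      obtain ⟨-, -, s4⟩ := L2_spec he ce x
      obtain ⟨t6, t1, -⟩ := M61_spec he ce x
      obtain ⟨t7, t2, -⟩ := M72_spec he ce x
      have u1 : -4 * e ≤ M61 e ce x ∧ -4 * e ≤ M72 e ce x := by
        rcases s4 with s | s <;> constructor <;> linarith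
      have u3 : L2 e ce x ≤ 2 * e := by rcases s3 with s | s <;> linarith
      rcases hT with hT | hT
      · exact G5_6 he he0 hB hT (by linarith [u1.1]) (by linarith [u1.1])
          (ge1_of he (by linarith)) (le2_of he (by linarith)).2
      · exact G5_2 he he0 hB hT (by linarith [u1.2])

lemma mn_near (he : 0 < e) {a b m : ℝ} (s : m ≤ a ∧ m ≤ b ∧ (a - e ≤ m ∨ b - e ≤ m))
    (h1 : a ≤ b + e) (h2 : b ≤ a + e) (h3 : -4 * e ≤ m) (h4 : m ≤ 2 * e) :
    -4 * e ≤ a ∧ a ≤ 4 * e ∧ -4 * e ≤ b ∧ b ≤ 4 * e := by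
  obtain ⟨s1, s2, s3 | s3⟩ := s <;> refine ⟨?_, ?_, ?_, ?_⟩ <;> linarith

lemma sheet_Q1 (he : 0 < e) {A B C D : E3 → ℝ} (cA : Continuous A) (cB : Continuous B)
    (cC : Continuous C) (cD : Continuous D) (cAB : Continuous (MN e A B))
    (cCD : Continuous (MN e C D)) (qA : Q0 A x) (qB : Q0 B x) (qC : Q0 C x) (qD : Q0 D x)
    (h1 : -2 * e ≤ MX e (MN e A B) (MN e C D) x) (h2 : MX e (MN e A B) (MN e C D) x ≤ 2 * e)
    (h : -4 * e ≤ A x → A x ≤ 4 * e → -4 * e ≤ B x → B x ≤ 4 * e → -4 * e ≤ C x → C x ≤ 4 * e →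
      -4 * e ≤ D x → D x ≤ 4 * e → False) : Q1 (MX e (MN e A B) (MN e C D)) x := by
  rcases far_or_near (MN e A B x) (MN e C D x) e with (h' | h') | ⟨ha, hb⟩
  · exact (MN_Q1 he qA qB).congr (MX_ev_left he cAB cCD h')
  · exact (MN_Q1 he qC qD).congr (MX_ev_right he cAB cCD h')
  · rcases far_or_near (A x) (B x) e with h' | ⟨hc, hd⟩
    · exact MX_Q1r he (MN_Q0_of_far he cA cB qA qB h') (MN_Q1 he qC qD)
    · rcases far_or_near (C x) (D x) e with h' | ⟨hf, hg⟩
      · exact MX_Q1l he (MN_Q1 he qA qB) (MN_Q0_of_far he cC cD qC qD h')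
      · exfalso
        have s1 : MN e A B x ≤ MX e (MN e A B) (MN e C D) x := le_mx_left he _ _
        have s2 : MN e C D x ≤ MX e (MN e A B) (MN e C D) x := le_mx_right he _ _
        have s3 : MX e (MN e A B) (MN e C D) x ≤ MN e A B x + e ∨
          MX e (MN e A B) (MN e C D) x ≤ MN e C D x + e := mx_cases he _ _
        have u1 : -4 * e ≤ MN e A B x ∧ -4 * e ≤ MN e C D x := by
          rcases s3 with s | s <;> constructor <;> linarith
        obtain ⟨v1, v2, v3, v4⟩ := mn_near he (m := MN e A B x)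
          ⟨mn_le_left he _ _, mn_le_right he _ _, mn_cases he _ _⟩ hc hd u1.1 (by linarith)
        obtain ⟨v5, v6, v7, v8⟩ := mn_near he (m := MN e C D x)
          ⟨mn_le_left he _ _, mn_le_right he _ _, mn_cases he _ _⟩ hf hg u1.2 (by linarith)
        exact h v1 v2 v3 v4 v5 v6 v7 v8

lemma sheet_Q0 (he : 0 < e) {A B C D : E3 → ℝ} (cA : Continuous A) (cB : Continuous B)
    (cC : Continuous C) (cD : Continuous D) (cAB : Continuous (MN e A B))
    (cCD : Continuous (MN e C D)) (qA : Q0 A x) (qB : Q0 B x) (qC : Q0 C x) (qD : Q0 D x)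
    (h1 : -2 * e ≤ MX e (MN e A B) (MN e C D) x) (h2 : MX e (MN e A B) (MN e C D) x ≤ 2 * e)
    (h : -4 * e ≤ A x → A x ≤ 4 * e → -4 * e ≤ B x → B x ≤ 4 * e → False)
    (h' : -4 * e ≤ C x → C x ≤ 4 * e → -4 * e ≤ D x → D x ≤ 4 * e → False) :
    Q0 (MX e (MN e A B) (MN e C D)) x := by
  have s1 : MN e A B x ≤ MX e (MN e A B) (MN e C D) x := le_mx_left he _ _
  have s2 : MN e C D x ≤ MX e (MN e A B) (MN e C D) x := le_mx_right he _ _
  have s3 : MX e (MN e A B) (MN e C D) x ≤ MN e A B x + e ∨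
    MX e (MN e A B) (MN e C D) x ≤ MN e C D x + e := mx_cases he _ _
  refine MX_Q0_act he cAB cCD (fun ha => ?_) fun ha => ?_
  · rcases far_or_near (A x) (B x) e with k | ⟨hc, hd⟩
    · exact MN_Q0_of_far he cA cB qA qB k
    · exfalso
      have u1 : -4 * e ≤ MN e A B x := by rcases s3 with s | s <;> linarith
      obtain ⟨v1, v2, v3, v4⟩ := mn_near he (m := MN e A B x)
        ⟨mn_le_left he _ _, mn_le_right he _ _, mn_cases he _ _⟩ hc hd u1 (by linarith)
      exact h v1 v2 v3 v4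
  · rcases far_or_near (C x) (D x) e with k | ⟨hc, hd⟩
    · exact MN_Q0_of_far he cC cD qC qD k
    · exfalso
      have u1 : -4 * e ≤ MN e C D x := by rcases s3 with s | s <;> linarith
      obtain ⟨v1, v2, v3, v4⟩ := mn_near he (m := MN e C D x)
        ⟨mn_le_left he _ _, mn_le_right he _ _, mn_cases he _ _⟩ hc hd u1 (by linarith)
      exact h' v1 v2 v3 v4

lemma LI_Q1 (he : 0 < e) (he0 : e ≤ 1 / 10000000) (hB : InB e ce x) (h1 : -2 * e ≤ LI e ce x)
    (h2 : LI e ce x ≤ 0) : Q1 (LI e ce) x := by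
  obtain ⟨s1, s2, s3⟩ := LI_spec he ce x
  rcases far_or_near (L1 e ce x) (L2 e ce x) e with (h | h) | ⟨ha, hb⟩
  · have u : L2 e ce x ≤ 2 * e := by rcases s3 with s | s <;> linarith
    exact (sheet_Q1 he (A6_cd ce_sm).continuous (A1_cd ce_sm).continuous (A7_cd ce_sm).continuous
      (A2_cd ce_sm).continuous (M61_cd ce_sm).continuous (M72_cd ce_sm).continuous (lf_Q0 ..)
      (lf_Q0 ..) (lf_Q0 ..) (lf_Q0 ..) (h1.trans s2) u (F4b2 he he0 hB)).congr
      (MN_ev_right he (L1_cd ce_sm).continuous (L2_cd ce_sm).continuous h)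
  · have u : L1 e ce x ≤ 2 * e := by rcases s3 with s | s <;> linarith
    exact (sheet_Q1 he (A0_cd ce_sm).continuous (A5_cd ce_sm).continuous (A3_cd ce_sm).continuous
      (A4_cd ce_sm).continuous (M05_cd ce_sm).continuous (M34_cd ce_sm).continuous (lf_Q0 ..)
      (lf_Q0 ..) (lf_Q0 ..) (lf_Q0 ..) (h1.trans s1) u (F4b1 he he0 hB)).congr
      (MN_ev_left he (L1_cd ce_sm).continuous (L2_cd ce_sm).continuous h)
  · have u : L1 e ce x ≤ 2 * e ∧ L2 e ce x ≤ 2 * e := by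
      rcases s3 with s | s <;> constructor <;> linarith
    have g1 : Ge1 e ce x (-3 * e) := ge1_of he (by linarith)
    have g2 : Ge2 e ce x (-3 * e) := ge2_of he (by linarith)
    have l1 : Le1 e ce x (3 * e) := le1_of he (by linarith [u.1])
    have l2 : Le2 e ce x (3 * e) := le2_of he (by linarith [u.2])
    exact MN_Q1 he
      (sheet_Q0 he (A0_cd ce_sm).continuous (A5_cd ce_sm).continuous (A3_cd ce_sm).continuous
        (A4_cd ce_sm).continuous (M05_cd ce_sm).continuous (M34_cd ce_sm).continuous (lf_Q0 ..)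
        (lf_Q0 ..) (lf_Q0 ..) (lf_Q0 ..) (h1.trans s1) u.1
        (fun a b c d => F4a05 he he0 hB a b c d l1.2 g2 l2)
        (fun a b c d => F4a34 he he0 hB a b c d l1.1 g2 l2))
      (sheet_Q0 he (A6_cd ce_sm).continuous (A1_cd ce_sm).continuous (A7_cd ce_sm).continuous
        (A2_cd ce_sm).continuous (M61_cd ce_sm).continuous (M72_cd ce_sm).continuous (lf_Q0 ..)
        (lf_Q0 ..) (lf_Q0 ..) (lf_Q0 ..) (h1.trans s2) u.2
        (fun a b c d => F4a61 he he0 hB a b c d l2.2 g1 l1)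
        (fun a b c d => F4a72 he he0 hB a b c d l2.1 g1 l1))

lemma LH_lt {V : Type*} {c : Co V} {p : V} (he : 0 < e) (he0 : e ≤ 1 / 10000000) (hB : InB e c p)
    (h1 : -2 * e ≤ LI e c p) : LH e c p < -5 * e := by
  obtain ⟨s1, s2, -⟩ := LI_spec he c p
  by_contra h
  refine F1 he he0 hB (ge1_of he (by linarith)) (ge2_of he (by linarith)) ?_
  rcases LH_le he c p with k | k | k | k | k | k
  · left; linarith
  · right; left; linarith
  · right; right; left; linarith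
  · right; right; right; left; linarith
  · right; right; right; right; left; linarith
  · right; right; right; right; right; linarith

lemma LB_flat (he : 0 < e) (he0 : e ≤ 1 / 10000000) (hB : InB e ce x) (h1 : -2 * e ≤ LI e ce x)
    (h2 : -2 * e ≤ LB e ce x) : (LB e ce =ᶠ[𝓝 x] TP e ce ∧ -5 * e ≤ TP e ce x) ∨
      (LB e ce =ᶠ[𝓝 x] TM e ce ∧ -5 * e ≤ TM e ce x) := by
  have h3 := LH_lt he he0 hB h1
  obtain ⟨-, -, s⟩ := LB_spec he ce x
  have h4 : -3 * e ≤ LT e ce x := by rcases s with s | s <;> linarith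
  have h5 : LB e ce =ᶠ[𝓝 x] LT e ce :=
    MX_ev_right he (LH_cd ce_sm).continuous (LT_cd ce_sm).continuous (by linarith)
  have h6 : TP e ce x + TM e ce x = -2 + 50 * e := by simp only [TP, TM, lf]; ring
  obtain ⟨-, -, s | s⟩ := LT_spec he ce x
  · left
    exact ⟨h5.trans (MX_ev_left he (TP_cd ce_sm).continuous (TM_cd ce_sm).continuous
      (by linarith)), by linarith⟩
  · right
    exact ⟨h5.trans (MX_ev_right he (TP_cd ce_sm).continuous (TM_cd ce_sm).continuous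
      (by linarith)), by linarith⟩

lemma LL_PQ (he : 0 < e) (he0 : e ≤ 1 / 10000000) (hx : LL e ce x = 0) :
    Q1 (LL e ce) x ∧ (P1 (LL e ce) x ∨ LL e ce =ᶠ[𝓝 x] LB e ce) := by
  have hB := inB_of_LL he hx
  obtain ⟨s1, s2, s3⟩ := LL_spec he ce x
  rw [hx] at s1 s2 s3
  by_cases hI : -2 * e ≤ LI e ce x
  · by_cases hb : LB e ce x + e < LI e ce x
    · have h := MX_ev_right he (LB_cd (e := e) ce_sm).continuous (LI_cd ce_sm).continuous hb
      exact ⟨(LI_Q1 he he0 hB hI s2).congr h, Or.inl ((LI_P1 he he0 hB hI s2).congr h)⟩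
    · have h2 : -2 * e ≤ LB e ce x := by rcases s3 with s | s <;> linarith
      refine ⟨MX_Q1r he (LB_Q0 he) (LI_Q1 he he0 hB hI s2), Or.inl ?_⟩
      rcases LB_flat he he0 hB hI h2 with ⟨h, h'⟩ | ⟨h, h'⟩
      · exact MX_P1 he ((lf_P0 ..).congr h) (LI_P0 he he0 hB hI s2 (Or.inl h'))
      · exact MX_P1 he ((lf_P0 ..).congr h) (LI_P0 he he0 hB hI s2 (Or.inr h'))
  · have h := MX_ev_left he (LB_cd (e := e) ce_sm).continuous (LI_cd ce_sm).continuous
      (show LI e ce x + e < LB e ce x by rcases s3 with s | s <;> linarith)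
    exact ⟨(LB_Q0 he).toQ1.congr h, Or.inr h⟩

lemma norm_le_six (he : 0 < e) (he0 : e ≤ 1 / 10000000) (hB : InB e ce x) : ‖x‖ ≤ 6 := by
  obtain ⟨h1, h2, h3, h4, h5, h6⟩ := box he he0 hB
  simp only [ce] at h1 h2 h3 h4 h5 h6
  rw [EuclideanSpace.norm_eq, Real.sqrt_le_iff, Fin.sum_univ_three]
  simp only [Real.norm_eq_abs, sq_abs]
  constructor
  · norm_num
  · nlinarith

lemma B_compact (he : 0 < e) (he0 : e ≤ 1 / 10000000) : IsCompact {x : E3 | LB e ce x ≤ 0} := by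
  refine Metric.isCompact_of_isClosed_isBounded
    (isClosed_le (LB_cd ce_sm).continuous continuous_const) ?_
  exact isBounded_iff_forall_norm_le.2 ⟨6, fun x hx => norm_le_six he he0 (inB_of_LB he hx)⟩

lemma inner_single (b : E3) (t : ℝ) : ⟪b, EuclideanSpace.single (0 : Fin 3) t⟫ = t * b 0 := by
  rw [EuclideanSpace.inner_single_right]; simp

theorem tight (he : 0 < e) (he0 : e ≤ 1 / 10000000)
    (hD : ∀ x, LL e ce x = 0 → fderiv ℝ (LL e ce) x ≠ 0) (ℓ : E3 →L[ℝ] ℝ) (c : ℝ) :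
    IsPreconnected {x | LL e ce x = 0 ∧ c < ℓ x} := by
  have hd : 2 < Module.finrank ℝ E3 := by simp
  refine tpp (LL_cd ce_sm).continuous (B_compact he he0)
    (by simpa using (LB_convex he).convex_le 0)
    (fun x hx => hx ▸ (LL_spec he ce x).1)
    (fun x hx => ⟨_, hD x hx, ((LL_cd ce_sm).differentiable (by simp) x).hasFDerivAt⟩)
    (fun x hx => hx ▸ (LL_PQ he he0 hx).1.line hd) (fun x hx => ?_) ℓ (fun γ hγ => ?_) c
  · rcases (LL_PQ he he0 hx).2 with h | h
    · exact Or.inl (hx ▸ h.line hd)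
    · exact Or.inr (h.mono fun y hy hyB => hy ▸ hyB)
  · obtain ⟨b, hb0, hb⟩ : ∃ b : E3, b 0 ≠ 0 ∧ ∀ x : E3, LB e ce x ≤ 0 → |⟪b, x⟫ - ℓ x| ≤ γ := by
      set b0 := (InnerProductSpace.toDual ℝ E3).symm ℓ with hb0
      have h0 : ∀ x, ⟪b0, x⟫ = ℓ x := fun x => InnerProductSpace.toDual_symm_apply
      by_cases h : b0 0 = 0
      · refine ⟨b0 + EuclideanSpace.single 0 (γ / 4), ?_, fun x hx => ?_⟩
        · simp [h, hγ.ne']
        · rw [inner_add_left, h0, real_inner_comm, inner_single, add_sub_cancel_left, abs_le]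
          obtain ⟨h1, h2, -⟩ := box he he0 (inB_of_LB he hx)
          simp only [ce] at h1 h2
          constructor <;> nlinarith
      · exact ⟨b0, h, fun x _ => by rw [h0]; simpa using hγ.le⟩
    refine ⟨b, fun h => hb0 (by rw [h]; rfl), hb, fun a ha hmax => ?_⟩
    have key : ¬∀ᶠ t in 𝓝 (0 : ℝ), LB e ce (a + t • EuclideanSpace.single 0 (b 0)) ≤ 0 := by
      intro h
      obtain ⟨t, ht, ht0⟩ := ((h.filter_mono (nhdsWithin_le_nhds (s := Ioi 0))).and
        self_mem_nhdsWithin).exists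
      have ht0' : 0 < t := ht0
      have := hmax _ ht
      rw [inner_add_right, real_inner_smul_right, inner_single] at this
      have := mul_pos ht0' (mul_self_pos.2 hb0)
      linarith
    have ha' : LB e ce a ≤ 0 := ha
    have h0 : LB e ce a = 0 := by
      by_contra h
      apply key
      have : ∀ᶠ y in 𝓝 a, LB e ce y < 0 :=
        (LB_cd ce_sm).continuous.continuousAt.eventually_lt continuousAt_const
          (lt_of_le_of_ne ha' h)
      exact ((path_tendsto a _).eventually this).mono fun t ht => ht.le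
    by_cases hI : -2 * e ≤ LI e ce a
    · exfalso
      apply key
      rcases LB_flat he he0 (inB_of_LB he ha') hI (by linarith) with ⟨h, -⟩ | ⟨h, -⟩
      · have h1 := h.self_of_nhds
        filter_upwards [(path_tendsto a (EuclideanSpace.single 0 (b 0))).eventually h] with t ht
        rw [ht, ← h0, h1]; simp [TP, lf, ce]
      · have h1 := h.self_of_nhds
        filter_upwards [(path_tendsto a (EuclideanSpace.single 0 (b 0))).eventually h] with t ht
        rw [ht, ← h0, h1]; simp [TM, lf, ce]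
    · have : LL e ce a = LB e ce a := mx_left he (by linarith)
      rw [this, h0]

end Pool.Agent.Lib.MP_d88725_gt
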