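import Pool.Agent.Lib.MP_d88725_gt.Jac
import Pool.Agent.Lib.MP_d88725_gt.Tight
import Pool.Agent.Lib.MP_d88725_gt.Approx

set_option autoImplicit false
set_option linter.unusedVariables false

namespace Pool.Agent.Lib.MP_d88725_gt

open Set Filter Topology Real Function

variable {e : ℝ} {p : Y3}

/-- the half turn in cylindrical coordinates -/
noncomputable def sig : Y3 →L[ℝ] Y3 :=
  (-ContinuousLinearMap.fst ℝ ℝ (ℝ × ℝ)).prod
    (((ContinuousLinearMap.fst ℝ ℝ ℝ).comp (ContinuousLinearMap.snd ℝ ℝ (ℝ × ℝ))).prod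
      (-(ContinuousLinearMap.snd ℝ ℝ ℝ).comp (ContinuousLinearMap.snd ℝ ℝ (ℝ × ℝ))))

lemma sig_apply (p : Y3) : sig p = (-p.1, p.2.1, -p.2.2) := rfl

lemma norm_sig (p : Y3) : ‖sig p‖ = ‖p‖ := by simp [sig_apply, Prod.norm_def]

lemma sig_X (p : Y3) : cy.X (sig p) = cy.mir.X p := by simp [sig_apply, cy, Co.mir]
lemma sig_Y (p : Y3) : cy.Y (sig p) = cy.mir.Y p := by simp [sig_apply, cy, Co.mir]
lemma sig_Z (p : Y3) : cy.Z (sig p) = cy.mir.Z p := by simp [sig_apply, cy, Co.mir]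

lemma LL_sig (he : 0 < e) (p : Y3) : LL e cy (sig p) = LL e cy p := by
  rw [LL_congr (sig_X p) (sig_Y p) (sig_Z p), LL_mir he]

lemma LI_sig (he : 0 < e) (p : Y3) : LI e cy (sig p) = LI e cy p := by
  rw [LI_congr (sig_X p) (sig_Y p) (sig_Z p), LI_mir he]

lemma LH_sig (he : 0 < e) (p : Y3) : LH e cy (sig p) = LH e cy p := by
  rw [LH_congr (sig_X p) (sig_Y p) (sig_Z p), LH_mir he]

lemma GH_sig (p : Y3) : GH e cy (sig p) = -GH e cy p := by
  rw [GH_congr (sig_X p) (sig_Y p) (sig_Z p), GH_mir]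

/-- meridian parameter on the upper chart -/
noncomputable def tauP (e : ℝ) : Y3 → ℝ := fun p => GP e cy rr p / (800 * p.2.1)

/-- meridian parameter on the lower chart -/
noncomputable def tauM (e : ℝ) : Y3 → ℝ := fun p => -tauP e (sig p)

lemma box_of_LL (he : 0 < e) (he0 : e ≤ 1 / 10000000) (hr : 0 < p.2.1) (h : LL e cy p = 0) :
    Box p := by
  have hB := inB_of_LL he h
  obtain ⟨b1, b2, b3, b4, b5, b6⟩ := box he he0 hB
  refine ⟨?_, ?_, b5, b6⟩
  · by_contra k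
    have k' := not_le.1 k
    have c1 := neg_one_le_cos (2 * π * p.1)
    have c2 := cos_le_one (2 * π * p.1)
    have c3 := neg_one_le_sin (2 * π * p.1)
    have c4 := sin_le_one (2 * π * p.1)
    refine G0 he he0 hB ?_ ?_ ?_ ?_ (le12_of he (LI_nonpos he h) (by linarith)) <;>
      simp only [cy] <;> nlinarith
  · simp only [cy] at b1 b2 b3 b4
    have h1 : (p.2.1 * cos (2 * π * p.1)) ^ 2 + (p.2.1 * sin (2 * π * p.1)) ^ 2 = p.2.1 ^ 2 := by
      have := cos_sq_add_sin_sq (2 * π * p.1)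
      linear_combination p.2.1 ^ 2 * this
    nlinarith

lemma box_sig (h : Box p) : Box (sig p) := by
  obtain ⟨h1, h2, h3, h4⟩ := h
  refine ⟨h1, h2, ?_, ?_⟩ <;> simp only [sig_apply] <;> linarith

lemma box_convex : Convex ℝ {p : Y3 | Box p} := by
  intro x hx y hy a b ha hb hab
  obtain ⟨h1, h2, h3, h4⟩ := hx
  obtain ⟨k1, k2, k3, k4⟩ := hy
  refine ⟨?_, ?_, ?_, ?_⟩ <;> simp <;> nlinarith

lemma UB_LH : UB fun e => LH e cy :=
  UB_MX (UB_MX (UB_MX (UB_lf _ _ _ (-12) 0 fun _ => by ring) (UB_lf _ _ _ (-8) 0 fun _ => by ring))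
      (UB_lf _ _ _ (-4) 0 fun _ => by ring))
    (UB_MX (UB_MX (UB_lf _ _ _ (-12) 0 fun _ => by ring) (UB_lf _ _ _ (-8) 0 fun _ => by ring))
      (UB_lf _ _ _ (-4) 0 fun _ => by ring))

lemma UB_LI : UB fun e => LI e cy :=
  UB_MN (UB_MX
      (UB_MN (UB_lf _ _ _ 2 0 fun _ => by ring) (UB_lf _ _ _ 6 (-200) fun _ => by ring))
      (UB_MN (UB_lf _ _ _ 2 10 fun _ => by ring) (UB_lf _ _ _ (-2) 60 fun _ => by ring)))
    (UB_MX (UB_MN (UB_lf _ _ _ 2 0 fun _ => by ring) (UB_lf _ _ _ 6 (-200) fun _ => by ring))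
      (UB_MN (UB_lf _ _ _ 2 10 fun _ => by ring) (UB_lf _ _ _ (-2) 60 fun _ => by ring)))

lemma UB_TP : UB fun e => TP e cy := UB_lf _ _ _ (-1) 25 fun _ => by ring

lemma UB_LL : UB fun e => LL e cy :=
  UB_MX (UB_MX UB_LH (UB_MX UB_TP (UB_lf _ _ _ (-1) 25 fun _ => by ring))) UB_LI

lemma UB_GH : UB fun e => GH e cy := by
  have h1 : UB fun e => CP e cy := UB_MX (UB_lf _ _ _ 0 0 fun _ => by ring)
    (UB_MN (UB_lf _ _ _ 1 50 fun _ => by ring) (UB_lf _ _ _ 0 0 fun _ => by ring))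
  have h2 : UB fun e => CM e cy := UB_MX (UB_lf _ _ _ 0 0 fun _ => by ring)
    (UB_MN (UB_lf _ _ _ 1 50 fun _ => by ring) (UB_lf _ _ _ 0 0 fun _ => by ring))
  exact (UB_comb h1 h2 (-1) 0 0).congr fun e p => by simp only [GH]; ring

lemma UB_GP : UB fun e => GP e cy rr := by
  have h1 : UB fun _ => E1 cy rr :=
    (UB_comb UB_Z UB_rr (-400) 0 0).congr fun e p => by simp only [E1]; ring
  have h2 : UB fun e => E2 e cy :=
    (UB_comb (UB_comb UB_GH UB_Z (-3) 0 0) UB_TP 2500 0 (-50000)).congr fun e p => by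
      simp only [E2]; ring
  have h3 : UB fun e => B1 e cy rr :=
    (UB_comb (UB_MX h1 h2) UB_LH (-6) 0 0).congr fun e p => by simp only [B1, E12]; ring
  have h4 : UB fun e => B2 e cy :=
    (UB_comb (UB_comb UB_GH UB_Z (-3) 0 0) UB_LI 20000 0 0).congr fun e p => by
      simp only [B2]; ring
  exact UB_MX h3 h4

lemma tauP_cd (hr : 0 < p.2.1) : ContDiffAt ℝ (⊤ : ℕ∞) (tauP e) p :=
  (GP_cd cy_sm rr_cd).contDiffAt.div (by fun_prop) (by positivity)

lemma tauM_cd (hr : 0 < p.2.1) : ContDiffAt ℝ (⊤ : ℕ∞) (tauM e) p :=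
  ((tauP_cd (p := sig p) hr).comp p sig.contDiff.contDiffAt).neg

lemma fderiv_tauP (hr : 0 < p.2.1) (v : Y3) : fderiv ℝ (tauP e) p v =
    fderiv ℝ (GP e cy rr) p v / (800 * p.2.1) - GP e cy rr p * v.2.1 / (800 * p.2.1 ^ 2) := by
  have h1 : HasFDerivAt (fun p : Y3 => (800 * rr p)⁻¹) _ p :=
    (hasDerivAt_inv (show 800 * rr p ≠ 0 by unfold rr; positivity)).comp_hasFDerivAt p
      ((rr_hasFDerivAt p).const_mul 800)
  have h2 := (dGP e p).hasFDerivAt.mul h1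
  have e1 : tauP e = GP e cy rr * fun p : Y3 => (800 * rr p)⁻¹ := by
    funext q; simp [tauP, rr, div_eq_mul_inv]
  rw [e1, h2.fderiv]
  simp [rr]
  field_simp
  ring

lemma UB_tauP : ∃ N : ℝ, 0 ≤ N ∧ ∀ e, 0 < e → e ≤ 1 → ∀ p, Box p →
    ‖fderiv ℝ (LL e cy) p‖ ≤ N ∧ ‖fderiv ℝ (tauP e) p‖ ≤ N := by
  obtain ⟨-, N1, h1⟩ := UB_LL
  obtain ⟨-, N2, h2⟩ := UB_GP
  refine ⟨max (max N1 N2) 0, le_max_right _ _, fun e h0 h1' p hp => ⟨?_, ?_⟩⟩
  · exact (h1 e h0 h1' p hp).2.trans ((le_max_left _ _).trans (le_max_left _ _))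
  · obtain ⟨a1, a2⟩ := h2 e h0 h1' p hp
    have hN : 0 ≤ N2 := (abs_nonneg _).trans a1
    refine le_trans ?_ ((le_max_right N1 N2).trans (le_max_left _ _))
    refine ContinuousLinearMap.opNorm_le_bound _ hN fun v => ?_
    have hr : 0 < p.2.1 := by linarith [hp.1]
    rw [fderiv_tauP hr, Real.norm_eq_abs]
    have b1 : |fderiv ℝ (GP e cy rr) p v| ≤ N2 * ‖v‖ :=
      ((fderiv ℝ (GP e cy rr) p).le_opNorm v).trans (mul_le_mul_of_nonneg_right a2 (norm_nonneg _))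
    have b2 : |GP e cy rr p * v.2.1| ≤ N2 * ‖v‖ := by
      rw [abs_mul]; exact mul_le_mul a1 (Y3_comp v).2.1 (abs_nonneg _) hN
    have b0 : 0 ≤ N2 * ‖v‖ := mul_nonneg hN (norm_nonneg _)
    have b3 : |fderiv ℝ (GP e cy rr) p v / (800 * p.2.1)| ≤ N2 * ‖v‖ / 2 := by
      rw [abs_div, abs_of_pos (by positivity : 0 < 800 * p.2.1), div_le_iff₀ (by positivity)]
      nlinarith [hp.1]
    have b4 : |GP e cy rr p * v.2.1 / (800 * p.2.1 ^ 2)| ≤ N2 * ‖v‖ / 2 := by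
      rw [abs_div, abs_of_pos (by positivity : 0 < 800 * p.2.1 ^ 2), div_le_iff₀ (by positivity)]
      have : 1 / 64 ≤ p.2.1 ^ 2 := by nlinarith [hp.1]
      nlinarith
    linarith [abs_sub (fderiv ℝ (GP e cy rr) p v / (800 * p.2.1))
      (GP e cy rr p * v.2.1 / (800 * p.2.1 ^ 2))]

lemma det_bound (he : 0 < e) (he0 : e ≤ 1 / 10000000) (hr : 0 < p.2.1) (h : LL e cy p = 0)
    (hz : -(1 / 10) < p.2.2) :
    1 / 40000 ≤ fderiv ℝ (LL e cy) p (0, 1, 0) * fderiv ℝ (tauP e) p (0, 0, 1) -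
      fderiv ℝ (LL e cy) p (0, 0, 1) * fderiv ℝ (tauP e) p (0, 1, 0) := by
  have hb := box_of_LL he he0 hr h
  have hj := jac he he0 h hz hb.1
  have hv : ((0, p.2.1, p.2.2) : Y3) = p.2.1 • ((0, 1, 0) : Y3) + p.2.2 • ((0, 0, 1) : Y3) := by
    ext <;> simp
  unfold Fn al be at hj
  rw [hv, map_add, map_add, map_smul, map_smul, map_smul, map_smul, h] at hj
  simp only [smul_eq_mul] at hj
  rw [fderiv_tauP hr, fderiv_tauP hr]
  set a := fderiv ℝ (LL e cy) p (0, 1, 0)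
  set b := fderiv ℝ (LL e cy) p (0, 0, 1)
  set c := fderiv ℝ (GP e cy rr) p (0, 1, 0)
  set d := fderiv ℝ (GP e cy rr) p (0, 0, 1)
  set g := GP e cy rr p
  have e1 : a * (d / (800 * p.2.1) - g * 0 / (800 * p.2.1 ^ 2)) -
      b * (c / (800 * p.2.1) - g * 1 / (800 * p.2.1 ^ 2)) =
      (-d * (0 - (p.2.1 * a + p.2.2 * b)) + (g - (p.2.1 * c + p.2.2 * d)) * b) /
        (800 * p.2.1 ^ 2) := by
    field_simp
    ring
  show 1 / 40000 ≤ a * (d / (800 * p.2.1) - g * 0 / (800 * p.2.1 ^ 2)) -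
      b * (c / (800 * p.2.1) - g * 1 / (800 * p.2.1 ^ 2))
  rw [e1, le_div_iff₀ (by positivity)]
  nlinarith [hb.2.1]

lemma GP_overlap (he : 0 < e) (he0 : e ≤ 1 / 10000000) (hr : 0 < p.2.1) (h : LL e cy p = 0)
    (h1 : -(1 / 10) < p.2.2) (h2 : p.2.2 < 1 / 10) :
    (-2 * e ≤ LI e cy p → GP e cy rr p = GH e cy p - 3 * p.2.2) ∧
      (LI e cy p < -2 * e → GP e cy rr p = p.2.2 - 400 * p.2.1) := by
  have hb := box_of_LL he he0 hr h
  have hB := inB_of_LL he h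
  have b3 : TM e cy p = -p.2.2 - 1 + 25 * e := by simp only [TM, lf, cy]; ring
  have b4 : TP e cy p = p.2.2 - 1 + 25 * e := by simp only [TP, lf, cy]; ring
  have b5 : LT e cy p ≤ -(8 / 10) := by rcases (LT_spec he cy p).2.2 with s | s <;> linarith
  have hZ : cy.Z p = p.2.2 := rfl
  obtain ⟨-, -, u⟩ := LB_spec he cy p
  constructor
  · intro k
    have k1 := LH_lt he he0 hB k
    have k2 : LL e cy p = LI e cy p := mx_right he (by rcases u with s | s <;> linarith)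
    have k3 : GP e cy rr p = B2 e cy p :=
      mx_right he (inner_branch (R := rr) he he0 h h1.le hb.1 k)
    rw [k3, B2, ← k2, h, hZ]; ring
  · intro k
    obtain ⟨-, -, s3⟩ := LL_spec he cy p
    have k2 : LL e cy p = LB e cy p := mx_left he (by rcases s3 with s | s <;> linarith)
    have k3 : LB e cy p = LH e cy p := mx_left he (by rcases u with s | s <;> linarith)
    have k4 : GP e cy rr p = B1 e cy rr p :=
      mx_left he (outer_branch (R := rr) he he0 h h1.le (by linarith))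
    have k5 : E12 e cy rr p = E1 cy rr p := by
      refine mx_left he ?_
      have := (GH_bound he he0 hB).2
      have := hb.2.1
      simp only [E1, E2, rr, hZ]; linarith
    rw [k4, B1, k5, ← k3, ← k2, h, E1, hZ, rr]; ring

lemma tau_overlap (he : 0 < e) (he0 : e ≤ 1 / 10000000) (hr : 0 < p.2.1) (h : LL e cy p = 0)
    (h1 : -(1 / 10) < p.2.2) (h2 : p.2.2 < 1 / 10) : tauM e p - tauP e p ∈ ZZ := by
  obtain ⟨a1, a2⟩ := GP_overlap he he0 hr h h1 h2
  obtain ⟨b1, b2⟩ := GP_overlap (p := sig p) he he0 hr (by rw [LL_sig he, h])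
    (by simp only [sig_apply]; linarith) (by simp only [sig_apply]; linarith)
  rw [LI_sig he] at b1 b2
  unfold tauM tauP
  rcases le_or_gt (-2 * e) (LI e cy p) with k | k
  · rw [a1 k, b1 k, GH_sig]
    exact ⟨0, by simp only [sig_apply]; field_simp; ring⟩
  · rw [a2 k, b2 k]
    exact ⟨1, by simp only [sig_apply]; field_simp; ring⟩

lemma tauP_range (he : 0 < e) (he0 : e ≤ 1 / 10000000) (hr : 0 < p.2.1) (h : LL e cy p = 0)
    (hz : 0 ≤ p.2.2) : -(1 / 2) ≤ tauP e p ∧ tauP e p < 1 / 2 ∧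
      (tauP e p = -(1 / 2) → p.2.2 = 0 ∧ LH e cy p = 0) := by
  have hb := box_of_LL he he0 hr h
  have hB := inB_of_LL he h
  obtain ⟨u1, -, u3⟩ := GP_spec he cy rr p
  obtain ⟨v1, -, v3⟩ := E12_spec he cy rr p
  obtain ⟨g1, g2, g3, g4, g5, g6⟩ := LH_ge he cy p
  have k1 := Hlow he he0 hB g2 g3 g5 g6
  have k2 := LH_nonpos he h
  have k3 := LI_nonpos he h
  have k4 := (GH_bound he he0 hB).2
  have k5 := hB.2.2.2.2.2.2.1
  have hZ : cy.Z p = p.2.2 := rfl
  obtain ⟨r1, r2, r3, r4⟩ := hb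
  simp only [B1, B2, E1, E2, rr, hZ] at u1 u3 v1 v3
  unfold tauP
  refine ⟨?_, ?_, fun k => ?_⟩
  · rw [le_div_iff₀ (by positivity)]; linarith
  · rw [div_lt_iff₀ (by positivity)]
    rcases u3 with s | s
    · rcases v3 with t | t <;> linarith
    · linarith
  · rw [div_eq_iff (by positivity)] at k
    constructor <;> linarith

lemma LH_ray (he : 0 < e) (he0 : e ≤ 1 / 10000000) {r s : ℝ} (hr : 0 < r) (hrs : r < s)
    (h : LH e cy (0, s, 0) = 0) : LH e cy (0, r, 0) < 0 := by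
  have c1 : ∀ t : ℝ, LH e cy (0, t, 0) = LH e ce (EuclideanSpace.single 0 t) := fun t =>
    LH_congr (by simp [cy, ce]) (by simp [cy, ce]) (by simp [cy, ce])
  have h0 : LH e ce 0 < 0 := by
    have x0 : ce.X 0 = 0 := rfl
    have y0 : ce.Y 0 = 0 := rfl
    have z0 : ce.Z 0 = 0 := rfl
    rcases LH_le he ce 0 with k | k | k | k | k | k <;>
      simp only [G1, G2, G3, G4, G5, G6, lf, x0, y0, z0] at k <;> linarith
  have hs : 0 < s := by linarith
  have t0 : 0 < 1 - r / s := by rw [sub_pos, div_lt_one hs]; exact hrs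
  have t1 : 0 ≤ r / s := by positivity
  have := (LH_convex he).2 (mem_univ 0) (mem_univ (EuclideanSpace.single 0 s)) t0.le t1 (by ring)
  rw [← c1 s, h] at this
  have e1 : (1 - r / s) • (0 : E3) + (r / s) • EuclideanSpace.single 0 s =
      EuclideanSpace.single 0 r := by
    ext i; fin_cases i <;> simp [hs.ne']
  rw [e1, ← c1 r] at this
  simp only [smul_eq_mul] at this
  nlinarith

/-- the upper chart -/
def U1 : Set Y3 := {p | -(1 / 10) < p.2.2}

/-- the lower chart -/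
def U2 : Set Y3 := {p | p.2.2 < 1 / 10}

lemma fibre (he : 0 < e) (he0 : e ≤ 1 / 10000000) : ∀ p p',
    Rel (LL e cy) (tauP e) (tauM e) U1 U2 (0, 1 / 2) p →
    Rel (LL e cy) (tauP e) (tauM e) U1 U2 (0, 1 / 2) p' → p = p' := by
  have key : ∀ p, Rel (LL e cy) (tauP e) (tauM e) U1 U2 (0, 1 / 2) p →
      p = (0, p.2.1, 0) ∧ 0 < p.2.1 ∧ LH e cy p = 0 := by
    rintro p ⟨⟨hr, h⟩, h1, h2, h3⟩
    have : p.2.2 = 0 ∧ LH e cy p = 0 := by
      rcases le_total 0 p.2.2 with k | k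
      · obtain ⟨a1, a2, a3⟩ := tauP_range he he0 hr h k
        have := ZZ_near (h2 (show -(1 / 10) < p.2.2 by linarith)) ⟨-1, rfl⟩
          (by rw [abs_lt]; constructor <;> push_cast <;> linarith)
        exact a3 (by push_cast at this; linarith)
      · obtain ⟨a1, a2, a3⟩ := tauP_range (p := sig p) he he0 hr (by rw [LL_sig he, h])
          (by simp only [sig_apply]; linarith)
        have := ZZ_near (h3 (show p.2.2 < 1 / 10 by linarith)) ⟨0, rfl⟩
          (by rw [abs_lt]; unfold tauM; constructor <;> push_cast <;> linarith)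
        unfold tauM at this
        have := a3 (by push_cast at this; linarith)
        rw [LH_sig he] at this
        exact ⟨by simpa [sig_apply] using this.1, this.2⟩
    exact ⟨Prod.ext h1 (Prod.ext rfl this.1), hr, this.2⟩
  intro p p' h h'
  obtain ⟨a1, a2, a3⟩ := key p h
  obtain ⟨b1, b2, b3⟩ := key p' h'
  rw [a1] at a3
  rw [b1] at b3
  rcases lt_trichotomy p.2.1 p'.2.1 with k | k | k
  · exact absurd a3 (LH_ray he he0 a2 k b3).ne
  · rw [a1, b1, k]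
  · exact absurd b3 (LH_ray he he0 b2 k a3).ne

lemma surf_nonempty (he : 0 < e) (he0 : e ≤ 1 / 10000000) :
    ∃ p : Y3, 0 < p.2.1 ∧ LL e cy p = 0 := by
  have hc : Continuous fun r : ℝ => LL e cy (0, r, 0) :=
    (LL_cd cy_sm).continuous.comp (by fun_prop)
  have h1 : LL0 cy (0, 1, 0) = 4 := by
    simp [LL0, cy, lf, G1, G2, G3, G4, G5, G6, TP, TM, A0, A1, A2, A3, A4, A5, A6, A7]; norm_num
  have h2 : LL0 cy (0, 7 / 2, 0) = -1 := by
    simp [LL0, cy, lf, G1, G2, G3, G4, G5, G6, TP, TM, A0, A1, A2, A3, A4, A5, A6, A7]; norm_num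
  have a1 := abs_le.1 (LL_approx he cy (0, 1, 0))
  have a2 := abs_le.1 (LL_approx he cy (0, 7 / 2, 0))
  obtain ⟨r, hr, h⟩ := intermediate_value_Icc' (show (1 : ℝ) ≤ 7 / 2 by norm_num) hc.continuousOn
    (show (0 : ℝ) ∈ Icc (LL e cy (0, 7 / 2, 0)) (LL e cy (0, 1, 0)) from
      ⟨by linarith [a2.2], by linarith [a1.1]⟩)
  exact ⟨(0, r, 0), by show 0 < r; linarith [hr.1], h⟩

lemma shift_X (p : Y3) (m : ℤ) : cy.X (p.1 + m, p.2) = cy.X p := by
  simp only [cy]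
  rw [show 2 * π * (p.1 + m) = 2 * π * p.1 + m * (2 * π) by ring, cos_add_int_mul_two_pi]

lemma shift_Y (p : Y3) (m : ℤ) : cy.Y (p.1 + m, p.2) = cy.Y p := by
  simp only [cy]
  rw [show 2 * π * (p.1 + m) = 2 * π * p.1 + m * (2 * π) by ring, sin_add_int_mul_two_pi]

lemma tauP_shift (p : Y3) (m : ℤ) : tauP e (p.1 + m, p.2) = tauP e p := by
  unfold tauP
  rw [GP_congr (R := rr) (R' := rr) (shift_X p m) (shift_Y p m) rfl rfl]

lemma tauM_shift (p : Y3) (m : ℤ) : tauM e (p.1 + m, p.2) = tauM e p := by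
  unfold tauM
  have : sig (p.1 + m, p.2) = ((sig p).1 + ((-m : ℤ) : ℝ), (sig p).2) := by
    simp only [sig_apply]; push_cast; congr 1; ring
  rw [this, tauP_shift]

theorem surf : ∃ C N : ℝ, 0 ≤ C ∧ 0 ≤ N ∧ ∀ e, 0 < e → e ≤ 1 / 10000000 →
    (∀ p : Y3, 0 < p.2.1 → LL e cy p = 0 → fderiv ℝ (LL e cy) p ≠ 0) ∧
    ∃ F : ℝ × ℝ → Y3, (∀ q, (F q).1 = q.1 ∧ Box (F q) ∧ LL e cy (F q) = 0) ∧
      (∀ (a b : ℝ) (m n : ℤ), F (a + m, b + n) = ((F (a, b)).1 + m, (F (a, b)).2)) ∧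
      (∀ p : Y3, 0 < p.2.1 → LL e cy p = 0 → ∃ s, F (p.1, s) = p) ∧ ContDiff ℝ (⊤ : ℕ∞) F ∧
      (∀ q, Injective (fderiv ℝ F q)) ∧ (∀ q, ‖fderiv ℝ F q‖ ≤ C) ∧
      ∀ a b b', ‖F (a, b) - F (a, b')‖ < 1 / 10 →
        ∃ k : ℤ, |b - b' - k| ≤ N * ‖F (a, b) - F (a, b')‖ := by
  obtain ⟨N, hN, hb⟩ := UB_tauP
  refine ⟨1 + 2 * N * (1 + N) / (1 / 40000), N, by positivity, hN, fun e he he0 => ?_⟩
  have he1 : e ≤ 1 := by linarith
  have hJ1 : ∀ p : Y3, 0 < p.2.1 → LL e cy p = 0 → p ∈ U1 → ∀ v : Y3,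
      ‖v‖ ≤ (1 + 2 * N * (1 + N) / (1 / 40000)) *
        ‖((v.1, fderiv ℝ (LL e cy) p v, fderiv ℝ (tauP e) p v) : Y3)‖ := by
    intro p hr h hu v
    obtain ⟨b1, b2⟩ := hb e he he1 p (box_of_LL he he0 hr h)
    exact inv_bound (by norm_num) b1 b2 (det_bound he he0 hr h hu) v
  have dL : ∀ p v : Y3, fderiv ℝ (LL e cy) p v = fderiv ℝ (LL e cy) (sig p) (sig v) := by
    intro p v
    have e1 : LL e cy = LL e cy ∘ sig := funext fun q => (LL_sig he q).symm
    have := ((dLL e (sig p)).hasFDerivAt.comp p sig.hasFDerivAt).fderiv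
    rw [← e1] at this
    rw [this]; rfl
  have hJ2 : ∀ p : Y3, 0 < p.2.1 → LL e cy p = 0 → p ∈ U2 → ∀ v : Y3,
      ‖v‖ ≤ (1 + 2 * N * (1 + N) / (1 / 40000)) *
        ‖((v.1, fderiv ℝ (LL e cy) p v, fderiv ℝ (tauM e) p v) : Y3)‖ := by
    intro p hr h hu v
    have hu' : p.2.2 < 1 / 10 := hu
    have := hJ1 (sig p) hr (by rw [LL_sig he, h])
      (show -(1 / 10) < -p.2.2 by linarith) (sig v)
    have dM : fderiv ℝ (tauM e) p v = -fderiv ℝ (tauP e) (sig p) (sig v) := by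
      have := ((((tauP_cd (e := e) (p := sig p) hr).differentiableAt (by simp)).hasFDerivAt.comp p
        sig.hasFDerivAt).neg).fderiv
      have e1 : tauM e = -(tauP e ∘ sig) := rfl
      rw [e1, this]; rfl
    rw [norm_sig, ← dL] at this
    rw [dM]
    simpa [Prod.norm_def, sig_apply] using this
  have hU : ∀ p : Y3, p ∈ U1 ∨ p ∈ U2 := by
    intro p
    rcases le_total 0 p.2.2 with k | k
    · exact Or.inl (show -(1 / 10) < p.2.2 by linarith)
    · exact Or.inr (show p.2.2 < 1 / 10 by linarith)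
  constructor
  · intro p hr h h0
    rcases hU p with k | k
    · have := det_bound he he0 hr h k
      rw [h0] at this; norm_num at this
    · have k' : p.2.2 < 1 / 10 := k
      have := det_bound (p := sig p) he he0 hr (by rw [LL_sig he, h])
        (show -(1 / 10) < -p.2.2 by linarith)
      have d1 := dL p (0, 1, 0)
      have d2 := dL p (0, 0, -1)
      simp only [h0, sig_apply, neg_zero, neg_neg, zero_apply] at d1 d2
      simp only [sig_apply] at this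
      rw [← d1, ← d2] at this; norm_num at this
  obtain ⟨F, f1, f2, f3, f4, f5, f6⟩ := param (Λ := LL e cy) (τ1 := tauP e) (τ2 := tauM e)
    (U1 := U1) (U2 := U2) (by positivity) (isOpen_lt continuous_const (by fun_prop))
    (isOpen_lt (by fun_prop) continuous_const) hU (LL_cd cy_sm) (fun p h => tauP_cd h)
    (fun p h => tauM_cd h) hJ1 hJ2 (fun p h1 h2 h3 h4 => tau_overlap he he0 h1 h2 h3 h4)
    (r0 := 1 / 8) (r1 := 5) (z1 := 1) (by norm_num)
    (fun p h1 h2 => by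
      obtain ⟨b1, b2, b3, b4⟩ := box_of_LL he he0 h1 h2
      exact ⟨⟨b1, b2⟩, b3, b4⟩)
    (surf_nonempty he he0) ⟨_, fibre he he0⟩
  have hbox : ∀ q, Box (F q) := fun q => box_of_LL he he0 (f1 q).1.1 (f1 q).1.2
  refine ⟨F, fun q => ⟨(f1 q).2.1, hbox q, (f1 q).1.2⟩, fun a b m n => ?_, f3, f4, f5, f6,
    fun a b b' hlt => ?_⟩
  · obtain ⟨⟨r1, r2⟩, r3, r4, r5⟩ := f1 (a, b)
    refine (f2 (a + m, b + n) ((F (a, b)).1 + m, (F (a, b)).2)
      ⟨⟨r1, ?_⟩, by simp only [r3], fun k => ?_, fun k => ?_⟩).symm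
    · rw [← r2]; exact LL_congr (shift_X _ m) (shift_Y _ m) rfl
    · rw [tauP_shift]
      have := ZZ_add (r4 k) (ZZ_neg ⟨n, rfl⟩)
      simpa [sub_eq_add_neg, add_assoc, add_comm, add_left_comm] using this
    · rw [tauM_shift]
      have := ZZ_add (r5 k) (ZZ_neg ⟨n, rfl⟩)
      simpa [sub_eq_add_neg, add_assoc, add_comm, add_left_comm] using this
  · have lip : ∀ x y : Y3, Box x → Box y → |tauP e x - tauP e y| ≤ N * ‖x - y‖ := by
      intro x y hx hy
      exact box_convex.norm_image_sub_le_of_norm_fderiv_le (𝕜 := ℝ)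
        (fun z hz => (tauP_cd (lt_of_lt_of_le (by norm_num) hz.1)).differentiableAt (by simp))
        (fun z hz => (hb e he he1 z hz).2) hy hx
    have hz := abs_le.1 ((Y3_comp (F (a, b) - F (a, b'))).2.2)
    simp only [Prod.snd_sub] at hz
    by_cases k : F (a, b) ∈ U1 ∧ F (a, b') ∈ U1
    · obtain ⟨m, hm⟩ := (f1 (a, b)).2.2.1 k.1
      obtain ⟨n, hn⟩ := (f1 (a, b')).2.2.1 k.2
      refine ⟨n - m, ?_⟩
      have := lip _ _ (hbox (a, b)) (hbox (a, b'))
      simp only at hm hn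
      rwa [show b - b' - ((n - m : ℤ) : ℝ) = tauP e (F (a, b)) - tauP e (F (a, b')) by
        push_cast; linarith]
    · have k' : F (a, b) ∈ U2 ∧ F (a, b') ∈ U2 := by
        simp only [U1, U2, mem_ofPred_eq, not_and_or, not_lt] at k ⊢
        rcases k with k | k <;> constructor <;> linarith [hz.1, hz.2]
      obtain ⟨m, hm⟩ := (f1 (a, b)).2.2.2 k'.1
      obtain ⟨n, hn⟩ := (f1 (a, b')).2.2.2 k'.2
      refine ⟨n - m, ?_⟩
      have := lip _ _ (box_sig (hbox (a, b'))) (box_sig (hbox (a, b)))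
      rw [← map_sub, norm_sig, norm_sub_rev] at this
      simp only [tauM] at hm hn
      rwa [show b - b' - ((n - m : ℤ) : ℝ) = tauP e (sig (F (a, b'))) - tauP e (sig (F (a, b))) by
        push_cast; linarith]

end Pool.Agent.Lib.MP_d88725_gt
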