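import Pool.Agent.Lib.MP_d88725_gt.Surf

set_option autoImplicit false
set_option linter.unusedVariables false

namespace Pool.Agent.Lib.MP_d88725_gt

open Set Filter Topology Real Function

/-- the parameter torus -/
abbrev T2 : Type := AddCircle (1 : ℝ) × AddCircle (1 : ℝ)

/-- from cylindrical to Cartesian coordinates -/
noncomputable def cyl (p : Y3) : E3 := !₂[cy.X p, cy.Y p, cy.Z p]

lemma cyl_cd : ContDiff ℝ (⊤ : ℕ∞) cyl := by
  rw [contDiff_euclidean]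
  intro i
  fin_cases i
  · exact cy_sm.1
  · exact cy_sm.2.1
  · exact cy_sm.2.2

lemma LL_cyl (e : ℝ) (p : Y3) : LL e ce (cyl p) = LL e cy p := LL_congr rfl rfl rfl

lemma fderiv_cyl (p v : Y3) : fderiv ℝ cyl p v 0 = fderiv ℝ cy.X p v ∧
    fderiv ℝ cyl p v 1 = fderiv ℝ cy.Y p v ∧ fderiv ℝ cyl p v 2 = fderiv ℝ cy.Z p v := by
  have hd := (cyl_cd.differentiable (by simp) p).hasFDerivAt
  have key : ∀ i : Fin 3, fderiv ℝ cyl p v i = fderiv ℝ (fun q => cyl q i) p v := by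
    intro i
    have := ((EuclideanSpace.proj i : E3 →L[ℝ] ℝ).hasFDerivAt.comp p hd).fderiv
    have e : (fun q => cyl q i) = (EuclideanSpace.proj i : E3 →L[ℝ] ℝ) ∘ cyl := rfl
    rw [e, this]; rfl
  exact ⟨key 0, key 1, key 2⟩

lemma fderiv_cyl_inj {p : Y3} (hr : 0 < p.2.1) : Injective (fderiv ℝ cyl p) := by
  rw [injective_iff_map_eq_zero]
  intro v hv
  obtain ⟨h1, h2, h3⟩ := fderiv_cyl p v
  rw [hv, fderiv_X] at h1
  rw [hv, fderiv_Y] at h2
  rw [hv, fderiv_Z] at h3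
  simp only [PiLp.zero_apply] at h1 h2 h3
  have hs := cos_sq_add_sin_sq (2 * π * p.1)
  have e1 : v.2.1 = 0 := by
    linear_combination (-cos (2 * π * p.1)) * h1 - sin (2 * π * p.1) * h2 - v.2.1 * hs
  have e2 : p.2.1 * (2 * π) * v.1 = 0 := by
    linear_combination sin (2 * π * p.1) * h1 - cos (2 * π * p.1) * h2 -
      p.2.1 * (2 * π) * v.1 * hs
  have e3 : v.1 = 0 := (mul_eq_zero.1 e2).resolve_left (by positivity)
  exact Prod.ext e3 (Prod.ext e1 h3.symm)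

lemma norm_fderiv_cyl {p : Y3} (hp : Box p) : ‖fderiv ℝ cyl p‖ ≤ 83 := by
  refine ContinuousLinearMap.opNorm_le_bound _ (by norm_num) fun v => ?_
  obtain ⟨h1, h2, h3⟩ := fderiv_cyl p v
  have hv := norm_nonneg v
  have b1 : |fderiv ℝ cy.X p v| ≤ 41 * ‖v‖ :=
    ((fderiv ℝ cy.X p).le_opNorm v).trans (mul_le_mul_of_nonneg_right (norm_fderiv_X hp) hv)
  have b2 : |fderiv ℝ cy.Y p v| ≤ 41 * ‖v‖ :=
    ((fderiv ℝ cy.Y p).le_opNorm v).trans (mul_le_mul_of_nonneg_right (norm_fderiv_Y hp) hv)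
  have b3 : |fderiv ℝ cy.Z p v| ≤ 1 * ‖v‖ :=
    ((fderiv ℝ cy.Z p).le_opNorm v).trans (mul_le_mul_of_nonneg_right (norm_fderiv_Z p) hv)
  rw [EuclideanSpace.norm_eq, Real.sqrt_le_iff, Fin.sum_univ_three, h1, h2, h3]
  simp only [Real.norm_eq_abs]
  refine ⟨by positivity, ?_⟩
  nlinarith [abs_nonneg (fderiv ℝ cy.X p v), abs_nonneg (fderiv ℝ cy.Y p v),
    abs_nonneg (fderiv ℝ cy.Z p v)]

lemma cyl_surj {e : ℝ} (he : 0 < e) (he0 : e ≤ 1 / 10000000) {x : E3} (h : LL e ce x = 0) :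
    ∃ p : Y3, 0 < p.2.1 ∧ cyl p = x := by
  set w : ℂ := ⟨x 0, x 1⟩ with hw
  have ha : 2 * π * (Complex.arg w / (2 * π)) = Complex.arg w := by field_simp
  have h1 := Complex.norm_mul_cos_arg w
  have h2 := Complex.norm_mul_sin_arg w
  refine ⟨(Complex.arg w / (2 * π), ‖w‖, x 2), ?_, ?_⟩
  · refine lt_of_le_of_ne (norm_nonneg w) fun k => ?_
    simp only at k
    rw [← k, zero_mul] at h1 h2
    have x0 : ce.X x = 0 := h1.symm
    have x1 : ce.Y x = 0 := h2.symm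
    exact G0 he he0 (inB_of_LL he h) (by rw [x0]; norm_num) (by rw [x0]; norm_num)
      (by rw [x1]; norm_num) (by rw [x1]; norm_num) (le12_of he (LI_nonpos he h) (by linarith))
  · ext i
    fin_cases i
    · simp only [cyl, cy, ha]; exact h1
    · simp only [cyl, cy, ha]; exact h2
    · rfl

lemma cyl_dist {p p' : Y3} (h : p.1 = p'.1) : ‖p - p'‖ ≤ dist (cyl p) (cyl p') := by
  have hs := cos_sq_add_sin_sq (2 * π * p'.1)
  have e : dist (cyl p) (cyl p') ^ 2 = (p.2.1 - p'.2.1) ^ 2 + (p.2.2 - p'.2.2) ^ 2 := by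
    rw [EuclideanSpace.dist_eq, Real.sq_sqrt (by positivity), Fin.sum_univ_three]
    simp only [Real.dist_eq, sq_abs]
    show (p.2.1 * cos (2 * π * p.1) - p'.2.1 * cos (2 * π * p'.1)) ^ 2 +
      (p.2.1 * sin (2 * π * p.1) - p'.2.1 * sin (2 * π * p'.1)) ^ 2 + (p.2.2 - p'.2.2) ^ 2 = _
    rw [h]
    linear_combination (p.2.1 - p'.2.1) ^ 2 * hs
  have hd := dist_nonneg (x := cyl p) (y := cyl p')
  rw [Prod.norm_def, Prod.norm_def]
  refine max_le (by simp [h]) (max_le ?_ ?_)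
  · exact abs_le_of_sq_le_sq' (by simp only [Prod.snd_sub, Prod.fst_sub]; nlinarith) hd |> abs_le.2
  · exact abs_le_of_sq_le_sq' (by simp only [Prod.snd_sub]; nlinarith) hd |> abs_le.2

lemma coe_eq_iff (a b : ℝ) : (a : AddCircle (1 : ℝ)) = b ↔ ∃ m : ℤ, a = b + m := by
  rw [eq_comm, QuotientAddGroup.eq, AddSubgroup.mem_zmultiples_iff]
  constructor
  · rintro ⟨m, hm⟩; exact ⟨m, by simp at hm; linarith⟩
  · rintro ⟨m, hm⟩; exact ⟨m, by simp [hm]⟩

/-- a real representative of a point of the circle -/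
noncomputable def rep (t : AddCircle (1 : ℝ)) : ℝ := (QuotientAddGroup.mk_surjective t).choose

lemma rep_spec (t : AddCircle (1 : ℝ)) : ((rep t : ℝ) : AddCircle (1 : ℝ)) = t :=
  (QuotientAddGroup.mk_surjective t).choose_spec

lemma lift_near (s t : AddCircle (1 : ℝ)) :
    ∃ a b : ℝ, (a : AddCircle (1 : ℝ)) = s ∧ (b : AddCircle (1 : ℝ)) = t ∧ |a - b| = dist s t := by
  refine ⟨rep s, rep t + round (rep s - rep t), rep_spec s, ?_, ?_⟩
  · rw [← rep_spec t, coe_eq_iff]; exact ⟨_, by rw [rep_spec]⟩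
  · conv_rhs => rw [← rep_spec s, ← rep_spec t, dist_eq_norm, ← AddCircle.coe_sub,
      UnitAddCircle.norm_eq]
    congr 1; ring

/-- the angular condition -/
def Ang (g : T2 → E3) : Prop := ∀ a b : ℝ,
  g (a, b) 0 * sin (2 * π * a) = g (a, b) 1 * cos (2 * π * a) ∧
    1 / 8 ≤ g (a, b) 0 * cos (2 * π * a) + g (a, b) 1 * sin (2 * π * a)

lemma inj_of {g : T2 → E3} (h1 : Ang g)
    (h2 : ∀ a b b' : ℝ, g (a, b) = g (a, b') → (b : AddCircle (1 : ℝ)) = b') : Injective g := by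
  rintro ⟨s, t⟩ ⟨s', t'⟩ h
  obtain ⟨a, rfl⟩ := QuotientAddGroup.mk_surjective s
  obtain ⟨b, rfl⟩ := QuotientAddGroup.mk_surjective t
  obtain ⟨a', rfl⟩ := QuotientAddGroup.mk_surjective s'
  obtain ⟨b', rfl⟩ := QuotientAddGroup.mk_surjective t'
  obtain ⟨u1, u2⟩ := h1 a b
  obtain ⟨v1, v2⟩ := h1 a' b'
  rw [← h] at v1 v2
  set x := g (a, b) 0
  set y := g (a, b) 1
  have hs := cos_sq_add_sin_sq (2 * π * a)
  have hs' := cos_sq_add_sin_sq (2 * π * a')
  set c := cos (2 * π * a) with hc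
  set s := sin (2 * π * a) with hsn
  set c' := cos (2 * π * a') with hc'
  set s' := sin (2 * π * a') with hsn'
  have x1 : x = (x * c + y * s) * c := by linear_combination s * u1 - x * hs
  have y1 : y = (x * c + y * s) * s := by linear_combination (-c) * u1 - y * hs
  have x2 : x = (x * c' + y * s') * c' := by linear_combination s' * v1 - x * hs'
  have y2 : y = (x * c' + y * s') * s' := by linear_combination (-c') * v1 - y * hs'
  have r1 : (x * c + y * s) ^ 2 = x ^ 2 + y ^ 2 := by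
    linear_combination (x ^ 2 + y ^ 2) * hs - (x * s - y * c) * u1
  have r2 : (x * c' + y * s') ^ 2 = x ^ 2 + y ^ 2 := by
    linear_combination (x ^ 2 + y ^ 2) * hs' - (x * s' - y * c') * v1
  have r3 : x * c + y * s = x * c' + y * s' :=
    (pow_left_inj₀ (by linarith) (by linarith) two_ne_zero).1 (r1.trans r2.symm)
  have r0 : x * c + y * s ≠ 0 := by linarith
  have e1 : c = c' := mul_left_cancel₀ r0 (by rw [← x1, r3, ← x2])
  have e2 : s = s' := mul_left_cancel₀ r0 (by rw [← y1, r3, ← y2])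
  obtain ⟨k, hk⟩ := Real.Angle.angle_eq_iff_two_pi_dvd_sub.1 (Real.Angle.cos_sin_inj e1 e2)
  have e3 : (a : AddCircle (1 : ℝ)) = a' := (coe_eq_iff a a').2 ⟨k,
    mul_left_cancel₀ (two_pi_pos.ne') (by linarith)⟩
  rw [← e3] at h ⊢
  rw [h2 a b b' h]

theorem torus : ∃ (C : NNReal) (N : ℝ), 0 ≤ N ∧ ∀ e, 0 < e → e ≤ 1 / 10000000 → ∃ f : T2 → E3,
    ContDiff ℝ (⊤ : ℕ∞) (fun p : ℝ × ℝ => f (p.1, p.2)) ∧
    (∀ p : ℝ × ℝ, Injective (fderiv ℝ (fun q : ℝ × ℝ => f (q.1, q.2)) p)) ∧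
    (∀ (ℓ : E3 →L[ℝ] ℝ) (c : ℝ), IsPreconnected {x | c < ℓ (f x)}) ∧ LipschitzWith C f ∧
    (∀ x, x ∈ range f ↔ LL e ce x = 0) ∧ Ang f ∧
    ∀ a b b' : ℝ, dist (f (a, b)) (f (a, b')) < 1 / 10 →
      dist (b : AddCircle (1 : ℝ)) b' ≤ N * dist (f (a, b)) (f (a, b')) := by
  obtain ⟨C, N, hC, hN, h⟩ := surf
  refine ⟨⟨83 * C, by positivity⟩, N, hN, fun e he he0 => ?_⟩
  obtain ⟨hD, F, f1, f2, f3, f4, f5, f6, f7⟩ := h e he he0
  set f : T2 → E3 := fun θ => cyl (F (rep θ.1, rep θ.2)) with hf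
  have hr : ∀ q, 0 < (F q).2.1 := fun q => lt_of_lt_of_le (by norm_num) (f1 q).2.1.1
  have fl : ∀ a b : ℝ, f (a, b) = cyl (F (a, b)) := by
    intro a b
    obtain ⟨m, hm⟩ := (coe_eq_iff _ _).1 (rep_spec (a : AddCircle (1 : ℝ)))
    obtain ⟨n, hn⟩ := (coe_eq_iff _ _).1 (rep_spec (b : AddCircle (1 : ℝ)))
    simp only [hf]
    rw [hm, hn, f2]
    simp only [cyl, shift_X, shift_Y]
    rfl
  have fe : (fun p : ℝ × ℝ => f (p.1, p.2)) = cyl ∘ F := funext fun p => fl p.1 p.2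
  have hd : ∀ q, fderiv ℝ (cyl ∘ F) q = (fderiv ℝ cyl (F q)).comp (fderiv ℝ F q) := fun q =>
    fderiv_comp q (cyl_cd.differentiable (by simp) _) (f4.differentiable (by simp) _)
  have lip : LipschitzWith ⟨83 * C, by positivity⟩ f := by
    refine LipschitzWith.of_dist_le_mul fun θ θ' => ?_
    obtain ⟨a, a', h1, h2, h3⟩ := lift_near θ.1 θ'.1
    obtain ⟨b, b', k1, k2, k3⟩ := lift_near θ.2 θ'.2
    have e1 : θ = ((a : AddCircle (1 : ℝ)), (b : AddCircle (1 : ℝ))) := Prod.ext h1.symm k1.symm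
    have e2 : θ' = ((a' : AddCircle (1 : ℝ)), (b' : AddCircle (1 : ℝ))) := Prod.ext h2.symm k2.symm
    have := convex_univ.norm_image_sub_le_of_norm_fderiv_le (𝕜 := ℝ) (f := cyl ∘ F) (C := 83 * C)
      (fun q _ => (cyl_cd.comp f4).differentiable (by simp) q)
      (fun q _ => by
        rw [hd]
        exact (ContinuousLinearMap.opNorm_comp_le _ _).trans
          (mul_le_mul (norm_fderiv_cyl (f1 q).2.1) (f6 q) (norm_nonneg _) (by norm_num)))
      (mem_univ (a', b')) (mem_univ (a, b))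
    rw [Prod.dist_eq, ← h3, ← k3, e1, e2, fl, fl, dist_eq_norm]
    exact this
  have hrange : ∀ x, x ∈ range f ↔ LL e ce x = 0 := by
    intro x
    constructor
    · rintro ⟨θ, rfl⟩
      simp only [hf]
      rw [LL_cyl]; exact (f1 _).2.2
    · intro hx
      obtain ⟨p, hp, rfl⟩ := cyl_surj he he0 hx
      obtain ⟨s, hs⟩ := f3 p hp (LL_cyl e p ▸ hx)
      exact ⟨(p.1, s), by rw [fl, hs]⟩
  have hang : Ang f := by
    intro a b
    rw [fl]
    have h1 : (F (a, b)).1 = a := (f1 _).1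
    have h2 := (f1 (a, b)).2.1.1
    have hs := cos_sq_add_sin_sq (2 * π * a)
    show (F (a, b)).2.1 * cos (2 * π * (F (a, b)).1) * sin (2 * π * a) =
      (F (a, b)).2.1 * sin (2 * π * (F (a, b)).1) * cos (2 * π * a) ∧
      1 / 8 ≤ (F (a, b)).2.1 * cos (2 * π * (F (a, b)).1) * cos (2 * π * a) +
        (F (a, b)).2.1 * sin (2 * π * (F (a, b)).1) * sin (2 * π * a)
    rw [h1]
    refine ⟨by ring, h2.trans (le_of_eq ?_)⟩
    linear_combination (-(F (a, b)).2.1) * hs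
  have hinv : ∀ a b b' : ℝ, dist (f (a, b)) (f (a, b')) < 1 / 10 →
      dist (b : AddCircle (1 : ℝ)) b' ≤ N * dist (f (a, b)) (f (a, b')) := by
    intro a b b' hlt
    rw [fl, fl] at hlt ⊢
    have h1 := cyl_dist (p := F (a, b)) (p' := F (a, b')) ((f1 (a, b)).1.trans (f1 (a, b')).1.symm)
    obtain ⟨k, hk⟩ := f7 a b b' (h1.trans_lt hlt)
    rw [dist_eq_norm, ← AddCircle.coe_sub, UnitAddCircle.norm_eq]
    exact ((round_le _ k).trans hk).trans (mul_le_mul_of_nonneg_left h1 hN)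
  have hinj : Injective f := inj_of hang fun a b b' h => by
    have := hinv a b b' (by rw [h]; simp)
    rw [h, dist_self, mul_zero] at this
    exact dist_le_zero.1 this
  refine ⟨f, fe ▸ cyl_cd.comp f4, fun p => ?_, fun ℓ c => ?_, lip, hrange, hang, hinv⟩
  · rw [fe, hd]
    exact (fderiv_cyl_inj (hr p)).comp (f5 p)
  · have hind : IsInducing f := (lip.continuous.isClosedEmbedding hinj).isInducing
    rw [← hind.isPreconnected_image]
    have : f '' {x | c < ℓ (f x)} = {x | LL e ce x = 0 ∧ c < ℓ x} := by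
      ext x
      constructor
      · rintro ⟨θ, h1, rfl⟩; exact ⟨(hrange _).1 ⟨θ, rfl⟩, h1⟩
      · rintro ⟨h1, h2⟩
        obtain ⟨θ, rfl⟩ := (hrange x).2 h1
        exact ⟨θ, h2, rfl⟩
    rw [this]
    refine tight he he0 (fun x hx h0 => ?_) ℓ c
    obtain ⟨p, hp, rfl⟩ := cyl_surj he he0 hx
    apply hD p hp (LL_cyl e p ▸ hx)
    have e1 : LL e cy = LL e ce ∘ cyl := funext fun q => (LL_cyl e q).symm
    rw [e1, fderiv_comp p ((LL_cd ce_sm).differentiable (by simp) _)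
      (cyl_cd.differentiable (by simp) _), h0]
    simp

end Pool.Agent.Lib.MP_d88725_gt
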